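import Mathlib
import Pool.Agent.TH881.RG.StD
import Pool.Agent.TH494.RgC

set_option autoImplicit false

/-!
# RG-FL1 (job 2026, helper81 for helper881): lower density of `A + P` for `A` a union of classes of
primes
-/

namespace Pool.Agent.TH81.J2026

open Finset Filter Topology
open Pool.Agent.TH881
open Pool.Agent.TH881.RG
open Pool.Agent.H373R2.T7

/-- a number `n ≤ N` which is a sum of a prime outside of the classes `UU w \ B` and a prime is in a
class of `sums w B` or it is a small number plus a prime -/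
lemma cnt_oneSum_le (w : ℕ) (B : Finset (ZMod (Wp w))) (N : ℕ) :
    (cnt (oneSum {p : ℕ | (p : ZMod (Wp w)) ∉ UU w \ B}) N : ℝ) ≤
      ((sums w B).card : ℝ) * ((N : ℝ) / Wp w + 1) +
        ((w : ℝ) + 1) * (((Icc 1 N).filter Nat.Prime).card : ℝ) := by
  classical
  set A : Set ℕ := {p : ℕ | (p : ZMod (Wp w)) ∉ UU w \ B} with hA
  set S : Finset ℕ := (sums w B).biUnion (fun t => cls w (Ioc 0 (0 + N)) t) with hS
  set T : Finset ℕ :=
    (range (w + 1)).biUnion (fun l => ((Icc 1 N).filter Nat.Prime).image (fun p => l + p)) with hT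
  have hunit : ∀ p : ℕ, p.Prime → w < p → IsUnit (p : ZMod (Wp w)) := by
    intro p hp hpw
    rw [ZMod.isUnit_iff_coprime, Nat.Prime.coprime_iff_not_dvd hp, prime_dvd_Wp hp]
    omega
  have hsub : (Icc 1 N).filter (fun n => n ∈ oneSum A) ⊆ S ∪ T := by
    intro n hn
    rw [mem_filter, mem_Icc] at hn
    obtain ⟨⟨hn1, hnN⟩, p, q, ⟨hp, hpA⟩, hq, hpq⟩ := hn
    rw [mem_union]
    by_cases hpw : p ≤ w
    · right
      rw [hT, mem_biUnion]
      refine ⟨p, mem_range.2 (by omega), ?_⟩
      rw [mem_image]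
      exact ⟨q, by rw [mem_filter, mem_Icc]; exact ⟨⟨hq.pos, by omega⟩, hq⟩, hpq⟩
    by_cases hqw : q ≤ w
    · right
      rw [hT, mem_biUnion]
      refine ⟨q, mem_range.2 (by omega), ?_⟩
      rw [mem_image]
      exact ⟨p, by rw [mem_filter, mem_Icc]; exact ⟨⟨hp.pos, by omega⟩, hp⟩, by omega⟩
    left
    have hup := hunit p hp (by omega)
    have huq := hunit q hq (by omega)
    have hpB : (p : ZMod (Wp w)) ∈ B := by
      by_contra hcon
      apply hpA
      rw [Finset.mem_sdiff]
      exact ⟨mem_UU.2 hup, hcon⟩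
    rw [hS, mem_biUnion]
    refine ⟨(n : ZMod (Wp w)), ?_, ?_⟩
    · unfold sums
      rw [mem_filter]
      refine ⟨mem_univ _, p, hpB, ?_⟩
      have : (n : ZMod (Wp w)) - p = q := by
        rw [← hpq]
        push_cast
        ring
      rw [this]
      exact huq
    · rw [mem_cls, mem_Ioc]
      exact ⟨⟨by omega, by omega⟩, rfl⟩
  have h1 : cnt (oneSum A) N ≤ S.card + T.card := by
    have h2 := (card_le_card hsub).trans (card_union_le _ _)
    unfold cnt
    refine le_trans (le_of_eq ?_) h2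
    congr
  have h3 : (S.card : ℝ) ≤ ((sums w B).card : ℝ) * ((N : ℝ) / Wp w + 1) := by
    have h4 : S.card ≤ ∑ t ∈ sums w B, (cls w (Ioc 0 (0 + N)) t).card := card_biUnion_le
    have h5 : (S.card : ℝ) ≤ ∑ t ∈ sums w B, ((cls w (Ioc 0 (0 + N)) t).card : ℝ) := by
      exact_mod_cast h4
    refine h5.trans ?_
    rw [← nsmul_eq_mul]
    exact sum_le_card_nsmul _ _ _ fun t _ => cls_card_le w 0 N _ (Finset.Subset.refl _) t
  have h6 : (T.card : ℝ) ≤ ((w : ℝ) + 1) * (((Icc 1 N).filter Nat.Prime).card : ℝ) := by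
    have h7 : T.card ≤ (w + 1) * ((Icc 1 N).filter Nat.Prime).card := by
      refine card_biUnion_le.trans ?_
      calc ∑ l ∈ range (w + 1), (((Icc 1 N).filter Nat.Prime).image (fun p => l + p)).card ≤
          ∑ l ∈ range (w + 1), ((Icc 1 N).filter Nat.Prime).card :=
            sum_le_sum fun l _ => card_image_le
        _ = _ := by rw [sum_const, card_range, smul_eq_mul]
    exact_mod_cast h7
  have h8 : (cnt (oneSum A) N : ℝ) ≤ (S.card : ℝ) + (T.card : ℝ) := by exact_mod_cast h1
  linarith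

lemma lowerDensity_le {A : Set ℕ} {c : ℝ} (h : ∀ᶠ n : ℕ in atTop, (cnt A n : ℝ) ≤ c * n) :
    lowerDensity A ≤ c := by
  apply liminf_le_of_frequently_le
  · apply Eventually.frequently
    filter_upwards [h, eventually_ge_atTop 1] with n h2 h3
    have h4 : (0 : ℝ) < n := by exact_mod_cast h3
    rw [div_le_iff₀ h4]
    exact h2
  · exact ratio_bdd_below A

theorem ff_class (hPC : StPC) (w : ℕ) (hw : 2 ≤ w) (B : Finset (ZMod (Wp w))) (hB : B ⊆ UU w) :
    ∃ A : Set ℕ, (B.card : ℝ) / Nat.totient (Wp w) ≤ relLower A ∧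
      lowerDensity (oneSum A) ≤ ((sums w B).card : ℝ) / Wp w := by
  classical
  refine ⟨{p : ℕ | (p : ZMod (Wp w)) ∉ UU w \ B}, ?_, ?_⟩
  · have h1 := Pool.Agent.TH494.RG.relLower_ge hPC w (UU w \ B)
      (fun a ha => mem_UU.1 (Finset.mem_sdiff.1 ha).1)
    have hφ := totient_Wp_pos w
    have h2 : ((UU w \ B).card : ℝ) = Nat.totient (Wp w) - B.card := by
      have h3 := card_sdiff_add_card_eq_card hB
      have h4 : ((UU w \ B).card : ℝ) + B.card = (UU w).card := by exact_mod_cast h3
      rw [card_UU] at h4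
      linarith
    rw [h2, sub_div, div_self hφ.ne'] at h1
    linarith
  · apply le_of_forall_pos_le_add
    intro ε hε
    have hWp : (0 : ℝ) < Wp w := by exact_mod_cast Wp_pos w
    apply lowerDensity_le
    have hlin : ∀ᶠ N : ℕ in atTop, ((sums w B).card : ℝ) ≤ ε / 2 * (N : ℝ) :=
      (tendsto_natCast_atTop_atTop.const_mul_atTop (by positivity)).eventually_ge_atTop _
    filter_upwards [Pool.Agent.TH494.RG.primes_small hPC (ε / (2 * (w + 1))) (by positivity), hlin]
      with N h1 h2
    have h3 := cnt_oneSum_le w B N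
    have h4 : ((w : ℝ) + 1) * (((Icc 1 N).filter Nat.Prime).card : ℝ) ≤ ε / 2 * N := by
      calc ((w : ℝ) + 1) * (((Icc 1 N).filter Nat.Prime).card : ℝ) ≤
          ((w : ℝ) + 1) * (ε / (2 * (w + 1)) * N) := by gcongr
        _ = _ := by field_simp
    have h5 : ((sums w B).card : ℝ) * ((N : ℝ) / Wp w + 1) =
        ((sums w B).card : ℝ) / Wp w * N + (sums w B).card := by
      field_simp
    rw [h5] at h3
    have h6 : (((sums w B).card : ℝ) / Wp w + ε) * N =
        ((sums w B).card : ℝ) / Wp w * N + ε / 2 * N + ε / 2 * N := by ring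
    rw [h6]
    linarith

end Pool.Agent.TH81.J2026
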