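import Mathlib
import Pool.Agent.TH881.RQ.Defs2

/-! The local example near density one. -/

set_option autoImplicit false
set_option linter.unusedVariables false

namespace Pool.Agent.TH81.RQJ

open Finset Filter Topology Polynomial
open Pool.Agent.TH881
open Pool.Agent.TH881.RG
open Pool.Agent.TH881.RQ
open Pool.Agent.H373R2.T7

/-! ### one prime -/

lemma Aq_pos (pr : Bool) {p : ℕ} (hp : p.Prime) : 1 ≤ Aq pr p := by
  have := hp.two_le
  unfold Aq
  split_ifs <;> omega

open Classical in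
lemma card_args (pr : Bool) {p : ℕ} (hp : p.Prime) :
    ((range p).filter (fun a => pr = true → ¬ p ∣ a)).card = Aq pr p := by
  unfold Aq
  by_cases h : pr = true
  · rw [if_pos h]
    have e : (range p).filter (fun a => pr = true → ¬ p ∣ a) = (range p).erase 0 := by
      ext a
      rw [mem_filter, mem_erase, mem_range]
      constructor
      · rintro ⟨h1, h2⟩
        exact ⟨fun h0 => h2 h (h0 ▸ dvd_zero p), h1⟩
      · rintro ⟨h1, h2⟩
        exact ⟨h2, fun _ h3 => absurd (Nat.le_of_dvd (Nat.pos_of_ne_zero h1) h3) (by omega)⟩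
    rw [e, card_erase_of_mem (mem_range.2 hp.pos), card_range]
  · rw [if_neg h]
    have e : (range p).filter (fun a => pr = true → ¬ p ∣ a) = range p := by
      rw [filter_eq_self]
      exact fun a _ h' => absurd h' h
    rw [e, card_range]

open Classical in
lemma sum_nuq (pr : Bool) (g : ℤ[X]) {p : ℕ} (hp : p.Prime) :
    ∑ t ∈ range p, nuq pr g p t = Aq pr p := by
  rw [← card_args pr hp]
  have hpz : (0 : ℤ) < p := by exact_mod_cast hp.pos
  rw [card_eq_sum_card_fiberwise (f := fun a : ℕ => (g.eval (a : ℤ) % p).toNat) (t := range p)]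
  · refine sum_congr rfl fun t ht => ?_
    unfold nuq
    rw [filter_filter]
    congr 1
    refine filter_congr fun a _ => and_congr_right fun _ => ?_
    rw [mem_range] at ht
    have h0 := Int.emod_nonneg (g.eval (a : ℤ)) hpz.ne'
    have h1 := Int.emod_lt_of_pos (g.eval (a : ℤ)) hpz
    have h2 : (t : ℤ) % p = t := Int.emod_eq_of_lt (by omega) (by omega)
    constructor
    · intro h
      have h4 : g.eval (a : ℤ) % p = (t : ℤ) % p :=
        Int.emod_eq_emod_iff_emod_sub_eq_zero.2 (Int.emod_eq_zero_of_dvd h)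
      rw [h4, h2, Int.toNat_natCast]
    · intro h
      have h4 : g.eval (a : ℤ) % p = t := by
        rw [← h, Int.toNat_of_nonneg h0]
      have h5 : g.eval (a : ℤ) % p = (t : ℤ) % p := by rw [h4, h2]
      exact Int.dvd_of_emod_eq_zero (Int.emod_eq_emod_iff_emod_sub_eq_zero.1 h5)
  · intro a _
    have h0 := Int.emod_nonneg (g.eval (a : ℤ)) hpz.ne'
    have h1 := Int.emod_lt_of_pos (g.eval (a : ℤ)) hpz
    rw [mem_coe, mem_range]
    show (g.eval (a : ℤ) % p).toNat < p
    omega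

lemma exists_max (pr : Bool) (g : ℤ[X]) {p : ℕ} (hp : p.Prime) :
    ∃ t ∈ range p, nuq pr g p t = mq pr g p ∧ mq pr g p < Aq pr p := by
  classical
  have hne : ((range p).filter (fun t => nuq pr g p t < Aq pr p)).Nonempty := by
    by_contra hcon
    rw [not_nonempty_iff_eq_empty, filter_eq_empty_iff] at hcon
    have h1 : ∑ t ∈ range p, Aq pr p ≤ ∑ t ∈ range p, nuq pr g p t :=
      sum_le_sum fun t ht => not_lt.1 (hcon ht)
    rw [sum_nuq pr g hp, sum_const, card_range, smul_eq_mul] at h1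
    have h2 := Aq_pos pr hp
    have h3 := hp.two_le
    nlinarith
  obtain ⟨t, ht, h⟩ := exists_mem_eq_sup _ hne (nuq pr g p)
  rw [mem_filter] at ht
  have h' : mq pr g p = nuq pr g p t := h
  exact ⟨t, ht.1, h'.symm, h' ▸ ht.2⟩

open Classical in
/-- number of the good arguments modulo `p` -/
lemma card_good (pr : Bool) (g : ℤ[X]) {σ : ℤ} (hσ : σ = 1 ∨ σ = -1) {p : ℕ} (hp : p.Prime)
    [NeZero p] (t : ℕ) :
    ((univ : Finset (ZMod p)).filter (fun x => (pr = true → x ≠ 0) ∧
      -(σ : ZMod p) * (t : ZMod p) + (σ : ZMod p) *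
        (g.map (Int.castRingHom (ZMod p))).eval x ≠ 0)).card + nuq pr g p t = Aq pr p := by
  have h1 : ((univ : Finset (ZMod p)).filter (fun x => (pr = true → x ≠ 0) ∧
      -(σ : ZMod p) * (t : ZMod p) + (σ : ZMod p) *
        (g.map (Int.castRingHom (ZMod p))).eval x ≠ 0)).card =
      ((range p).filter (fun a => (pr = true → ¬ p ∣ a) ∧
        ¬ (p : ℤ) ∣ g.eval (a : ℤ) - t)).card := by
    symm
    refine card_bij (fun a _ => (a : ZMod p)) ?_ ?_ ?_
    · intro a ha
      rw [mem_filter] at ha ⊢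
      refine ⟨mem_univ _, fun h h0 => ha.2.1 h ((ZMod.natCast_eq_zero_iff _ _).1 h0), ?_⟩
      intro h0
      apply ha.2.2
      rw [Polynomial.eval_natCast_map, eq_intCast] at h0
      rw [← ZMod.intCast_zmod_eq_zero_iff_dvd]
      push_cast
      rcases hσ with rfl | rfl
      · push_cast at h0
        linear_combination h0
      · push_cast at h0
        linear_combination -h0
    · intro a ha b hb hab
      rw [mem_filter, mem_range] at ha hb
      have h2 := (ZMod.natCast_eq_natCast_iff' a b p).1 hab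
      rwa [Nat.mod_eq_of_lt ha.1, Nat.mod_eq_of_lt hb.1] at h2
    · intro x hx
      rw [mem_filter] at hx
      refine ⟨x.val, ?_, ZMod.natCast_zmod_val x⟩
      rw [mem_filter, mem_range]
      refine ⟨ZMod.val_lt x, fun h h0 => hx.2.1 h ?_, fun h0 => hx.2.2 ?_⟩
      · rw [← ZMod.natCast_zmod_val x]
        exact (ZMod.natCast_eq_zero_iff _ _).2 h0
      · rw [← ZMod.intCast_zmod_eq_zero_iff_dvd] at h0
        have h3 : (g.map (Int.castRingHom (ZMod p))).eval x =
            ((g.eval (x.val : ℤ) : ℤ) : ZMod p) := by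
          conv_lhs => rw [← ZMod.natCast_zmod_val x]
          rw [Polynomial.eval_natCast_map, eq_intCast]
        rw [h3]
        push_cast at h0
        linear_combination (σ : ZMod p) * h0
  rw [h1, ← card_args pr hp]
  unfold nuq
  have h2 := card_filter_add_card_filter_not
    (s := (range p).filter (fun a => pr = true → ¬ p ∣ a)) (fun a : ℕ => (p : ℤ) ∣ g.eval (a : ℤ) - t)
  rw [filter_filter, filter_filter] at h2
  omega

/-! ### the Chinese remainder theorem -/

section crt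
variable (w : ℕ)

lemma Wp_eq : Wp w = ∏ i : {p // p ∈ pz w}, (i : ℕ) := by
  unfold Wp
  exact (Finset.prod_coe_sort (pz w) (fun p => p)).symm

lemma cop : Pairwise (Function.onFun Nat.Coprime fun i : {p // p ∈ pz w} => (i : ℕ)) := by
  intro i j hij
  exact (Nat.coprime_primes (mem_pz.1 i.2).2 (mem_pz.1 j.2).2).2 fun h => hij (Subtype.ext h)

/-- the Chinese remainder theorem -/
noncomputable def Eq : ZMod (Wp w) ≃+* ((i : {p // p ∈ pz w}) → ZMod (i : ℕ)) :=
  (ZMod.ringEquivCongr (Wp_eq w)).trans (ZMod.prodEquivPi _ (cop w))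

/-- reduction modulo a prime -/
noncomputable def ph (i : {p // p ∈ pz w}) : ZMod (Wp w) →+* ZMod (i : ℕ) :=
  (Pi.evalRingHom (fun i : {p // p ∈ pz w} => ZMod (i : ℕ)) i).comp (Eq w).toRingHom

lemma ph_apply (i : {p // p ∈ pz w}) (x : ZMod (Wp w)) : ph w i x = Eq w x i := rfl

lemma ph_gv (g : ℤ[X]) (i : {p // p ∈ pz w}) (a : ZMod (Wp w)) :
    ph w i (gv g w a) = (g.map (Int.castRingHom (ZMod (i : ℕ)))).eval (ph w i a) := by
  unfold gv
  rw [Polynomial.eval_map, Polynomial.eval_map, Polynomial.hom_eval₂]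
  congr 1
  exact RingHom.ext_int _ _

lemma unit_iff (x : ZMod (Wp w)) : IsUnit x ↔ ∀ i, ph w i x ≠ 0 := by
  rw [← isUnit_map_iff (Eq w) x, Pi.isUnit_iff]
  refine forall_congr' fun i => ?_
  have : Fact (Nat.Prime (i : ℕ)) := ⟨(mem_pz.1 i.2).2⟩
  rw [isUnit_iff_ne_zero, ph_apply]

open Classical in
/-- the existence of the extremal class -/
theorem exists_class (pr : Bool) (g : ℤ[X]) (σ : ℤ) (hσ : σ = 1 ∨ σ = -1) :
    ∃ t : ZMod (Wp w), wtq pr g σ w t = Phq (uq pr g) w ∧ 0 < Phq (uq pr g) w := by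
  have hNe : ∀ i : {p // p ∈ pz w}, NeZero (i : ℕ) := fun i => ⟨(mem_pz.1 i.2).2.ne_zero⟩
  choose t' _ ht2 ht3 using fun i : {p // p ∈ pz w} => exists_max pr g (mem_pz.1 i.2).2
  set t : ZMod (Wp w) := (Eq w).symm (fun i => -(σ : ZMod (i : ℕ)) * (t' i : ZMod (i : ℕ))) with ht
  have hti : ∀ i, ph w i t = -(σ : ZMod (i : ℕ)) * (t' i : ZMod (i : ℕ)) := by
    intro i
    rw [ph_apply, ht, RingEquiv.apply_symm_apply]
  -- the numbers of classes
  have hgood : ((AA pr w).filter (fun a => gd g σ w t a)).card =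
      ∏ i : {p // p ∈ pz w}, (Aq pr i - mq pr g i) := by
    have e1 : ((AA pr w).filter (fun a => gd g σ w t a)).card =
        (Fintype.piFinset fun i : {p // p ∈ pz w} =>
          (univ : Finset (ZMod (i : ℕ))).filter (fun x => (pr = true → x ≠ 0) ∧
            -(σ : ZMod (i : ℕ)) * (t' i : ZMod (i : ℕ)) + (σ : ZMod (i : ℕ)) *
              (g.map (Int.castRingHom (ZMod (i : ℕ)))).eval x ≠ 0)).card := by
      refine card_equiv (Eq w).toEquiv fun a => ?_
      rw [Fintype.mem_piFinset, mem_filter]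
      unfold AA gd
      rw [mem_filter, unit_iff, unit_iff]
      constructor
      · rintro ⟨⟨_, h1⟩, h2⟩ i
        rw [mem_filter]
        refine ⟨mem_univ _, fun h => h1 h i, ?_⟩
        have h3 := h2 i
        rw [map_add, map_mul, map_intCast, ph_gv, hti] at h3
        exact h3
      · intro h
        refine ⟨⟨mem_univ _, fun hpr i => ((mem_filter.1 (h i)).2.1 hpr)⟩, fun i => ?_⟩
        rw [map_add, map_mul, map_intCast, ph_gv, hti]
        exact (mem_filter.1 (h i)).2.2
    rw [e1, Fintype.card_piFinset]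
    refine prod_congr rfl fun i _ => ?_
    have h1 := card_good pr g hσ (mem_pz.1 i.2).2 (t' i)
    rw [ht2 i] at h1
    omega
  have hall : (AA pr w).card = ∏ i : {p // p ∈ pz w}, Aq pr i := by
    have e1 : (AA pr w).card = (Fintype.piFinset fun i : {p // p ∈ pz w} =>
          (univ : Finset (ZMod (i : ℕ))).filter (fun x => (pr = true → x ≠ 0))).card := by
      refine card_equiv (Eq w).toEquiv fun a => ?_
      rw [Fintype.mem_piFinset]
      unfold AA
      rw [mem_filter, unit_iff]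
      constructor
      · rintro ⟨_, h1⟩ i
        rw [mem_filter]
        exact ⟨mem_univ _, fun h => h1 h i⟩
      · intro h
        exact ⟨mem_univ _, fun hpr i => (mem_filter.1 (h i)).2 hpr⟩
    rw [e1, Fintype.card_piFinset]
    refine prod_congr rfl fun i _ => ?_
    have hp := (mem_pz.1 i.2).2
    rw [← card_args pr hp]
    symm
    refine card_bij (fun a _ => (a : ZMod (i : ℕ))) ?_ ?_ ?_
    · intro a ha
      rw [mem_filter] at ha ⊢
      exact ⟨mem_univ _, fun h h0 => ha.2 h ((ZMod.natCast_eq_zero_iff _ _).1 h0)⟩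
    · intro a ha b hb hab
      rw [mem_filter, mem_range] at ha hb
      have h2 := (ZMod.natCast_eq_natCast_iff' a b _).1 hab
      rwa [Nat.mod_eq_of_lt ha.1, Nat.mod_eq_of_lt hb.1] at h2
    · intro x hx
      rw [mem_filter] at hx
      refine ⟨x.val, ?_, ZMod.natCast_zmod_val x⟩
      rw [mem_filter, mem_range]
      refine ⟨ZMod.val_lt x, fun h h0 => hx.2 h ?_⟩
      rw [← ZMod.natCast_zmod_val x]
      exact (ZMod.natCast_eq_zero_iff _ _).2 h0
  have hP : Phq (uq pr g) w = ∏ i : {p // p ∈ pz w}, (1 - uq pr g i) := by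
    unfold Phq
    exact (Finset.prod_coe_sort (pz w) (fun p => 1 - uq pr g p)).symm
  have hone : ∀ i : {p // p ∈ pz w}, 1 - uq pr g i = ((Aq pr i - mq pr g i : ℕ) : ℝ) / Aq pr i := by
    intro i
    unfold uq
    have h1 := Aq_pos pr (mem_pz.1 i.2).2
    have h2 : (0 : ℝ) < Aq pr i := by exact_mod_cast h1
    rw [Nat.cast_sub (ht3 i).le]
    field_simp
  refine ⟨t, ?_, ?_⟩
  · unfold wtq
    rw [hgood, hall, hP]
    push_cast
    rw [← prod_div_distrib]
    refine prod_congr rfl fun i _ => ?_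
    rw [hone i]
  · rw [hP]
    refine prod_pos fun i _ => ?_
    rw [hone i]
    have h1 := Aq_pos pr (mem_pz.1 i.2).2
    have h2 := ht3 i
    have h3 : 0 < Aq pr i - mq pr g i := by omega
    have h4 : (0 : ℝ) < ((Aq pr i - mq pr g i : ℕ) : ℝ) := by exact_mod_cast h3
    have h5 : (0 : ℝ) < Aq pr i := by exact_mod_cast h1
    positivity

end crt

/-! ### the size of the parameter -/

lemma Phq_one (u : ℕ → ℝ) {w : ℕ} (hw : w ≤ 1) : Phq u w = 1 := by
  unfold Phq
  have : pz w = ∅ := by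
    rw [eq_empty_iff_forall_notMem]
    intro p hp
    have h := mem_pz.1 hp
    have := h.2.two_le
    omega
  rw [this, prod_empty]

lemma lim_aux {φ : ℕ → ℝ} {c : ℝ} {τ : ℕ} (h : Tendsto (fun w : ℕ => φ w * Real.log w ^ τ) atTop (𝓝 c)) :
    Tendsto (fun v : ℕ => φ v * (Real.log (v + 1 : ℕ) + 1) ^ τ) atTop (𝓝 c) := by
  have hlog : Tendsto (fun v : ℕ => Real.log v) atTop atTop :=
    Real.tendsto_log_atTop.comp tendsto_natCast_atTop_atTop
  have h1 : Tendsto (fun v : ℕ => (Real.log (v + 1 : ℕ) + 1) / Real.log v) atTop (𝓝 1) := by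
    have h2 : Tendsto (fun v : ℕ => 1 + 2 / Real.log v) atTop (𝓝 (1 + 0)) :=
      (hlog.const_div_atTop 2).const_add 1
    rw [add_zero] at h2
    refine tendsto_of_tendsto_of_tendsto_of_le_of_le' tendsto_const_nhds h2 ?_ ?_
    · filter_upwards [hlog.eventually_gt_atTop 0, eventually_ge_atTop 1] with v hv hv1
      rw [le_div_iff₀ hv, one_mul]
      have hv1' : (1 : ℝ) ≤ v := by exact_mod_cast hv1
      have : Real.log v ≤ Real.log (v + 1 : ℕ) := Real.log_le_log (by linarith) (by push_cast; linarith)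
      linarith
    · filter_upwards [hlog.eventually_gt_atTop 0, eventually_ge_atTop 1] with v hv hv1
      have hv1' : (1 : ℝ) ≤ v := by exact_mod_cast hv1
      have e : 1 + 2 / Real.log v = (Real.log v + 2) / Real.log v := by field_simp
      rw [e]
      apply div_le_div_of_nonneg_right _ hv.le
      have h3 : Real.log (v + 1 : ℕ) ≤ Real.log (v * 2 : ℝ) :=
        Real.log_le_log (by positivity) (by push_cast; linarith)
      rw [Real.log_mul (by linarith) (by norm_num)] at h3
      have := Real.log_two_lt_d9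
      linarith
  have h2 := h.mul (h1.pow τ)
  rw [one_pow, mul_one] at h2
  refine h2.congr' ?_
  filter_upwards [hlog.eventually_gt_atTop 0] with v hv
  rw [div_pow]
  field_simp

lemma lim_zero {φ : ℕ → ℝ} {c : ℝ} {τ : ℕ} (hτ : 1 ≤ τ)
    (h : Tendsto (fun w : ℕ => φ w * Real.log w ^ τ) atTop (𝓝 c)) : Tendsto φ atTop (𝓝 0) := by
  have hlog : Tendsto (fun v : ℕ => Real.log v) atTop atTop :=
    Real.tendsto_log_atTop.comp tendsto_natCast_atTop_atTop
  have h1 : Tendsto (fun v : ℕ => (Real.log v ^ τ)⁻¹) atTop (𝓝 0) :=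
    ((tendsto_pow_atTop (by omega)).comp hlog).inv_tendsto_atTop
  have h2 := h.mul h1
  rw [mul_zero] at h2
  refine h2.congr' ?_
  filter_upwards [hlog.eventually_gt_atTop 0] with v hv
  field_simp

/-- the choice of the parameter -/
lemma choice {φ : ℕ → ℝ} (h0 : ∀ w, 0 < φ w) (hanti : Antitone φ) (h1 : φ 1 = 1) {c : ℝ} {τ : ℕ}
    (hτ : 1 ≤ τ) (h : Tendsto (fun w : ℕ => φ w * Real.log w ^ τ) atTop (𝓝 c)) {δ : ℝ}
    (hδ : 0 < δ) : ∃ η0 : ℝ, 0 < η0 ∧ ∀ η : ℝ, 0 < η → η ≤ η0 → ∃ w : ℕ, 2 ≤ w ∧ φ w ≤ η ∧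
      Real.log w + 1 ≤ ((c + δ) / η) ^ (1 / (τ : ℝ)) := by
  have h2 := (lim_aux h).eventually (gt_mem_nhds (show c < c + δ by linarith))
  obtain ⟨N, hN⟩ := eventually_atTop.1 h2
  refine ⟨min (φ N / 2) (1 / 2), lt_min (by have := h0 N; positivity) (by norm_num), ?_⟩
  intro η hη hηle
  have hη1 : η < 1 := lt_of_le_of_lt (hηle.trans (min_le_right _ _)) (by norm_num)
  have hηN : η < φ N := by
    have h3 := hηle.trans (min_le_left _ _)
    have := h0 N
    linarith
  have hex : ∃ w, φ w ≤ η := by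
    obtain ⟨w, hw⟩ := ((lim_zero hτ h).eventually (gt_mem_nhds hη)).exists
    exact ⟨w, hw.le⟩
  obtain ⟨w, hw1, hw2⟩ : ∃ w, φ w ≤ η ∧ ∀ v < w, η < φ v := by
    classical
    exact ⟨Nat.find hex, Nat.find_spec hex, fun v hv => not_le.1 (Nat.find_min hex hv)⟩
  have hwN : N < w := by
    by_contra hcon
    have := hanti (not_lt.1 hcon)
    linarith
  have hw0 : 1 < w := by
    by_contra hcon
    have := hanti (not_lt.1 hcon)
    linarith
  obtain ⟨v, rfl⟩ : ∃ v, w = v + 1 := ⟨w - 1, by omega⟩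
  refine ⟨v + 1, hw0, hw1, ?_⟩
  have hl0 : 0 ≤ Real.log (v + 1 : ℕ) := Real.log_natCast_nonneg _
  have h3 : (Real.log (v + 1 : ℕ) + 1) ^ τ ≤ (c + δ) / η := by
    rw [le_div_iff₀ hη]
    calc (Real.log (v + 1 : ℕ) + 1) ^ τ * η ≤ (Real.log (v + 1 : ℕ) + 1) ^ τ * φ v :=
          mul_le_mul_of_nonneg_left (hw2 v (by omega)).le (by positivity)
      _ = φ v * (Real.log (v + 1 : ℕ) + 1) ^ τ := mul_comm _ _
      _ ≤ c + δ := (hN v (by omega)).le
  calc Real.log (v + 1 : ℕ) + 1 = ((Real.log (v + 1 : ℕ) + 1) ^ τ) ^ (1 / (τ : ℝ)) := by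
        rw [one_div, Real.pow_rpow_inv_natCast (by positivity) (by omega)]
    _ ≤ ((c + δ) / η) ^ (1 / (τ : ℝ)) :=
        Real.rpow_le_rpow (by positivity) h3 (by positivity)

lemma Phq_anti (pr : Bool) (g : ℤ[X]) : Antitone (Phq (uq pr g)) := by
  intro w w' hww
  unfold Phq
  have hsub : pz w ⊆ pz w' := by
    intro p hp
    have h := mem_pz.1 hp
    exact mem_pz.2 ⟨h.1.trans hww, h.2⟩
  have h01 : ∀ p ∈ pz w', 0 ≤ 1 - uq pr g p ∧ 1 - uq pr g p ≤ 1 := by
    intro p hp
    have hpp := (mem_pz.1 hp).2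
    obtain ⟨t, _, _, h3⟩ := exists_max pr g hpp
    have h1 := Aq_pos pr hpp
    have h2 : (0 : ℝ) < Aq pr p := by exact_mod_cast h1
    have h4 : (mq pr g p : ℝ) ≤ Aq pr p := by exact_mod_cast h3.le
    unfold uq
    constructor
    · rw [sub_nonneg, div_le_one h2]
      exact h4
    · have : 0 ≤ (mq pr g p : ℝ) / Aq pr p := by positivity
      linarith
  rw [← prod_sdiff hsub]
  have h5 : ∏ p ∈ pz w' \ pz w, (1 - uq pr g p) ≤ 1 :=
    prod_le_one (fun p hp => (h01 p (mem_sdiff.1 hp).1).1) fun p hp => (h01 p (mem_sdiff.1 hp).1).2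
  have h6 : 0 ≤ ∏ p ∈ pz w, (1 - uq pr g p) := prod_nonneg fun p hp => (h01 p (hsub hp)).1
  nlinarith

open Classical in
theorem local_example (pr : Bool) (g : ℤ[X]) (σ : ℤ) (hσ : σ = 1 ∨ σ = -1) (c : ℝ) (τ : ℕ) (hc : 0 < c)
    (hτ : 1 ≤ τ) (hΦ : Tendsto (fun w : ℕ => Phq (uq pr g) w * Real.log w ^ τ) atTop (𝓝 c))
    (δ : ℝ) (hδ : 0 < δ) :
    ∃ η0 : ℝ, 0 < η0 ∧ ∀ η : ℝ, 0 < η → η ≤ η0 → ∃ w : ℕ, 2 ≤ w ∧ ∃ B ⊆ AA pr w,
    (1 - η) * (AA pr w).card ≤ B.card ∧
    Real.exp (-Real.exp (((c + δ) / η) ^ (1 / (τ : ℝ)))) ≤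
      ((univ.filter (fun t => wtq pr g σ w t ≠ 0 ∧ t ∉ sumq g σ w B)).card : ℝ) / Wp w := by
  have hpos : ∀ w, 0 < Phq (uq pr g) w := fun w => (exists_class w pr g σ hσ).choose_spec.2
  obtain ⟨η0, hη0, h⟩ := choice hpos (Phq_anti pr g) (Phq_one _ le_rfl) hτ hΦ hδ
  refine ⟨η0, hη0, fun η hη hle => ?_⟩
  obtain ⟨w, hw2, hw1, hlog⟩ := h η hη hle
  obtain ⟨t0, ht0, hP⟩ := exists_class w pr g σ hσ
  refine ⟨w, hw2, (AA pr w).filter (fun a => ¬ gd g σ w t0 a), filter_subset _ _, ?_, ?_⟩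
  · have h1 := card_filter_add_card_filter_not (s := AA pr w) (fun a => gd g σ w t0 a)
    have h2 : (((AA pr w).filter (fun a => gd g σ w t0 a)).card : ℝ) +
        ((AA pr w).filter (fun a => ¬ gd g σ w t0 a)).card = (AA pr w).card := by
      exact_mod_cast h1
    have hA : (0 : ℝ) < (AA pr w).card := by
      rcases (Nat.cast_nonneg (AA pr w).card : (0 : ℝ) ≤ (AA pr w).card).eq_or_lt with h3 | h3
      · exfalso
        unfold wtq at ht0
        rw [← h3, div_zero] at ht0
        linarith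
      · exact h3
    have h3 : (((AA pr w).filter (fun a => gd g σ w t0 a)).card : ℝ) =
        Phq (uq pr g) w * (AA pr w).card := by
      rw [← ht0]
      unfold wtq
      rw [div_mul_cancel₀ _ hA.ne']
    have h4 : Phq (uq pr g) w * (AA pr w).card ≤ η * (AA pr w).card :=
      mul_le_mul_of_nonneg_right hw1 hA.le
    linarith
  · have hW : (0 : ℝ) < Wp w := by exact_mod_cast Wp_pos w
    have hcard : (1 : ℝ) ≤ ((univ.filter (fun t => wtq pr g σ w t ≠ 0 ∧ t ∉ sumq g σ w
        ((AA pr w).filter (fun a => ¬ gd g σ w t0 a)))).card : ℝ) := by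
      have h1 : 0 < (univ.filter (fun t => wtq pr g σ w t ≠ 0 ∧ t ∉ sumq g σ w
        ((AA pr w).filter (fun a => ¬ gd g σ w t0 a)))).card := by
        rw [card_pos]
        refine ⟨t0, ?_⟩
        rw [mem_filter]
        refine ⟨mem_univ _, ?_, ?_⟩
        · rw [ht0]
          exact hP.ne'
        · intro h2
          unfold sumq at h2
          rw [mem_filter] at h2
          obtain ⟨_, a, ha, hg⟩ := h2
          exact (mem_filter.1 ha).2 hg
      exact_mod_cast h1
    refine le_trans ?_ ((div_le_div_iff_of_pos_right hW).2 hcard)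
    rw [Real.exp_neg, one_div (Wp w : ℝ)]
    apply inv_anti₀ hW
    have hw0 : (0 : ℝ) < w := by
      have : 0 < w := by omega
      exact_mod_cast this
    calc (Wp w : ℝ) ≤ (4 : ℝ) ^ w := by exact_mod_cast Wp_le w
      _ = Real.exp (w * Real.log 4) := by
          rw [mul_comm, Real.exp_mul, Real.exp_log (by norm_num), Real.rpow_natCast]
      _ ≤ Real.exp (Real.exp (Real.log w + 1)) := by
          apply Real.exp_le_exp.2
          rw [Real.exp_add, Real.exp_log hw0]
          have h4 : Real.log 4 ≤ Real.exp 1 := by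
            rw [show (4 : ℝ) = 2 ^ 2 by norm_num, Real.log_pow]
            have h5 := Real.log_two_lt_d9
            have h6 := Real.exp_one_gt_d9
            push_cast
            linarith
          exact mul_le_mul_of_nonneg_left h4 hw0.le
      _ ≤ _ := Real.exp_le_exp.2 (Real.exp_le_exp.2 hlog)

end Pool.Agent.TH81.RQJ
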