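import Mathlib
import Pool.Agent.TH796.AL.Stms
import Pool.Agent.TH461.SST.Stms
import Pool.Agent.TH932.S2.Mov
import Pool.Agent.TH932.S2.Fix

set_option autoImplicit false

/-!
# Project AL: the subspace theorem for germs, rational forms (helper81)
-/

namespace Pool.Agent.TH81.AL

open Filter Topology Pool.Agent.TH932.Abs Pool.Agent.TH932.Germs Pool.Agent.TH932.Chi Pool.Agent.TH796.AL
open Pool.Agent.TH932.S2.Fix (UN ee UN_ge UN_le ee_le ee_ge zpow_split dvd_place prod_le gm_sum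
  gm_intCast gm_lin)

variable {m : ℕ}

/-! ## filtrations -/

lemma P0 (B : Base m) (i : Fin m) : (B.P i : ℚ) ≠ 0 := by
  have := B.two i
  have h : B.P i ≠ 0 := by omega
  exact_mod_cast h

lemma logP (B : Base m) (i : Fin m) : 0 < Real.log (B.P i) :=
  Real.log_pos (by exact_mod_cast B.two i)

lemma pre_v (B : Base m) (v : Option (Fin m)) : Pre (Rv B v) := by
  cases v with
  | none => exact pre_inf
  | some i => exact pre_b (B.two i) _

lemma filt_v (B : Base m) {L : ℕ → ℝ} (hL : Tendsto L atTop atTop) (v : Option (Fin m)) :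
    Filt (KK L hL) (Sv B L v) := (pre_v B v).filt hL

lemma pre_S (B : Base m) : Pre (RS B) where
  zero := by
    intro ε hε t
    refine ⟨0, fun L hL => ?_⟩
    have h : ∀ i, ∃ k : ℕ, (t - ε) * L / Real.log (B.P i) ≤ k := fun i => exists_nat_ge _
    choose k hk using h
    refine ⟨1, 0, fun i => (k i : ℤ), one_ne_zero, ?_, by simp, fun i => ?_⟩
    · simp only [Int.cast_one, abs_one]
      exact Real.one_le_exp (by positivity)
    · have h1 := hk i
      rw [div_le_iff₀ (logP B i)] at h1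
      exact_mod_cast h1
  add := by
    intro ε hε
    refine ⟨0, fun L hL t a b ha hb => ?_⟩
    obtain ⟨d, c, k, hd, hd1, h, h1⟩ := ha
    obtain ⟨d', c', k', hd', hd1', h', h1'⟩ := hb
    have key : ∀ (i : Fin m) (u v : ℤ), u ≤ v →
        (B.P i : ℚ) ^ u * (B.P i : ℚ) ^ (v - u).toNat = (B.P i : ℚ) ^ v := by
      intro i u v huv
      rw [← zpow_natCast, ← zpow_add₀ (P0 B i)]
      congr 1
      omega
    refine ⟨d * d', d' * (∏ i, (B.P i : ℤ) ^ (k i - min (k i) (k' i)).toNat) * c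
      + d * (∏ i, (B.P i : ℤ) ^ (k' i - min (k i) (k' i)).toNat) * c',
      fun i => min (k i) (k' i), mul_ne_zero hd hd', ?_, ?_, fun i => ?_⟩
    · push_cast
      rw [abs_mul]
      calc |(d : ℝ)| * |(d' : ℝ)| ≤ Real.exp (ε / 2 * L) * Real.exp (ε / 2 * L) := by gcongr
        _ = Real.exp (ε * L) := by rw [← Real.exp_add]; ring_nf
    · have e1 : (∏ i, (B.P i : ℚ) ^ (min (k i) (k' i))) *
          (∏ i, (B.P i : ℚ) ^ (k i - min (k i) (k' i)).toNat) = ∏ i, (B.P i : ℚ) ^ (k i) := by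
        rw [← Finset.prod_mul_distrib]
        exact Finset.prod_congr rfl fun i _ => key i _ _ (min_le_left _ _)
      have e2 : (∏ i, (B.P i : ℚ) ^ (min (k i) (k' i))) *
          (∏ i, (B.P i : ℚ) ^ (k' i - min (k i) (k' i)).toNat) = ∏ i, (B.P i : ℚ) ^ (k' i) := by
        rw [← Finset.prod_mul_distrib]
        exact Finset.prod_congr rfl fun i _ => key i _ _ (min_le_right _ _)
      push_cast
      calc (d : ℚ) * d' * (a + b) = d' * (d * a) + d * (d' * b) := by ring
        _ = d' * ((∏ i, (B.P i : ℚ) ^ (k i)) * c) + d * ((∏ i, (B.P i : ℚ) ^ (k' i)) * c') := by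
            rw [h, h']
        _ = _ := by
            rw [← e1, ← e2]; ring
    · have h3 : (t - ε) * L ≤ (t - ε / 2) * L := by nlinarith
      show (t - ε) * L ≤ ((min (k i) (k' i) : ℤ) : ℝ) * Real.log (B.P i)
      rcases min_choice (k i) (k' i) with h4 | h4
      · rw [h4]; linarith [h1 i]
      · rw [h4]; linarith [h1' i]
  mul := by
    intro ε hε
    refine ⟨0, fun L hL s t a b ha hb => ?_⟩
    obtain ⟨d, c, k, hd, hd1, h, h1⟩ := ha
    obtain ⟨d', c', k', hd', hd1', h', h1'⟩ := hb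
    refine ⟨d * d', c * c', fun i => k i + k' i, mul_ne_zero hd hd', ?_, ?_, fun i => ?_⟩
    · push_cast
      rw [abs_mul]
      calc |(d : ℝ)| * |(d' : ℝ)| ≤ Real.exp (ε / 2 * L) * Real.exp (ε / 2 * L) := by gcongr
        _ = Real.exp (ε * L) := by rw [← Real.exp_add]; ring_nf
    · have e1 : ∏ i, (B.P i : ℚ) ^ (k i + k' i) =
          (∏ i, (B.P i : ℚ) ^ (k i)) * ∏ i, (B.P i : ℚ) ^ (k' i) := by
        rw [← Finset.prod_mul_distrib]
        exact Finset.prod_congr rfl fun i _ => zpow_add₀ (P0 B i) _ _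
      push_cast
      rw [e1]
      calc (d : ℚ) * d' * (a * b) = (d * a) * (d' * b) := by ring
        _ = _ := by rw [h, h']; ring
    · push_cast
      nlinarith [h1 i, h1' i]
  anti := by
    intro ε hε
    refine ⟨0, fun L hL s t a hst ha => ?_⟩
    obtain ⟨d, c, k, hd, hd1, h, h1⟩ := ha
    refine ⟨d, c, k, hd, hd1, h, fun i => ?_⟩
    have := h1 i
    nlinarith
  alg := by
    intro ε hε
    refine ⟨0, fun L hL c d hd hc hd1 => ?_⟩
    refine ⟨d, c, fun _ => 0, hd, hd1, ?_, fun i => ?_⟩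
    · have : (d : ℚ) ≠ 0 := by exact_mod_cast hd
      simp only [zpow_zero, Finset.prod_const_one, one_mul]
      field_simp
    · simp only [Int.cast_zero, zero_mul]
      nlinarith

lemma filt_S (B : Base m) {L : ℕ → ℝ} (hL : Tendsto L atTop atTop) :
    Filt (KK L hL) (SS L (RS B)) := (pre_S B).filt hL

lemma sint_mul (B : Base m) {L : ℕ → ℝ} (hL : Tendsto L atTop atTop) {a b : GG}
    (ha : Sint B L a) (hb : Sint B L b) : Sint B L (a * b) := by
  obtain ⟨s, hs⟩ := ha
  obtain ⟨t, ht⟩ := hb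
  exact ⟨s + t, (filt_S B hL).mul_mem hs ht⟩

lemma sint_alg (B : Base m) {L : ℕ → ℝ} (hL : Tendsto L atTop atTop) (c : KK L hL) :
    Sint B L (c : GG) := ⟨0, (filt_S B hL).alg_mem c⟩

/-! ## one index -/

/-- the size at the real place -/
noncomputable def AA (B : Base m) (n : ℕ) (H ε Λ w : ℝ) : ℝ :=
  Real.exp (((m + 1) * n + 1) * ε * Λ + ∑ i, UN (B.P i) H Λ * Real.log (B.P i) - w * Λ)

/-- the factor clearing the denominators -/
noncomputable def PU (B : Base m) (H Λ : ℝ) : ℤ := ∏ i, (B.P i : ℤ) ^ UN (B.P i) H Λ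

lemma PU_ne (B : Base m) (H Λ : ℝ) : (PU B H Λ : ℚ) ≠ 0 := by
  unfold PU
  push_cast
  exact Finset.prod_ne_zero_iff.2 fun i _ => pow_ne_zero _ (P0 B i)

lemma PU_exp (B : Base m) (H Λ : ℝ) : (PU B H Λ : ℝ) =
    Real.exp (∑ i, UN (B.P i) H Λ * Real.log (B.P i)) := by
  unfold PU
  push_cast
  rw [Real.exp_sum]
  refine Finset.prod_congr rfl fun i _ => ?_
  have hp : (0 : ℝ) < B.P i := by
    have := B.two i
    have : 0 < B.P i := by omega
    exact_mod_cast this
  rw [← Real.rpow_natCast, Real.rpow_def_of_pos hp, mul_comm]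

lemma int_place (B : Base m) {H ε Λ t : ℝ} (h : 0 ≤ (H + t - ε) * Λ)
    {d c : ℤ} {k : Fin m → ℤ} {a : ℚ} (h1 : (d : ℚ) * a = (∏ i, (B.P i : ℚ) ^ k i) * c)
    (h2 : ∀ i, (t - ε) * Λ ≤ k i * Real.log (B.P i)) {D : ℤ}
    (hD : d ∣ D) :
    ∃ x : ℤ, (x : ℚ) = D * PU B H Λ * a := by
  obtain ⟨D', rfl⟩ := hD
  have aux : ∀ i, 0 ≤ (UN (B.P i) H Λ : ℤ) + k i := by
    intro i
    have hlb := logP B i
    have h4 := UN_ge (B.two i) H Λ
    have h5 : (0 : ℝ) ≤ ((UN (B.P i) H Λ : ℝ) + k i) * Real.log (B.P i) := by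
      nlinarith [h2 i]
    have h6 : (0 : ℝ) ≤ (UN (B.P i) H Λ : ℝ) + k i := nonneg_of_mul_nonneg_left h5 hlb
    exact_mod_cast h6
  have hU : (PU B H Λ : ℚ) * (∏ i, (B.P i : ℚ) ^ k i) =
      ∏ i, (B.P i : ℚ) ^ ((UN (B.P i) H Λ : ℤ) + k i).toNat := by
    unfold PU
    push_cast
    rw [← Finset.prod_mul_distrib]
    exact Finset.prod_congr rfl fun i _ => zpow_split (B.two i) _ _ (aux i)
  refine ⟨D' * (∏ i, (B.P i : ℤ) ^ ((UN (B.P i) H Λ : ℤ) + k i).toNat) * c, ?_⟩
  push_cast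
  rw [← hU]
  linear_combination (-(D' : ℚ) * (PU B H Λ : ℚ)) * h1

lemma step (B : Base m) {n : ℕ} {H ε Λ : ℝ} (hΛ : 0 ≤ Λ)
    (C : Option (Fin m) → Fin n → Fin n → ℤ) (w : Option (Fin m) → Fin n → ℝ) (t : Fin n → ℝ)
    (hH : ∀ v i, |w v i| + ε ≤ H) (hH' : ∀ i, |t i| + ε ≤ H) (a : Fin n → ℚ)
    (hS : ∀ j, RS B Λ ε (t j) (a j))
    (hv : ∀ v i, Rv B v Λ ε (w v i) (∑ j, (C v i j : ℚ) * a j)) :
    ∃ (D : ℤ) (x : Fin n → ℤ), D ≠ 0 ∧
      (∀ j, (x j : ℚ) = D * PU B H Λ * a j) ∧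
      Pool.Agent.TH461.SST.Sol (Matrix.of (C none)) (fun v => Matrix.of (C (some v))) B.P
        (fun v l => ee (B.P v) H ε Λ (w (some v) l))
        (fun l => AA B n H ε Λ (w none l)) x := by
  choose d c k hd0 hd1 hd2 hd3 using hS
  have hF : ∀ (v : Fin m) i, Rb (B.P v) (Pool.Agent.TH932.Germs.cop (B.P v)) Λ ε (w (some v) i)
      (∑ j, (C (some v) i j : ℚ) * a j) := fun v i => hv (some v) i
  have hI : ∀ i, Rinf Λ ε (w none i) (∑ j, (C none i j : ℚ) * a j) := hv none
  choose dF eF mF kF hF0 hF1 hF2 hF3 hF4 using hF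
  set D : ℤ := (∏ j, d j) * ∏ v, ∏ j, dF v j with hD
  have hD0 : D ≠ 0 := by
    rw [hD]
    refine mul_ne_zero ?_ ?_
    · exact Finset.prod_ne_zero_iff.2 fun j _ => hd0 j
    · exact Finset.prod_ne_zero_iff.2 fun v _ => Finset.prod_ne_zero_iff.2 fun j _ => hF0 v j
  have hDd : ∀ j, d j ∣ D := fun j =>
    (Finset.dvd_prod_of_mem d (Finset.mem_univ j)).mul_right _
  have hDF : ∀ v j, dF v j ∣ D := fun v j =>
    ((Finset.dvd_prod_of_mem (dF v) (Finset.mem_univ j)).trans
      (Finset.dvd_prod_of_mem (fun v => ∏ j, dF v j) (Finset.mem_univ v))).mul_left _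
  have hDle : |(D : ℝ)| ≤ Real.exp ((m + 1) * n * ε * Λ) := by
    have h1 := prod_le d hd1
    have h2 : |((∏ v, ∏ j, dF v j : ℤ) : ℝ)| ≤ Real.exp (m * n * ε * Λ) := by
      rw [Int.cast_prod, Finset.abs_prod]
      calc ∏ v : Fin m, |((∏ j, dF v j : ℤ) : ℝ)| ≤ ∏ _v : Fin m, Real.exp (n * ε * Λ) :=
            Finset.prod_le_prod (fun v _ => abs_nonneg _) (fun v _ => prod_le (dF v) (hF1 v))
        _ = Real.exp (m * n * ε * Λ) := by
            rw [Finset.prod_const, Finset.card_univ, Fintype.card_fin, ← Real.exp_nat_mul]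
            ring_nf
    rw [hD, Int.cast_mul, abs_mul]
    calc |((∏ j, d j : ℤ) : ℝ)| * |((∏ v, ∏ j, dF v j : ℤ) : ℝ)|
        ≤ Real.exp (n * ε * Λ) * Real.exp (m * n * ε * Λ) := by gcongr
      _ = Real.exp ((m + 1) * n * ε * Λ) := by
        rw [← Real.exp_add]; ring_nf
  have hnn : ∀ v i, 0 ≤ (H + w v i - ε) * Λ := by
    intro v i
    apply mul_nonneg _ hΛ
    linarith [hH v i, neg_abs_le (w v i)]
  have hnn' : ∀ i, 0 ≤ (H + t i - ε) * Λ := by
    intro i
    apply mul_nonneg _ hΛ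
    linarith [hH' i, neg_abs_le (t i)]
  have hx : ∀ j, ∃ x : ℤ, (x : ℚ) = D * PU B H Λ * a j :=
    fun j => int_place B (hnn' j) (hd2 j) (hd3 j) (hDd j)
  choose x hx using hx
  have hsum : ∀ (c : Fin n → ℤ), ((∑ j, c j * x j : ℤ) : ℚ)
      = D * PU B H Λ * ∑ j, (c j : ℚ) * a j := by
    intro c
    push_cast
    rw [Finset.mul_sum]
    apply Finset.sum_congr rfl
    intro j _
    rw [hx]; ring
  refine ⟨D, x, hD0, hx, ?_, ?_⟩
  · intro l
    have h1 := hsum (C none l)
    have h2 : ((∑ j, C none l j * x j : ℤ) : ℝ)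
      = D * (PU B H Λ : ℝ) * ((∑ j, (C none l j : ℚ) * a j : ℚ) : ℝ) := by
      have := congrArg (fun x : ℚ => (x : ℝ)) h1
      push_cast at this ⊢
      exact this
    have h3 := hI l
    unfold Rinf at h3
    simp only [Matrix.of_apply]
    rw [h2, PU_exp, abs_mul, abs_mul, abs_of_pos (Real.exp_pos _)]
    calc |(D : ℝ)| * Real.exp (∑ i, UN (B.P i) H Λ * Real.log (B.P i))
          * |((∑ j, (C none l j : ℚ) * a j : ℚ) : ℝ)|
        ≤ Real.exp ((m + 1) * n * ε * Λ) * Real.exp (∑ i, UN (B.P i) H Λ * Real.log (B.P i))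
          * Real.exp (-(w none l - ε) * Λ) := by gcongr
      _ = AA B n H ε Λ (w none l) := by
        unfold AA
        rw [← Real.exp_add, ← Real.exp_add]
        ring_nf
  · intro v l
    simp only [Matrix.of_apply]
    refine dvd_place (B.two v) (hnn (some v) l) (hF2 v l) (hF3 v l) (hF4 v l) (hDF v l)
      (R := ∏ i ∈ Finset.univ.erase v, (B.P i : ℤ) ^ UN (B.P i) H Λ) ?_
    rw [hsum]
    have e : (PU B H Λ : ℚ) = (B.P v : ℚ) ^ UN (B.P v) H Λ *
        ((∏ i ∈ Finset.univ.erase v, (B.P i : ℤ) ^ UN (B.P i) H Λ : ℤ) : ℚ) := by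
      unfold PU
      rw [← Finset.mul_prod_erase Finset.univ _ (Finset.mem_univ v)]
      push_cast
      ring
    rw [e]
    ring

/-! ## sizes -/

lemma size_ok (B : Base m) {n : ℕ} {H ε Λ σ c : ℝ} (hε : 0 < ε) (hΛ : 1 ≤ Λ)
    (w : Option (Fin m) → Fin n → ℝ) (hH : ∀ v i, |w v i| + ε ≤ H) (hH0 : 0 ≤ H)
    (hσ : σ = ∑ v, ∑ i, w v i) (hε1 : 16 * (m + 1) * (n + 1) ^ 2 * ε = σ)
    (hc : ((m + 1) * n + 1) * ε + (m + 2) * H + ∑ i, Real.log (B.P i) ≤ c)
    (hΛ1 : 2 * n * (∑ i, Real.log (B.P i)) ≤ σ * Λ) :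
    Pool.Agent.TH461.SST.Size B.P c (σ / 4) Λ
        (fun v l => ee (B.P v) H ε Λ (w (some v) l))
        (fun l => AA B n H ε Λ (w none l)) := by
  have hΛ0 : 0 ≤ Λ := by linarith
  have hHΛ : 0 ≤ H * Λ := mul_nonneg hH0 hΛ0
  have hnn : ∀ v i, 0 ≤ (H + w v i - ε) * Λ := by
    intro v i
    apply mul_nonneg _ hΛ0
    linarith [hH v i, neg_abs_le (w v i)]
  have hup : ∀ v i, (w v i - ε) * Λ ≤ H * Λ := by
    intro v i
    apply mul_le_mul_of_nonneg_right _ hΛ0
    linarith [hH v i, le_abs_self (w v i)]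
  have hn0 : (0 : ℝ) ≤ n := Nat.cast_nonneg n
  have hm0 : (0 : ℝ) ≤ m := Nat.cast_nonneg m
  have hlogs : 0 ≤ ∑ i, Real.log (B.P i) := Finset.sum_nonneg fun i _ => (logP B i).le
  have hlog1 : ∀ i, Real.log (B.P i) ≤ ∑ i, Real.log (B.P i) := fun i =>
    Finset.single_le_sum (f := fun i => Real.log (B.P i)) (fun i _ => (logP B i).le)
      (Finset.mem_univ i)
  have hUs : ∑ i, (UN (B.P i) H Λ : ℝ) * Real.log (B.P i) ≤
      m * (H * Λ) + ∑ i, Real.log (B.P i) := by
    calc ∑ i, (UN (B.P i) H Λ : ℝ) * Real.log (B.P i) ≤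
        ∑ i, (H * Λ + Real.log (B.P i)) :=
          Finset.sum_le_sum fun i _ => UN_le (B.two i) hHΛ
      _ = _ := by
        rw [Finset.sum_add_distrib, Finset.sum_const, Finset.card_univ, Fintype.card_fin,
          nsmul_eq_mul]
  have hUs0 : 0 ≤ ∑ i, (UN (B.P i) H Λ : ℝ) * Real.log (B.P i) :=
    Finset.sum_nonneg fun i _ => mul_nonneg (Nat.cast_nonneg _) (logP B i).le
  have hcΛ : ((m + 1) * n + 1) * ε * Λ + (m + 2) * (H * Λ) + ∑ i, Real.log (B.P i) ≤ c * Λ := by
    have h1 : (((m + 1) * n + 1) * ε + (m + 2) * H + ∑ i, Real.log (B.P i)) * Λ ≤ c * Λ := by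
      gcongr
    have h2 : ∑ i, Real.log (B.P i) ≤ (∑ i, Real.log (B.P i)) * Λ :=
      le_mul_of_one_le_right hlogs hΛ
    linarith
  have hε3 : 0 ≤ ((m + 1) * n + 1) * ε * Λ := by positivity
  have hmH : 0 ≤ m * (H * Λ) := by positivity
  refine ⟨?_, fun l => Real.exp_pos _, ?_, ?_⟩
  · intro v l
    have h1 := ee_le (B.two v) (hnn (some v) l)
    have h2 := hup (some v) l
    have h3 := UN_le (B.two v) hHΛ
    have h4 := hlog1 v
    linarith
  · intro l
    unfold AA
    rw [Real.log_exp, abs_le]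
    have h1 : w none l * Λ ≤ H * Λ := by
      apply mul_le_mul_of_nonneg_right _ hΛ0
      linarith [hH none l, le_abs_self (w none l)]
    have h2 : -(H * Λ) ≤ w none l * Λ := by
      rw [← neg_mul]
      apply mul_le_mul_of_nonneg_right _ hΛ0
      linarith [hH none l, neg_abs_le (w none l)]
    constructor
    · linarith
    · linarith
  · have hA : ∑ l, Real.log (AA B n H ε Λ (w none l))
        = n * (((m + 1) * n + 1) * ε * Λ + ∑ i, UN (B.P i) H Λ * Real.log (B.P i))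
          - (∑ l, w none l) * Λ := by
      unfold AA
      simp only [Real.log_exp]
      rw [Finset.sum_sub_distrib, Finset.sum_const, Finset.card_univ, Fintype.card_fin,
        nsmul_eq_mul, Finset.sum_mul]
    have hsumP : ∀ v : Fin m, n * (UN (B.P v) H Λ * Real.log (B.P v)) +
        (∑ l, w (some v) l) * Λ - n * ε * Λ - n * Real.log (B.P v)
        ≤ ∑ l, (ee (B.P v) H ε Λ (w (some v) l) : ℝ) * Real.log (B.P v) := by
      intro v
      calc n * (UN (B.P v) H Λ * Real.log (B.P v)) +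
          (∑ l, w (some v) l) * Λ - n * ε * Λ - n * Real.log (B.P v)
          = ∑ l : Fin n, (UN (B.P v) H Λ * Real.log (B.P v) + (w (some v) l - ε) * Λ
            - Real.log (B.P v)) := by
            simp only [sub_mul]
            rw [Finset.sum_sub_distrib, Finset.sum_add_distrib, Finset.sum_sub_distrib,
              Finset.sum_const, Finset.sum_const, Finset.sum_const, Finset.card_univ,
              Fintype.card_fin, Finset.sum_mul]
            simp only [nsmul_eq_mul]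
            ring
        _ ≤ _ := Finset.sum_le_sum fun l _ => ee_ge (B.two v) H ε Λ (w (some v) l)
    have hsum0 := Finset.sum_le_sum fun v (_ : v ∈ (Finset.univ : Finset (Fin m))) => hsumP v
    have hsum : n * (∑ v, UN (B.P v) H Λ * Real.log (B.P v)) +
        (∑ v, ∑ l, w (some v) l) * Λ - m * (n * ε * Λ) - n * ∑ v, Real.log (B.P v)
        ≤ ∑ v, ∑ l, (ee (B.P v) H ε Λ (w (some v) l) : ℝ) * Real.log (B.P v) := by
      have e5 : ∑ x, (n : ℝ) * Real.log (B.P x) = n * ∑ i, Real.log (B.P i) :=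
        (Finset.mul_sum _ _ _).symm
      refine le_trans (le_of_eq ?_) hsum0
      rw [Finset.sum_sub_distrib, Finset.sum_sub_distrib, Finset.sum_add_distrib,
        ← Finset.mul_sum, ← Finset.mul_sum, ← Finset.sum_mul, Finset.sum_const,
        Finset.card_univ, Fintype.card_fin, nsmul_eq_mul, e5]
      ring
    rw [hA]
    rw [Fintype.sum_option] at hσ
    have e1 : (∑ l, w none l) * Λ + (∑ v, ∑ l, w (some v) l) * Λ = σ * Λ := by
      rw [hσ]; ring
    have e2 : n * ((m + 1) * n + 1) * ε * Λ + m * (n * ε * Λ) ≤ 1 / 16 * (σ * Λ) := by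
      rw [← hε1]
      have h0 : 0 ≤ ε * Λ := by positivity
      have h1 : n * ((m + 1) * n + 1) * ε * Λ + m * (n * ε * Λ) =
          ((m + 1) * (n ^ 2 + n)) * (ε * Λ) := by ring
      have h2 : 1 / 16 * (16 * (m + 1) * (n + 1) ^ 2 * ε * Λ) =
          ((m + 1) * ((n + 1) ^ 2)) * (ε * Λ) := by ring
      rw [h1, h2]
      refine mul_le_mul_of_nonneg_right ?_ h0
      refine mul_le_mul_of_nonneg_left ?_ (by positivity)
      nlinarith
    have e3 : n * (∑ i, Real.log (B.P i)) ≤ σ * Λ / 2 := by linarith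
    have e4 : 0 ≤ σ * Λ := by
      rw [← hε1]; positivity
    linarith

/-! ## the theorem -/

theorem fix_fin (hsub : Pool.Agent.TH461.SST.SubspaceStmt) (B : Base m)
    (L : ℕ → ℝ) (hL : Tendsto L atTop atTop) (n : ℕ)
    (z : Option (Fin m) → Fin n → GG) (w : Option (Fin m) → Fin n → ℝ)
    (hind : ∀ v, ∀ c : Fin n → ℤ, ∑ i, (c i : GG) * z v i = 0 → ∀ i, c i = 0)
    (hN : ∀ v i, ∃ N : ℤ, N ≠ 0 ∧ ∃ c : Fin n → ℤ, (N : GG) * z v i = ∑ j, (c j : GG) * z none j)
    (hv : ∀ v i, z v i ∈ Sv B L v (w v i)) (hS : ∀ i, Sint B L (z none i)) :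
    ∑ v, ∑ i, w v i ≤ 0 := by
  by_contra hcon
  push Not at hcon
  have hn : 1 ≤ n := by
    rcases Nat.eq_zero_or_pos n with h0 | h0
    · subst h0
      simp at hcon
    · exact h0
  choose K hK0 C hC using hN
  choose a ha using fun i => gm_surj (z none i)
  choose t ht using hS
  -- determinants
  have hdet : ∀ v, (Matrix.of (C v)).det ≠ 0 := by
    intro v h
    obtain ⟨u, hu0, hu⟩ := Matrix.exists_vecMul_eq_zero_iff.2 h
    have h1 : ∑ i, ((u i * K v i : ℤ) : GG) * z v i = 0 := by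
      calc ∑ i, ((u i * K v i : ℤ) : GG) * z v i
          = ∑ i, (u i : GG) * ∑ j, (C v i j : GG) * z none j := by
            apply Finset.sum_congr rfl
            intro i _
            rw [← hC]; push_cast; ring
        _ = ∑ j, ((∑ i, u i * C v i j : ℤ) : GG) * z none j := by
            simp only [Finset.mul_sum, Int.cast_sum, Finset.sum_mul]
            rw [Finset.sum_comm]
            apply Finset.sum_congr rfl
            intro j _
            apply Finset.sum_congr rfl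
            intro i _
            push_cast; ring
        _ = 0 := by
            apply Finset.sum_eq_zero
            intro j _
            have h2 : (∑ i, u i * C v i j) = 0 := by
              have := congrFun hu j
              simpa [Matrix.vecMul, dotProduct] using this
            rw [h2, Int.cast_zero, zero_mul]
    have h3 := hind v (fun i => u i * K v i) h1
    apply hu0
    funext i
    exact (mul_eq_zero.1 (h3 i)).resolve_right (hK0 v i)
  -- the values of the forms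
  have hval : ∀ v i, gm (fun m => ∑ j, (C v i j : ℚ) * a j m) ∈ Sv B L v (w v i) := by
    intro v i
    rw [← gm_lin]
    simp only [ha]
    rw [← hC]
    have h1 : algebraMap (KK L hL) GG (K v i : KK L hL) ∈ Sv B L v 0 :=
      (filt_v B hL v).alg_mem _
    rw [map_intCast] at h1
    have h2 := (filt_v B hL v).mul_mem h1 (hv v i)
    rw [zero_add] at h2
    exact h2
  -- parameters
  set σ : ℝ := ∑ v, ∑ i, w v i with hσ
  set ε : ℝ := σ / (16 * (m + 1) * (n + 1) ^ 2) with hε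
  have hε0 : 0 < ε := by positivity
  have hε1 : 16 * (m + 1) * (n + 1) ^ 2 * ε = σ := by
    rw [hε]; field_simp
  set H : ℝ := ε + ∑ v, ∑ i, |w v i| + ∑ i, |t i| with hH
  have hH1 : ∀ v i, |w v i| + ε ≤ H := by
    intro v i
    have h1 : |w v i| ≤ ∑ i, |w v i| :=
      Finset.single_le_sum (f := fun i => |w v i|) (fun i _ => abs_nonneg _) (Finset.mem_univ i)
    have h2 : ∑ i, |w v i| ≤ ∑ v, ∑ i, |w v i| :=
      Finset.single_le_sum (f := fun v => ∑ i, |w v i|)
        (fun v _ => Finset.sum_nonneg fun i _ => abs_nonneg _) (Finset.mem_univ v)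
    have h3 : 0 ≤ ∑ i, |t i| := Finset.sum_nonneg fun i _ => abs_nonneg _
    linarith
  have hH2 : ∀ i, |t i| + ε ≤ H := by
    intro i
    have h1 : |t i| ≤ ∑ i, |t i| :=
      Finset.single_le_sum (f := fun i => |t i|) (fun i _ => abs_nonneg _) (Finset.mem_univ i)
    have h2 : 0 ≤ ∑ v, ∑ i, |w v i| :=
      Finset.sum_nonneg fun v _ => Finset.sum_nonneg fun i _ => abs_nonneg _
    linarith
  have hH0 : 0 ≤ H := by
    have h2 : 0 ≤ ∑ v, ∑ i, |w v i| :=
      Finset.sum_nonneg fun v _ => Finset.sum_nonneg fun i _ => abs_nonneg _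
    have h3 : 0 ≤ ∑ i, |t i| := Finset.sum_nonneg fun i _ => abs_nonneg _
    linarith
  have hlogs : 0 ≤ ∑ i, Real.log (B.P i) := Finset.sum_nonneg fun i _ => (logP B i).le
  set c : ℝ := ((m + 1) * n + 1) * ε + (m + 2) * H + ∑ i, Real.log (B.P i) + 1 with hc
  have hc1 : 1 ≤ c := by
    have h1 : 0 ≤ ((m + 1) * n + 1) * ε := by positivity
    have h2 : 0 ≤ (m + 2) * H := by positivity
    linarith
  -- the good indices
  have hev : ∀ᶠ m' in (UU : Filter ℕ), (∀ j, RS B (L m') ε (t j) (a j m')) ∧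
      (∀ v i, Rv B v (L m') ε (w v i) (∑ j, (C v i j : ℚ) * a j m')) ∧
      (∀ j, a j m' ≠ 0) ∧ 1 ≤ L m' ∧ 2 * n * (∑ i, Real.log (B.P i)) ≤ σ * L m' := by
    have e1 : ∀ᶠ m' in (UU : Filter ℕ), ∀ j, RS B (L m') ε (t j) (a j m') := by
      rw [Filter.eventually_all]
      intro j
      have := ht j
      rw [← ha, mem_SS] at this
      exact this ε hε0
    have e2 : ∀ᶠ m' in (UU : Filter ℕ), ∀ v i,
        Rv B v (L m') ε (w v i) (∑ j, (C v i j : ℚ) * a j m') := by
      rw [Filter.eventually_all]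
      intro v
      rw [Filter.eventually_all]
      intro i
      have := hval v i
      unfold Sv at this
      rw [mem_SS] at this
      exact this ε hε0
    have e3 : ∀ᶠ m' in (UU : Filter ℕ), ∀ j, a j m' ≠ 0 := by
      rw [Filter.eventually_all]
      intro j
      rw [← gm_ne_zero, ha]
      intro h0
      have h1 := hind none (Pi.single j 1) (by
        apply Finset.sum_eq_zero
        intro i _
        by_cases hij : i = j
        · subst hij; rw [h0, mul_zero]
        · rw [Pi.single_eq_of_ne hij, Int.cast_zero, zero_mul]) j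
      rw [Pi.single_eq_same] at h1
      exact one_ne_zero h1
    have e4 : ∀ᶠ m' in (UU : Filter ℕ), 1 ≤ L m' := ev_of_atTop (hL.eventually_ge_atTop 1)
    have e5 : ∀ᶠ m' in (UU : Filter ℕ), 2 * n * (∑ i, Real.log (B.P i)) / σ ≤ L m' :=
      ev_of_atTop (hL.eventually_ge_atTop _)
    filter_upwards [e1, e2, e3, e4, e5] with m' h1 h2 h3 h4 h5
    refine ⟨h1, h2, h3, h4, ?_⟩
    rw [div_le_iff₀ hcon] at h5
    linarith
  obtain ⟨y, hy⟩ := exists_surjective_nat (Fin n → ℤ)
  have hex : ∀ s : ℕ, ∃ m' : ℕ, ((∀ j, RS B (L m') ε (t j) (a j m')) ∧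
      (∀ v i, Rv B v (L m') ε (w v i) (∑ j, (C v i j : ℚ) * a j m')) ∧
      (∀ j, a j m' ≠ 0) ∧ 1 ≤ L m' ∧ 2 * n * (∑ i, Real.log (B.P i)) ≤ σ * L m') ∧ s ≤ m' ∧
      ∀ k < s, y k ≠ 0 → ∑ l, (y k l : ℚ) * a l m' ≠ 0 := by
    intro s
    have e1 : ∀ᶠ m' in (UU : Filter ℕ), s ≤ m' := ev_of_atTop (eventually_ge_atTop s)
    have e2 : ∀ᶠ m' in (UU : Filter ℕ), ∀ k ∈ Set.Iio s, y k ≠ 0 →
        ∑ l, (y k l : ℚ) * a l m' ≠ 0 := by
      rw [Filter.eventually_all_finite (Set.finite_Iio s)]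
      intro k _
      by_cases h0 : y k = 0
      · exact Eventually.of_forall fun m' h => absurd h0 h
      · have h1 : gm (fun m' => ∑ l, (y k l : ℚ) * a l m') ≠ 0 := by
          rw [← gm_lin]
          simp only [ha]
          intro h2
          exact h0 (funext (hind none (y k) h2))
        rw [gm_ne_zero] at h1
        filter_upwards [h1] with m' hm _ using hm
    obtain ⟨m', h1, h2, h3⟩ := (hev.and (e1.and e2)).exists
    exact ⟨m', h1, h2, h3⟩
  choose mm hmm hms hmy using hex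
  have hstep := fun s => step B (H := H) (ε := ε) (Λ := L (mm s))
    (le_trans zero_le_one (hmm s).2.2.2.1) C w t hH1 hH2 (fun j => a j (mm s)) (hmm s).1
    (hmm s).2.1
  choose D x hD hx hsol using hstep
  have htend : Tendsto (fun s => L (mm s)) atTop atTop :=
    hL.comp (tendsto_atTop_mono hms tendsto_id)
  have hpl : Pool.Agent.TH461.SST.Places (Matrix.of (C none))
      (fun v => Matrix.of (C (some v))) B.P := by
    refine ⟨hdet none, fun v => hdet (some v), B.two, fun v v' hvv => ?_⟩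
    exact Nat.isCoprime_iff_coprime.1 (B.cop v v' hvv)
  obtain ⟨u, hu0, hu⟩ := hsub n m hn (Matrix.of (C none)) (fun v => Matrix.of (C (some v)))
    B.P hpl c (σ / 4) hc1 (by positivity) (fun s => L (mm s)) htend
    (fun s v l => ee (B.P v) H ε (L (mm s)) (w (some v) l))
    (fun s l => AA B n H ε (L (mm s)) (w none l))
    (fun s => size_ok B hε0 (hmm s).2.2.2.1 w hH1 hH0 hσ hε1 (by linarith)
      (hmm s).2.2.2.2) x
    (by
      intro s h0
      have h1 := hx s ⟨0, hn⟩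
      rw [h0] at h1
      simp only [Pi.zero_apply, Int.cast_zero] at h1
      have h2 : (D s : ℚ) ≠ 0 := by exact_mod_cast hD s
      exact mul_ne_zero (mul_ne_zero h2 (PU_ne B _ _)) ((hmm s).2.2.1 ⟨0, hn⟩) h1.symm) hsol
  obtain ⟨k, rfl⟩ := hy u
  obtain ⟨s, hs1, hs2⟩ := (hu.and_eventually (eventually_gt_atTop k)).exists
  have h1 := hmy s k hs2 hu0
  apply h1
  have h2 : (((∑ l, y k l * x s l : ℤ)) : ℚ) = D s * PU B H (L (mm s))
      * ∑ l, (y k l : ℚ) * a l (mm s) := by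
    push_cast
    rw [Finset.mul_sum]
    apply Finset.sum_congr rfl
    intro l _
    rw [hx]; ring
  rw [hs1, Int.cast_zero] at h2
  have h3 : (D s : ℚ) ≠ 0 := by exact_mod_cast hD s
  exact (mul_eq_zero.1 h2.symm).resolve_left (mul_ne_zero h3 (PU_ne B _ _))

theorem fixq (hsub : Pool.Agent.TH461.SST.SubspaceStmt) : FixQStmt := by
  intro m B L hL ι _ z w hind hN hv hS
  let e : ι ≃ Fin (Fintype.card ι) := Fintype.equivFin ι
  have h := fix_fin hsub B L hL (Fintype.card ι) (fun v i => z v (e.symm i))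
    (fun v i => w v (e.symm i)) ?_ ?_ (fun v i => hv v _) (fun i => hS _)
  · calc ∑ v, ∑ i, w v i = ∑ v, ∑ i, w v (e.symm i) := by
          apply Finset.sum_congr rfl
          intro v _
          exact (Equiv.sum_comp e.symm (fun i => w v i)).symm
      _ ≤ 0 := h
  · intro v c hc i
    have h1 := hind v (fun j => c (e j)) (by
      rw [← hc, ← Equiv.sum_comp e.symm]
      simp) (e.symm i)
    simpa using h1
  · intro v i
    obtain ⟨N, hN0, c, hc⟩ := hN v (e.symm i)
    refine ⟨N, hN0, fun j => c (e.symm j), ?_⟩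
    rw [hc, ← Equiv.sum_comp e.symm]

/-! ## coefficients in the negligible field -/

lemma Rb_of_RS (B : Base m) (i : Fin m) {L ε t : ℝ} {a : ℚ} (h : RS B L ε t a) :
    Rb (B.P i) (Pool.Agent.TH932.Germs.cop (B.P i)) L ε t a := by
  obtain ⟨d, c, k, hd, hd1, h, h1⟩ := h
  refine ⟨d, ∏ j ∈ Finset.univ.erase i, (B.P j : ℤ) ^ (-k j).toNat,
    (∏ j ∈ Finset.univ.erase i, (B.P j : ℤ) ^ (k j).toNat) * c, k i, hd, hd1, ?_, ?_, h1 i⟩
  · refine Submonoid.prod_mem _ fun j hj => ?_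
    have hji := Finset.ne_of_mem_erase hj
    exact (B.cop j i hji).pow_left
  · have e : (∏ j ∈ Finset.univ.erase i, (B.P j : ℚ) ^ k j) *
        (∏ j ∈ Finset.univ.erase i, (B.P j : ℚ) ^ (-k j).toNat) =
        ∏ j ∈ Finset.univ.erase i, (B.P j : ℚ) ^ (k j).toNat := by
      rw [← Finset.prod_mul_distrib]
      exact Finset.prod_congr rfl fun j _ => Pool.Agent.TH932.S2.Mov.zpow_toNat (P0 B j) (k j)
    push_cast
    rw [← e]
    rw [← Finset.mul_prod_erase Finset.univ _ (Finset.mem_univ i)] at h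
    linear_combination (∏ j ∈ Finset.univ.erase i, (B.P j : ℚ) ^ (-k j).toNat) * h

theorem movq (h : FixQStmt) : MovQStmt := by
  intro m B L hL ι _ z w h1 h2 h3 h4
  have h5 : ∀ v i, ∃ t : ℝ, z none i ∈ Sv B L v t := by
    intro v i
    cases v with
    | none => exact ⟨w none i, h3 none i⟩
    | some v =>
      obtain ⟨t, a, ha, hR⟩ := h4 i
      refine ⟨t, a, ha, fun ε hε => ?_⟩
      filter_upwards [hR ε hε] with n hn using Rb_of_RS B v hn
  choose t ht using h5
  refine Pool.Agent.TH932.S2.Mov.mov_abs (K := KK L hL) (G := GG) none (Sv B L) (filt_v B hL)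
    (Sint B L)
    (fun c g hg => sint_mul B hL (sint_alg B hL c) hg)
    (fun J _ z w => h m B L hL J _ z w) ι z w h1 h2 h3 h4
    (∑ v, ∑ i, |t v i|) (Finset.sum_nonneg fun v _ => Finset.sum_nonneg fun i _ => abs_nonneg _)
    (fun v i => (filt_v B hL v).anti ?_ (ht v i))
  have e1 : |t v i| ≤ ∑ i, |t v i| :=
    Finset.single_le_sum (f := fun i => |t v i|) (fun i _ => abs_nonneg _) (Finset.mem_univ i)
  have e2 : ∑ i, |t v i| ≤ ∑ v, ∑ i, |t v i| :=
    Finset.single_le_sum (f := fun v => ∑ i, |t v i|)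
      (fun v _ => Finset.sum_nonneg fun i _ => abs_nonneg _) (Finset.mem_univ v)
  have e3 := neg_abs_le (t v i)
  linarith

end Pool.Agent.TH81.AL
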