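import Mathlib
import Pool.Agent.TH881.RK.Defs
import Pool.Agent.TH914.J2925

/-! Job 3805 (helper81): the limit of the smallest proportion. -/

set_option autoImplicit false

namespace Pool.Agent.TH81.J3805

open Finset Filter Topology
open Pool.Agent.TH881
open Pool.Agent.TH881.RG
open Pool.Agent.TH881.RQ
open Pool.Agent.TH881.RK
open Pool.Agent.H373R2.T7

/-- the normalised local factor -/
noncomputable def ff (pr : Bool) (m p : ℕ) : ℝ := (1 - uk pr m p) / (1 - 1 / (p : ℝ)) ^ m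

/-- the product of the normalised local factors -/
noncomputable def HH (pr : Bool) (m w : ℕ) : ℝ := ∏ p ∈ pz w, ff pr m p

lemma Aq_pos (pr : Bool) {p : ℕ} (hp : 2 ≤ p) : 1 ≤ Aq pr p := by
  unfold Aq
  split_ifs <;> omega

lemma uk_lt (pr : Bool) (m : ℕ) {p : ℕ} (hp : 2 ≤ p) : uk pr m p < 1 := by
  have h1 := Aq_pos pr hp
  unfold uk
  rw [div_lt_one (by exact_mod_cast h1)]
  have h2 : min m (Aq pr p - 1) < Aq pr p := by
    have := min_le_right m (Aq pr p - 1)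
    omega
  exact_mod_cast h2

lemma base_pos {p : ℕ} (hp : 2 ≤ p) : 0 < 1 - 1 / (p : ℝ) := by
  have h1 : (2 : ℝ) ≤ p := by exact_mod_cast hp
  rw [sub_pos, div_lt_one (by linarith)]
  linarith

lemma ff_pos (pr : Bool) (m : ℕ) {p : ℕ} (hp : 2 ≤ p) : 0 < ff pr m p := by
  unfold ff
  have := uk_lt pr m hp
  have := base_pos hp
  apply div_pos
  · linarith
  · positivity

lemma uk_eq (pr : Bool) (m : ℕ) {p : ℕ} (hp : m + 2 ≤ p) : uk pr m p = (m : ℝ) / Aq pr p := by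
  unfold uk
  have h1 : min m (Aq pr p - 1) = m := by
    apply min_eq_left
    unfold Aq
    split_ifs <;> omega
  rw [h1]

lemma Aq_le (pr : Bool) (p : ℕ) : Aq pr p ≤ p := by
  unfold Aq
  split_ifs <;> omega

lemma le_Aq (pr : Bool) (p : ℕ) : p - 1 ≤ Aq pr p := by
  unfold Aq
  split_ifs <;> omega

lemma ff_le (pr : Bool) (m : ℕ) {p : ℕ} (hp : m + 2 ≤ p) : ff pr m p ≤ 1 := by
  unfold ff
  have hb := base_pos (p := p) (by omega)
  rw [div_le_one (by positivity), uk_eq pr m hp]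
  have h1 : (0 : ℝ) < p := by exact_mod_cast (by omega : 0 < p)
  have h2 : (0 : ℝ) < Aq pr p := by exact_mod_cast Aq_pos pr (p := p) (by omega)
  have h3 : (Aq pr p : ℝ) ≤ p := by exact_mod_cast Aq_le pr p
  have h4 : (m : ℝ) / p ≤ (m : ℝ) / Aq pr p :=
    div_le_div_of_nonneg_left (Nat.cast_nonneg m) h2 h3
  have h5 : 1 / (p : ℝ) ≤ 1 := by
    rw [div_le_one h1]
    exact_mod_cast (by omega : 1 ≤ p)
  have h6 := one_add_mul_le_pow (a := -(1 / (p : ℝ))) (by linarith) m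
  have h7 : (m : ℝ) * -(1 / (p : ℝ)) = -((m : ℝ) / p) := by ring
  rw [h7] at h6
  have h8 : (1 + -(1 / (p : ℝ))) = 1 - 1 / (p : ℝ) := by ring
  rw [h8] at h6
  linarith

lemma ff_ge (pr : Bool) (m : ℕ) {k : ℕ} (hk : m + 1 ≤ k) :
    1 - (m : ℝ) ^ 2 / (k : ℝ) ^ 2 ≤ ff pr m (k + 1) := by
  have hk0 : (0 : ℝ) < k := by exact_mod_cast (by omega : 0 < k)
  unfold ff
  rw [uk_eq pr m (by omega)]
  have h2 : (k : ℝ) ≤ Aq pr (k + 1) := by exact_mod_cast le_Aq pr (k + 1)
  have h4 : (m : ℝ) / Aq pr (k + 1) ≤ (m : ℝ) / k :=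
    div_le_div_of_nonneg_left (Nat.cast_nonneg m) hk0 h2
  have hmk : (m : ℝ) / k < 1 := by
    rw [div_lt_one hk0]
    exact_mod_cast (by omega : m < k)
  have e1 : (1 - 1 / ((k + 1 : ℕ) : ℝ)) = (1 + 1 / (k : ℝ))⁻¹ := by
    push_cast
    field_simp
    ring
  rw [e1, inv_pow, div_inv_eq_mul]
  have h5 : 1 + (m : ℝ) * (1 / (k : ℝ)) ≤ (1 + 1 / (k : ℝ)) ^ m :=
    one_add_mul_le_pow (by have : 0 ≤ 1 / (k : ℝ) := by positivity
                           linarith) m
  have h6 : (m : ℝ) * (1 / (k : ℝ)) = (m : ℝ) / k := by ring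
  rw [h6] at h5
  have h7 : 0 ≤ (m : ℝ) / k := by positivity
  calc 1 - (m : ℝ) ^ 2 / (k : ℝ) ^ 2 = (1 - (m : ℝ) / k) * (1 + (m : ℝ) / k) := by
        rw [← div_pow]; ring
    _ ≤ (1 - (m : ℝ) / Aq pr (k + 1)) * (1 + 1 / (k : ℝ)) ^ m :=
        mul_le_mul (by linarith) h5 (by linarith) (by linarith)

lemma HH_succ (pr : Bool) (m n : ℕ) :
    HH pr m (n + 1) = (if (n + 1).Prime then ff pr m (n + 1) else 1) * HH pr m n := by
  have h1 : Icc 1 (n + 1) = insert (n + 1) (Icc 1 n) := by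
    ext x
    rw [mem_insert, mem_Icc, mem_Icc]
    omega
  unfold HH pz
  rw [h1, filter_insert]
  split_ifs with h
  · rw [prod_insert]
    rw [mem_filter, mem_Icc]
    omega
  · rw [one_mul]

lemma HH_pos (pr : Bool) (m w : ℕ) : 0 < HH pr m w := by
  unfold HH
  refine prod_pos fun p hp => ff_pos pr m ?_
  unfold pz at hp
  exact (mem_filter.1 hp).2.two_le

lemma HH_anti (pr : Bool) (m : ℕ) : Antitone fun z : ℕ => HH pr m (z + m + 1) := by
  refine antitone_nat_of_succ_le fun z => ?_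
  rw [show z + 1 + m + 1 = (z + m + 1) + 1 by ring, HH_succ]
  have h0 := (HH_pos pr m (z + m + 1)).le
  have h1 : (if (z + m + 1 + 1).Prime then ff pr m (z + m + 1 + 1) else 1) ≤ 1 := by
    split_ifs
    · exact ff_le pr m (by omega)
    · exact le_rfl
  calc _ ≤ 1 * HH pr m (z + m + 1) := mul_le_mul_of_nonneg_right h1 h0
    _ = _ := one_mul _

/-- a partial product -/
noncomputable def PP (m K : ℕ) : ℝ := ∏ k ∈ Icc (m + 1) K, (1 - (m : ℝ) ^ 2 / (k : ℝ) ^ 2)

lemma PP_succ (m z : ℕ) : PP m (z + m + 1) =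
    (1 - (m : ℝ) ^ 2 / ((z + m + 1 : ℕ) : ℝ) ^ 2) * PP m (z + m) := by
  unfold PP
  have h1 : Icc (m + 1) (z + m + 1) = insert (z + m + 1) (Icc (m + 1) (z + m)) := by
    ext x
    rw [mem_insert, mem_Icc, mem_Icc]
    omega
  rw [h1, prod_insert]
  rw [mem_Icc]
  omega

lemma PP_fac {m k : ℕ} (h : m + 1 ≤ k) : 0 < 1 - (m : ℝ) ^ 2 / (k : ℝ) ^ 2 := by
  have h1 : (m : ℝ) < k := by exact_mod_cast (by omega : m < k)
  have h0 : (0 : ℝ) ≤ m := Nat.cast_nonneg m
  have hk : (0 : ℝ) < k := by linarith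
  rw [sub_pos, div_lt_one (by positivity)]
  nlinarith

lemma PP_eq (m z : ℕ) : PP m (z + m) * ((z + m).choose m : ℝ) * ((m + m).choose m : ℝ) =
    ((z + m + m).choose m : ℝ) := by
  induction z with
  | zero =>
    have h1 : PP m (0 + m) = 1 := by
      unfold PP
      rw [zero_add, Icc_eq_empty (by omega), prod_empty]
    rw [h1, zero_add, Nat.choose_self]
    push_cast
    ring
  | succ z ih =>
    rw [show z + 1 + m = z + m + 1 by ring, show z + m + 1 + m = z + m + m + 1 by ring, PP_succ]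
    have h1 := Nat.choose_mul_succ_eq (z + m) m
    have h2 := Nat.choose_mul_succ_eq (z + m + m) m
    rw [show z + m + 1 - m = z + 1 by omega] at h1
    rw [show z + m + m + 1 - m = z + m + 1 by omega] at h2
    have h1' : ((z + m).choose m : ℝ) * ((z : ℝ) + m + 1) = ((z + m + 1).choose m : ℝ) * ((z : ℝ) + 1) := by
      exact_mod_cast h1
    have h2' : ((z + m + m).choose m : ℝ) * ((z : ℝ) + m + m + 1) =
        ((z + m + m + 1).choose m : ℝ) * ((z : ℝ) + m + 1) := by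
      exact_mod_cast h2
    have hz : (0 : ℝ) < (z : ℝ) + m + 1 := by positivity
    have hz1 : (0 : ℝ) < (z : ℝ) + 1 := by positivity
    have e1 : ((z + m + m + 1).choose m : ℝ) =
        ((z + m + m).choose m : ℝ) * ((z : ℝ) + m + m + 1) / ((z : ℝ) + m + 1) := by
      rw [h2', mul_div_assoc, div_self hz.ne', mul_one]
    have e2 : ((z + m + 1).choose m : ℝ) =
        ((z + m).choose m : ℝ) * ((z : ℝ) + m + 1) / ((z : ℝ) + 1) := by
      rw [h1', mul_div_assoc, div_self hz1.ne', mul_one]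
    rw [e1, e2, ← ih]
    push_cast
    field_simp
    ring

lemma PP_ge (m z : ℕ) : 1 / ((m + m).choose m : ℝ) ≤ PP m (z + m) := by
  have h1 := PP_eq m z
  have h2 : ((z + m).choose m : ℝ) ≤ ((z + m + m).choose m : ℝ) := by
    exact_mod_cast Nat.choose_le_choose m (by omega)
  have h3 : (0 : ℝ) < ((z + m).choose m : ℝ) := by
    exact_mod_cast Nat.choose_pos (by omega)
  have h4 : (0 : ℝ) < ((m + m).choose m : ℝ) := by
    exact_mod_cast Nat.choose_pos (by omega)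
  rw [div_le_iff₀ h4]
  by_contra hcon
  push Not at hcon
  rw [← h1] at h2
  have h5 : PP m (z + m) * ((z + m).choose m : ℝ) * ((m + m).choose m : ℝ) =
      (PP m (z + m) * ((m + m).choose m : ℝ)) * ((z + m).choose m : ℝ) := by ring
  rw [h5] at h2
  nlinarith

lemma HH_ge (pr : Bool) (m z : ℕ) : HH pr m (m + 1) * PP m (z + m) ≤ HH pr m (z + m + 1) := by
  induction z with
  | zero =>
    have h1 : PP m (0 + m) = 1 := by
      unfold PP
      rw [zero_add, Icc_eq_empty (by omega), prod_empty]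
    rw [h1, mul_one, zero_add]
  | succ z ih =>
    rw [show z + 1 + m = z + m + 1 by ring, HH_succ pr m (z + m + 1), PP_succ]
    have h1 := ff_ge pr m (k := z + m + 1) (by omega)
    have h2 := PP_fac (m := m) (k := z + m + 1) (by omega)
    have h3 : (1 - (m : ℝ) ^ 2 / ((z + m + 1 : ℕ) : ℝ) ^ 2) ≤
        (if (z + m + 1 + 1).Prime then ff pr m (z + m + 1 + 1) else 1) := by
      split_ifs
      · exact h1
      · have : 0 ≤ (m : ℝ) ^ 2 / ((z + m + 1 : ℕ) : ℝ) ^ 2 := by positivity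
        linarith
    have h4 := (HH_pos pr m (z + m + 1)).le
    calc HH pr m (m + 1) * ((1 - (m : ℝ) ^ 2 / ((z + m + 1 : ℕ) : ℝ) ^ 2) * PP m (z + m))
        = (1 - (m : ℝ) ^ 2 / ((z + m + 1 : ℕ) : ℝ) ^ 2) * (HH pr m (m + 1) * PP m (z + m)) := by
          ring
      _ ≤ (1 - (m : ℝ) ^ 2 / ((z + m + 1 : ℕ) : ℝ) ^ 2) * HH pr m (z + m + 1) :=
          mul_le_mul_of_nonneg_left ih h2.le
      _ ≤ _ := mul_le_mul_of_nonneg_right h3 h4

lemma SSk_eq (pr : Bool) (m : ℕ) : SSk pr m = ⨅ z : ℕ, HH pr m (z + m + 1) := rfl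

lemma SSk_pos (pr : Bool) (m : ℕ) : 0 < SSk pr m := by
  rw [SSk_eq]
  have h4 : (0 : ℝ) < ((m + m).choose m : ℝ) := by
    exact_mod_cast Nat.choose_pos (by omega)
  have h0 := HH_pos pr m (m + 1)
  have h1 : ∀ z : ℕ, HH pr m (m + 1) * (1 / ((m + m).choose m : ℝ)) ≤ HH pr m (z + m + 1) :=
    fun z => (mul_le_mul_of_nonneg_left (PP_ge m z) h0.le).trans (HH_ge pr m z)
  exact lt_of_lt_of_le (by positivity) (le_ciInf h1)

lemma HH_lim (pr : Bool) (m : ℕ) : Tendsto (fun w : ℕ => HH pr m w) atTop (𝓝 (SSk pr m)) := by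
  have h1 : Tendsto (fun z : ℕ => HH pr m (z + m + 1)) atTop (𝓝 (⨅ z : ℕ, HH pr m (z + m + 1))) :=
    tendsto_atTop_ciInf (HH_anti pr m) ⟨0, by
      rintro _ ⟨z, rfl⟩
      exact (HH_pos pr m _).le⟩
  rw [← SSk_eq] at h1
  exact (tendsto_add_atTop_iff_nat (m + 1)).1 h1

lemma Phq_eq (pr : Bool) (m w : ℕ) : Phq (uk pr m) w = HH pr m w * Vz w ^ m := by
  unfold Phq HH Vz
  rw [← prod_pow, ← prod_mul_distrib]
  refine prod_congr rfl fun p hp => ?_
  unfold pz at hp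
  have h1 := base_pos (mem_filter.1 hp).2.two_le
  unfold ff
  rw [div_mul_cancel₀]
  positivity

theorem stLim_in (pr : Bool) (m : ℕ) : StLim pr m := by
  refine ⟨SSk_pos pr m, ?_⟩
  have h1 := (HH_lim pr m).mul (Pool.Agent.TH914.J2925.Vz_log.pow m)
  have h2 : Real.exp (-(m * Real.eulerMascheroniConstant)) * SSk pr m =
      SSk pr m * Real.exp (-Real.eulerMascheroniConstant) ^ m := by
    rw [← Real.exp_nat_mul, mul_comm]
    congr 2
    ring
  rw [h2]
  refine h1.congr fun w => ?_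
  rw [Phq_eq, mul_pow]
  ring

end Pool.Agent.TH81.J3805
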