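import Pool.Agent.TH280.BR.Stm
import Pool.Agent.TH278.VV
import Pool.Agent.H438R2.RZ.R7

set_option autoImplicit false

/-! # The planar Carleson-Sjolin theorem for integrable functions, all radii -/

open MeasureTheory Set Filter
open scoped ENNReal Topology

namespace Pool.Agent.TH81.PL

open Pool.Agent.TH280.LS (e continuous_e norm_e)
open Pool.Agent.TH280.BR
open Pool.Agent.H438R2.RZ (Good Bump Pl decomp)
open Pool.Agent.TH278 (mV GoodF)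

/-! ### the planar Fourier transform -/

lemma ft2_int {g : ℝ × ℝ → ℂ} (hg : Integrable g) (ξ : ℝ × ℝ) :
    Integrable fun z : ℝ × ℝ => e (-(z.1 * ξ.1 + z.2 * ξ.2)) * g z := by
  refine hg.bdd_mul (c := 1) ?_ ?_
  · exact (continuous_e.comp (by fun_prop)).aestronglyMeasurable
  · exact Filter.Eventually.of_forall fun y => (norm_e _).le

lemma ft2_bdd (g : ℝ × ℝ → ℂ) (ξ : ℝ × ℝ) : ‖ft2 g ξ‖ ≤ ∫ y, ‖g y‖ := by
  refine (norm_integral_le_integral_norm _).trans (le_of_eq ?_)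
  congr 1; funext y; rw [norm_mul, norm_e, one_mul]

lemma ft2_cont {g : ℝ × ℝ → ℂ} (hg : Integrable g) : Continuous (ft2 g) := by
  refine continuous_of_dominated (bound := fun y => ‖g y‖) ?_ ?_ hg.norm ?_
  · intro ξ; exact (ft2_int hg ξ).aestronglyMeasurable
  · intro ξ; exact Filter.Eventually.of_forall fun y => by rw [norm_mul, norm_e, one_mul]
  · refine Filter.Eventually.of_forall fun y => ?_
    exact (continuous_e.comp (by fun_prop)).mul continuous_const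

lemma ft2_congr {g h : ℝ × ℝ → ℂ} (H : g =ᵐ[volume] h) : ft2 g = ft2 h := by
  funext ξ
  unfold ft2
  refine integral_congr_ae ?_
  filter_upwards [H] with z hz
  rw [hz]

/-! ### multiplier operators -/

lemma MO_int {m g : ℝ × ℝ → ℂ} (hm : Integrable m) (hg : Integrable g) (z : ℝ × ℝ) :
    Integrable fun ξ : ℝ × ℝ => e (z.1 * ξ.1 + z.2 * ξ.2) * (m ξ * ft2 g ξ) := by
  have h1 := hm.mul_bdd (c := ∫ y, ‖g y‖) (ft2_cont hg).aestronglyMeasurable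
    (Filter.Eventually.of_forall fun ξ => ft2_bdd g ξ)
  refine h1.bdd_mul (c := 1) ?_ ?_
  · exact (continuous_e.comp (by fun_prop)).aestronglyMeasurable
  · exact Filter.Eventually.of_forall fun y => (norm_e _).le

lemma MO_cont {m g : ℝ × ℝ → ℂ} (hm : Integrable m) (hg : Integrable g) :
    Continuous fun z : ℝ × ℝ => ∫ ξ : ℝ × ℝ, e (z.1 * ξ.1 + z.2 * ξ.2) * (m ξ * ft2 g ξ) := by
  have h1 := hm.mul_bdd (c := ∫ y, ‖g y‖) (ft2_cont hg).aestronglyMeasurable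
    (Filter.Eventually.of_forall fun ξ => ft2_bdd g ξ)
  refine continuous_of_dominated (bound := fun ξ => ‖m ξ * ft2 g ξ‖) ?_ ?_ h1.norm ?_
  · intro z; exact (MO_int hm hg z).aestronglyMeasurable
  · intro z; refine Filter.Eventually.of_forall fun ξ => ?_
    rw [norm_mul (e _), norm_e, one_mul]
  · refine Filter.Eventually.of_forall fun ξ => ?_
    exact (continuous_e.comp (by fun_prop)).mul continuous_const

lemma rad_int (M : ℝ → ℝ) (hM : Continuous M) (hM2 : ∀ u, 1 < u → M u = 0) :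
    Integrable fun ξ : ℝ × ℝ => ((M (ξ.1 ^ 2 + ξ.2 ^ 2) : ℝ) : ℂ) := by
  refine Continuous.integrable_of_hasCompactSupport (by fun_prop) ?_
  refine HasCompactSupport.of_support_subset_isCompact (isCompact_closedBall (0 : ℝ × ℝ) 1) ?_
  intro ξ hξ
  rw [mem_closedBall_zero_iff, Prod.norm_def]
  by_contra hc
  rw [not_le, lt_max_iff, Real.norm_eq_abs, Real.norm_eq_abs] at hc
  apply hξ
  have : (1 : ℝ) < ξ.1 ^ 2 + ξ.2 ^ 2 := by
    rcases hc with hc | hc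
    · have : 1 < |ξ.1| ^ 2 := by nlinarith
      rw [sq_abs] at this
      nlinarith [sq_nonneg ξ.2]
    · have : 1 < |ξ.2| ^ 2 := by nlinarith
      rw [sq_abs] at this
      nlinarith [sq_nonneg ξ.1]
  simp only
  rw [hM2 _ this]; simp

lemma bump_zero {ψ : ℝ → ℝ} (h : Bump ψ) {v : ℝ} (hv : v < 1 / 2) : ψ v = 0 := by
  by_contra hne
  exact absurd (h.2 v hne).1 (not_le.mpr hv)

lemma bump_bdd {ψ : ℝ → ℝ} (h : Bump ψ) : ∃ M : ℝ, 0 ≤ M ∧ ∀ v, ‖ψ v‖ ≤ M := by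
  obtain ⟨M, hM⟩ := (isCompact_Icc (a := (1 / 2 : ℝ)) (b := 2)).exists_bound_of_continuousOn
    h.1.continuous.continuousOn
  refine ⟨max M 0, le_max_right _ _, fun v => ?_⟩
  by_cases hv : ψ v = 0
  · rw [hv]; simp
  · obtain ⟨h1, h2⟩ := h.2 v hv
    exact (hM v ⟨h1, h2⟩).trans (le_max_left _ _)

/-- the pieces -/
noncomputable def mj (ψ : ℝ → ℝ) (t : ℝ) (ξ : ℝ × ℝ) : ℂ :=
  ((ψ (t * (1 - (ξ.1 ^ 2 + ξ.2 ^ 2))) : ℝ) : ℂ)

lemma mj_int {ψ : ℝ → ℝ} (hψ : Bump ψ) {t : ℝ} (ht : 0 < t) : Integrable (mj ψ t) :=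
  rad_int (fun u => ψ (t * (1 - u))) (hψ.1.continuous.comp (by fun_prop))
    (fun u hu => bump_zero hψ (by nlinarith))

/-- operator with multiplier `mj` -/
noncomputable def Tj (ψ : ℝ → ℝ) (t : ℝ) (g : ℝ × ℝ → ℂ) (z : ℝ × ℝ) : ℂ :=
  ∫ ξ : ℝ × ℝ, e (z.1 * ξ.1 + z.2 * ξ.2) * (mj ψ t ξ * ft2 g ξ)

lemma Tj_cont {ψ : ℝ → ℝ} (hψ : Bump ψ) {t : ℝ} (ht : 0 < t) {g : ℝ × ℝ → ℂ}
    (hg : Integrable g) : Continuous (Tj ψ t g) := MO_cont (mj_int hψ ht) hg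

lemma Tj_eq (ψ : ℝ → ℝ) (L t : ℝ) (h : L ^ 2 = t) (g : ℝ × ℝ → ℂ) :
    Tj ψ t g = Pl (mV ψ L 1) g := by
  funext z
  unfold Tj Pl
  refine integral_congr_ae (Filter.Eventually.of_forall fun ξ => ?_)
  have h1 : mj ψ t ξ = mV ψ L 1 ξ := by unfold mj mV; rw [h]
  have h2 : ft2 g ξ = Pool.Agent.H438R2.RZ.ft g ξ := rfl
  have h3 : e (z.1 * ξ.1 + z.2 * ξ.2) = Pool.Agent.H438R2.RZ.e (z.1 * ξ.1 + z.2 * ξ.2) := rfl
  simp only
  rw [h1, h2, h3, mul_comm]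

lemma good_int {g : ℝ × ℝ → ℂ} (hg : Good g) : Integrable g := by
  obtain ⟨hm, ⟨M, hM⟩, B, hB⟩ := hg
  have hfin : volume (Metric.closedBall (0 : ℝ × ℝ) B) ≠ ∞ := measure_closedBall_lt_top.ne
  have h1 : IntegrableOn g (Metric.closedBall (0 : ℝ × ℝ) B) := by
    refine Measure.integrableOn_of_bounded (M := M) hfin hm.aestronglyMeasurable ?_
    exact Filter.Eventually.of_forall fun z => hM z
  rw [← integrableOn_univ]
  refine (integrableOn_iff_integrable_of_support_subset ?_).mp h1 |>.integrableOn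
  intro z hz
  obtain ⟨h2, h3⟩ := hB z hz
  rw [mem_closedBall_zero_iff, Prod.norm_def]
  exact max_le h2 h3

/-! ### summation -/

lemma piece_norm {ψ : ℝ → ℝ} (hψ : Bump ψ) (M : ℝ) (hM : ∀ v, ‖ψ v‖ ≤ M) (hM0 : 0 ≤ M)
    {g : ℝ × ℝ → ℂ} (hg : Integrable g) (z : ℝ × ℝ) (a : ℝ) (ha : 0 ≤ a) (t : ℝ) (ht : 0 < t) :
    Integrable (fun ξ : ℝ × ℝ => e (z.1 * ξ.1 + z.2 * ξ.2) * (((a : ℝ) : ℂ) * mj ψ t ξ * ft2 g ξ)) ∧
    ∫ ξ : ℝ × ℝ, ‖e (z.1 * ξ.1 + z.2 * ξ.2) * (((a : ℝ) : ℂ) * mj ψ t ξ * ft2 g ξ)‖ ≤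
      a * (M * (∫ y, ‖g y‖) * (volume : Measure (ℝ × ℝ)).real (Metric.closedBall 0 1)) := by
  have hint := MO_int ((mj_int hψ ht).const_mul ((a : ℝ) : ℂ)) hg z
  refine ⟨hint, ?_⟩
  have h1 : ∀ ξ : ℝ × ℝ, ‖e (z.1 * ξ.1 + z.2 * ξ.2) * (((a : ℝ) : ℂ) * mj ψ t ξ * ft2 g ξ)‖ ≤
      (Metric.closedBall (0 : ℝ × ℝ) 1).indicator (fun _ => a * (M * (∫ y, ‖g y‖))) ξ := by
    intro ξ
    by_cases hξ : ξ ∈ Metric.closedBall (0 : ℝ × ℝ) 1
    · rw [indicator_of_mem hξ, norm_mul, norm_e, one_mul, norm_mul, norm_mul, Complex.norm_real,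
        Real.norm_of_nonneg ha, mul_assoc]
      have h2 : ‖mj ψ t ξ‖ ≤ M := by
        unfold mj; rw [Complex.norm_real]; exact hM _
      have h3 := ft2_bdd g ξ
      gcongr
    · rw [indicator_of_notMem hξ]
      rw [mem_closedBall_zero_iff, Prod.norm_def, not_le, lt_max_iff, Real.norm_eq_abs,
        Real.norm_eq_abs] at hξ
      have h5 : (1 : ℝ) < ξ.1 ^ 2 + ξ.2 ^ 2 := by
        rcases hξ with hc | hc
        · have : 1 < |ξ.1| ^ 2 := by nlinarith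
          rw [sq_abs] at this
          nlinarith [sq_nonneg ξ.2]
        · have : 1 < |ξ.2| ^ 2 := by nlinarith
          rw [sq_abs] at this
          nlinarith [sq_nonneg ξ.1]
      have : mj ψ t ξ = 0 := by
        unfold mj
        rw [bump_zero hψ (by nlinarith)]; simp
      rw [this]; simp
  have hbi : Integrable ((Metric.closedBall (0 : ℝ × ℝ) 1).indicator
      (fun _ => a * (M * (∫ y, ‖g y‖)))) (volume : Measure (ℝ × ℝ)) := by
    rw [integrable_indicator_iff Metric.isClosed_closedBall.measurableSet]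
    exact integrableOn_const (measure_closedBall_lt_top.ne)
  refine (integral_mono hint.norm hbi h1).trans (le_of_eq ?_)
  rw [integral_indicator Metric.isClosed_closedBall.measurableSet, setIntegral_const, smul_eq_mul]
  ring

lemma hasSum_pieces (δ : ℝ) (hδ : 0 < δ) {ψ : ℝ → ℝ} (hψ : Bump ψ)
    (hd : ∀ u : ℝ, 0 ≤ u → HasSum (fun j : ℕ => (2 : ℝ) ^ (-(δ * j)) * ψ (2 ^ j * (1 - u)))
      ((max (1 - u) 0) ^ δ)) {g : ℝ × ℝ → ℂ} (hg : Integrable g) (z : ℝ × ℝ) :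
    HasSum (fun j : ℕ => (((2 : ℝ) ^ (-(δ * j)) : ℝ) : ℂ) * Tj ψ (2 ^ j) g z) (UB δ 1 g z) := by
  obtain ⟨M, hM0, hM⟩ := bump_bdd hψ
  have h2 : ∀ j : ℕ, 0 ≤ (2 : ℝ) ^ (-(δ * j)) := fun j => Real.rpow_nonneg (by norm_num) _
  have hp := fun j : ℕ => piece_norm hψ M hM hM0 hg z ((2 : ℝ) ^ (-(δ * j))) (h2 j) (2 ^ j)
    (by positivity)
  have hgeo : Summable fun j : ℕ => (2 : ℝ) ^ (-(δ * j)) := by
    have : (fun j : ℕ => (2 : ℝ) ^ (-(δ * j))) = fun j : ℕ => ((2 : ℝ) ^ (-δ)) ^ j := by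
      funext j
      rw [← Real.rpow_natCast, ← Real.rpow_mul (by norm_num)]; congr 1; ring
    rw [this]
    exact summable_geometric_of_lt_one (Real.rpow_nonneg (by norm_num) _)
      (Real.rpow_lt_one_of_one_lt_of_neg (by norm_num) (by linarith))
  have hs := hasSum_integral_of_summable_integral_norm (μ := (volume : Measure (ℝ × ℝ)))
    (F := fun (j : ℕ) (ξ : ℝ × ℝ) => e (z.1 * ξ.1 + z.2 * ξ.2) *
      ((((2 : ℝ) ^ (-(δ * j)) : ℝ) : ℂ) * mj ψ (2 ^ j) ξ * ft2 g ξ)) (fun j => (hp j).1)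
    (Summable.of_nonneg_of_le (fun j => integral_nonneg fun ξ => norm_nonneg _) (fun j => (hp j).2)
      (hgeo.mul_right _))
  have e1 : (∫ ξ : ℝ × ℝ, ∑' j : ℕ, e (z.1 * ξ.1 + z.2 * ξ.2) *
      ((((2 : ℝ) ^ (-(δ * j)) : ℝ) : ℂ) * mj ψ (2 ^ j) ξ * ft2 g ξ)) = UB δ 1 g z := by
    unfold UB
    congr 1; funext ξ
    have h := hd (ξ.1 ^ 2 + ξ.2 ^ 2) (by positivity)
    have h3 := ((Complex.hasSum_ofReal.mpr h).mul_right (ft2 g ξ)).mul_left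
      (e (z.1 * ξ.1 + z.2 * ξ.2))
    rw [← h3.tsum_eq]
    congr 1; funext j
    unfold mj
    push_cast
    ring
  rw [e1] at hs
  have e2 : (fun j : ℕ => (((2 : ℝ) ^ (-(δ * j)) : ℝ) : ℂ) * Tj ψ (2 ^ j) g z) =
      fun j : ℕ => ∫ ξ : ℝ × ℝ, e (z.1 * ξ.1 + z.2 * ξ.2) *
      ((((2 : ℝ) ^ (-(δ * j)) : ℝ) : ℂ) * mj ψ (2 ^ j) ξ * ft2 g ξ) := by
    funext j
    unfold Tj
    rw [← integral_const_mul]
    congr 1; funext ξ
    ring
  rw [e2]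
  exact hs

/-! ### `L^4` norms -/

lemma enorm4 (f : ℝ × ℝ → ℂ) : eLpNorm f 4 volume ^ 4 = ∫⁻ z, ‖f z‖ₑ ^ 4 := by
  rw [eLpNorm_eq_lintegral_rpow_enorm_toReal (by norm_num) (by norm_num)]
  simp only [ENNReal.toReal_ofNat, ENNReal.rpow_ofNat, one_div]
  rw [← ENNReal.rpow_natCast, ← ENNReal.rpow_mul]
  norm_num

lemma enorm4_le {f g : ℝ × ℝ → ℂ} {a : ℝ} (ha : 0 ≤ a)
    (h : ∫⁻ z, ‖f z‖ₑ ^ 4 ≤ ENNReal.ofReal (a ^ 4) * ∫⁻ z, ‖g z‖ₑ ^ 4) :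
    eLpNorm f 4 volume ≤ ENNReal.ofReal a * eLpNorm g 4 volume := by
  rw [← enorm4, ← enorm4, ENNReal.ofReal_pow ha, ← mul_pow] at h
  exact (ENNReal.pow_le_pow_left_iff (by norm_num)).1 h

lemma goodF {g : ℝ × ℝ → ℂ} (hg : Good g) : GoodF (fun _ : Unit => g) := by
  obtain ⟨h1, ⟨M, hM⟩, B, hB⟩ := hg
  exact ⟨h1.comp measurable_snd, ⟨M, fun _ z => hM z⟩, B, fun _ z hz => hB z hz⟩

/-- the bound for one piece -/
lemma piece_bound (δ : ℝ) (hδ : 0 < δ) {ψ : ℝ → ℝ} (hψ : Bump ψ) :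
    ∃ C : ℝ, 0 < C ∧ ∀ (L : ℝ), 1 ≤ L → ∀ g : ℝ × ℝ → ℂ, Good g →
      eLpNorm (Pl (mV ψ L 1) g) 4 volume ≤ ENNReal.ofReal (C * L ^ δ) * eLpNorm g 4 volume := by
  obtain ⟨C1, hC1, h1⟩ := Pool.Agent.TH278.VV_all ψ hψ
  obtain ⟨C2, hC2, h2⟩ := Pool.Agent.TH73.J637.VVS_all ψ hψ 400 (by norm_num)
  refine ⟨(1 + C1 + C2) * (1 + 1 / δ), by positivity, fun L hL g hg => ?_⟩
  have hL0 : 0 < L := by linarith
  have hLd : 1 ≤ L ^ δ := Real.one_le_rpow hL hδ.le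
  have hlog : 0 ≤ Real.log L := Real.log_nonneg hL
  have hlog2 : Real.log L ≤ L ^ δ / δ := Real.log_le_rpow_div hL0.le hδ
  have hlog3 : 1 + Real.log L ≤ (1 + 1 / δ) * L ^ δ := by
    have : L ^ δ / δ = 1 / δ * L ^ δ := by ring
    nlinarith
  refine enorm4_le (by positivity) ?_
  have key : ∀ (C : ℝ), 0 < C → C ≤ 1 + C1 + C2 →
      C * (1 + Real.log L) ^ 4 ≤ ((1 + C1 + C2) * (1 + 1 / δ) * L ^ δ) ^ 4 := by
    intro C hC hCle
    have h5 : 1 ≤ 1 + C1 + C2 := by linarith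
    have h6 : C ≤ (1 + C1 + C2) ^ 4 := hCle.trans (le_self_pow₀ h5 (by norm_num))
    calc C * (1 + Real.log L) ^ 4 ≤ (1 + C1 + C2) ^ 4 * ((1 + 1 / δ) * L ^ δ) ^ 4 := by
          gcongr
      _ = _ := by ring
  have e4 : ∀ (f : ℝ × ℝ → ℂ) (z : ℝ × ℝ),
      (∫⁻ _ : Unit, ‖f z‖ₑ ^ 2 ∂(Measure.dirac ())) ^ 2 = ‖f z‖ₑ ^ 4 := by
    intro f z
    rw [lintegral_dirac, ← pow_mul]
  by_cases h20 : 20 ≤ L
  · have h3 := h1 L h20 Unit (Measure.dirac ()) (fun _ => 1) measurable_const (fun _ => le_rfl)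
      (fun _ => g) (goodF hg)
    simp only [e4] at h3
    refine h3.trans ?_
    gcongr
    exact key C1 hC1 (by linarith)
  · have h3 := h2 L hL Unit (Measure.dirac ()) (fun _ => 1) measurable_const (fun _ => by
        rw [le_div_iff₀ (by positivity)]; nlinarith) (fun _ => g) (goodF hg)
    simp only [e4] at h3
    refine h3.trans ?_
    gcongr
    refine le_trans ?_ (key C2 hC2 (by linarith))
    have : 1 ≤ (1 + Real.log L) ^ 4 := one_le_pow₀ (by linarith)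
    nlinarith

/-- good functions, radius one -/
lemma good_one (δ : ℝ) (hδ : 0 < δ) : ∃ C : ℝ, 0 < C ∧ ∀ g : ℝ × ℝ → ℂ, Good g →
    eLpNorm (UB δ 1 g) 4 volume ≤ ENNReal.ofReal C * eLpNorm g 4 volume := by
  obtain ⟨ψ, hψ, hd⟩ := decomp δ hδ
  obtain ⟨C0, hC0, hb⟩ := piece_bound δ hδ hψ
  set Lj : ℕ → ℝ := fun j => Real.sqrt (2 ^ j) with hLj
  have hLsq : ∀ j, Lj j ^ 2 = 2 ^ j := fun j => Real.sq_sqrt (by positivity)
  have hL1 : ∀ j, 1 ≤ Lj j := fun j => by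
    rw [hLj]; simp only [Real.one_le_sqrt]; exact one_le_pow₀ (by norm_num)
  set a : ℕ → ℝ := fun j => C0 * Lj j ^ δ with ha
  have ha0 : ∀ j, 0 ≤ a j := fun j => by
    have : 0 < Lj j ^ δ := Real.rpow_pos_of_pos (by linarith [hL1 j]) _
    simp only [ha]
    positivity
  have hpiece : ∀ (j : ℕ) (g : ℝ × ℝ → ℂ), Good g →
      eLpNorm (Tj ψ (2 ^ j) g) 4 volume ≤ ENNReal.ofReal (a j) * eLpNorm g 4 volume := by
    intro j g hg
    rw [Tj_eq ψ (Lj j) (2 ^ j) (hLsq j)]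
    exact hb (Lj j) (hL1 j) g hg
  have hsum : Summable fun j : ℕ => (2 : ℝ) ^ (-(δ * j)) * a j := by
    have h2 : (fun j : ℕ => (2 : ℝ) ^ (-(δ * j)) * a j) =
        fun j : ℕ => C0 * ((2 : ℝ) ^ (-(δ / 2))) ^ j := by
      funext j
      simp only [ha, hLj]
      rw [Real.sqrt_eq_rpow, ← Real.rpow_mul (by positivity), ← Real.rpow_natCast 2 j,
        ← Real.rpow_mul (by norm_num), ← Real.rpow_natCast _ j, ← Real.rpow_mul (by norm_num)]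
      rw [show (2 : ℝ) ^ (-(δ * (j : ℝ))) * (C0 * 2 ^ ((j : ℝ) * (1 / 2 * δ))) =
        C0 * (2 ^ (-(δ * (j : ℝ))) * 2 ^ ((j : ℝ) * (1 / 2 * δ))) by ring,
        ← Real.rpow_add (by norm_num)]
      congr 2
      ring
    rw [h2]
    exact (summable_geometric_of_lt_one (Real.rpow_nonneg (by norm_num) _)
      (Real.rpow_lt_one_of_one_lt_of_neg (by norm_num) (by linarith))).mul_left _
  have h2n : ∀ j : ℕ, 0 ≤ (2 : ℝ) ^ (-(δ * j)) := fun j => Real.rpow_nonneg (by norm_num) _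
  have hs0 : 0 ≤ ∑' j : ℕ, (2 : ℝ) ^ (-(δ * j)) * a j :=
    tsum_nonneg fun j => mul_nonneg (h2n j) (ha0 j)
  refine ⟨∑' j : ℕ, (2 : ℝ) ^ (-(δ * j)) * a j + 1, by linarith, fun g hg => ?_⟩
  have hgi : Integrable g := good_int hg
  have hTc : ∀ j : ℕ, Continuous (Tj ψ (2 ^ j) g) := fun j => Tj_cont hψ (by positivity) hgi
  set P : ℕ → ℝ × ℝ → ℂ := fun J x => ∑ j ∈ Finset.range J,
    (((2 : ℝ) ^ (-(δ * j)) : ℝ) : ℂ) * Tj ψ (2 ^ j) g x with hP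
  have hPm : ∀ J, AEStronglyMeasurable (P J) volume := by
    intro J
    have : Continuous (P J) := by
      rw [hP]
      exact continuous_finsetSum _ fun j _ => continuous_const.mul (hTc j)
    exact this.aestronglyMeasurable
  have hPlim : ∀ x, Tendsto (fun J => P J x) atTop (𝓝 (UB δ 1 g x)) := fun x =>
    (hasSum_pieces δ hδ hψ hd hgi x).tendsto_sum_nat
  have hlim := Lp.eLpNorm_lim_le_liminf_eLpNorm (p := 4) hPm _
    (Filter.Eventually.of_forall hPlim)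
  refine hlim.trans ?_
  refine liminf_le_of_le (by isBoundedDefault) ?_
  intro b hb'
  obtain ⟨J, hJ⟩ := hb'.exists
  refine hJ.trans ?_
  calc eLpNorm (P J) 4 volume
      ≤ ∑ j ∈ Finset.range J, eLpNorm (fun x => (((2 : ℝ) ^ (-(δ * j)) : ℝ) : ℂ) *
          Tj ψ (2 ^ j) g x) 4 volume := by
        have h := eLpNorm_sum_le (μ := (volume : Measure (ℝ × ℝ))) (p := 4)
          (f := fun (j : ℕ) (x : ℝ × ℝ) => (((2 : ℝ) ^ (-(δ * j)) : ℝ) : ℂ) *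
          Tj ψ (2 ^ j) g x) (s := Finset.range J)
          (fun j _ => (continuous_const.mul (hTc j)).aestronglyMeasurable) (by norm_num)
        have e2 : (∑ j ∈ Finset.range J, fun (x : ℝ × ℝ) => (((2 : ℝ) ^ (-(δ * j)) : ℝ) : ℂ) *
          Tj ψ (2 ^ j) g x) = P J := by
          funext x; rw [Finset.sum_apply]
        rw [e2] at h
        exact h
    _ ≤ ∑ j ∈ Finset.range J, ENNReal.ofReal ((2 : ℝ) ^ (-(δ * j)) * a j) *
          eLpNorm g 4 volume := by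
        refine Finset.sum_le_sum fun j _ => ?_
        have h := eLpNorm_const_smul (((2 : ℝ) ^ (-(δ * j)) : ℝ) : ℂ)
          (Tj ψ (2 ^ j) g) (4 : ℝ≥0∞) (volume : Measure (ℝ × ℝ))
        have e3 : ‖(((2 : ℝ) ^ (-(δ * j)) : ℝ) : ℂ)‖ₑ = ENNReal.ofReal ((2 : ℝ) ^ (-(δ * j))) := by
          rw [← ofReal_norm, Complex.norm_real, Real.norm_of_nonneg (h2n j)]
        rw [e3] at h
        refine (le_of_eq h).trans ?_
        rw [ENNReal.ofReal_mul (h2n j), mul_assoc]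
        gcongr
        exact hpiece j g hg
    _ = ENNReal.ofReal (∑ j ∈ Finset.range J, (2 : ℝ) ^ (-(δ * j)) * a j) *
          eLpNorm g 4 volume := by
        rw [← Finset.sum_mul, ENNReal.ofReal_sum_of_nonneg]
        intro j _; exact mul_nonneg (h2n j) (ha0 j)
    _ ≤ ENNReal.ofReal (∑' j : ℕ, (2 : ℝ) ^ (-(δ * j)) * a j + 1) * eLpNorm g 4 volume := by
        gcongr
        have := hsum.sum_le_tsum (Finset.range J) fun j _ => mul_nonneg (h2n j) (ha0 j)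
        linarith

/-! ### approximation -/

/-- truncation -/
noncomputable def tr (g : ℝ × ℝ → ℂ) (k : ℕ) : ℝ × ℝ → ℂ :=
  {z : ℝ × ℝ | ‖g z‖ ≤ k ∧ |z.1| ≤ k ∧ |z.2| ≤ k}.indicator g

lemma tr_good {g : ℝ × ℝ → ℂ} (hg : Measurable g) (k : ℕ) : Good (tr g k) := by
  have hm : MeasurableSet {z : ℝ × ℝ | ‖g z‖ ≤ k ∧ |z.1| ≤ k ∧ |z.2| ≤ k} := by
    have h1 : MeasurableSet {z : ℝ × ℝ | ‖g z‖ ≤ (k : ℝ)} :=
      measurableSet_le hg.norm measurable_const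
    have h2 : MeasurableSet {z : ℝ × ℝ | |z.1| ≤ (k : ℝ)} :=
      measurableSet_le (by fun_prop : Continuous fun z : ℝ × ℝ => |z.1|).measurable
        measurable_const
    have h3 : MeasurableSet {z : ℝ × ℝ | |z.2| ≤ (k : ℝ)} :=
      measurableSet_le (by fun_prop : Continuous fun z : ℝ × ℝ => |z.2|).measurable
        measurable_const
    exact h1.inter (h2.inter h3)
  refine ⟨hg.indicator hm, ⟨k, fun z => ?_⟩, k, fun z hz => ?_⟩
  · by_cases h : z ∈ {z : ℝ × ℝ | ‖g z‖ ≤ k ∧ |z.1| ≤ k ∧ |z.2| ≤ k}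
    · rw [tr, indicator_of_mem h]; exact h.1
    · rw [tr, indicator_of_notMem h]; simp
  · by_contra hc
    apply hz
    rw [tr, indicator_of_notMem]
    intro h
    exact hc h.2

lemma tr_le (g : ℝ × ℝ → ℂ) (k : ℕ) (z : ℝ × ℝ) : ‖tr g k z‖ ≤ ‖g z‖ :=
  norm_indicator_le_norm_self _ _

lemma tr_lim (g : ℝ × ℝ → ℂ) (z : ℝ × ℝ) : Tendsto (fun k => tr g k z) atTop (𝓝 (g z)) := by
  refine tendsto_const_nhds.congr' ?_
  obtain ⟨K, hK⟩ := exists_nat_ge (max ‖g z‖ (max |z.1| |z.2|))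
  filter_upwards [eventually_ge_atTop K] with k hk
  have hk' : (K : ℝ) ≤ k := by exact_mod_cast hk
  rw [tr, indicator_of_mem]
  have h1 := (max_le_iff.1 hK).1
  have h2 := max_le_iff.1 (max_le_iff.1 hK).2
  exact ⟨h1.trans hk', h2.1.trans hk', h2.2.trans hk'⟩

lemma ub_mult_int (δ : ℝ) (hδ : 0 < δ) :
    Integrable fun ξ : ℝ × ℝ => (((max (1 - (ξ.1 ^ 2 + ξ.2 ^ 2)) 0) ^ δ : ℝ) : ℂ) := by
  refine rad_int (fun u => (max (1 - u) 0) ^ δ) ?_ ?_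
  · exact (by fun_prop : Continuous fun u : ℝ => max (1 - u) 0).rpow_const
      (fun _ => Or.inr hδ.le)
  · intro u hu
    rw [max_eq_right (by linarith), Real.zero_rpow hδ.ne']

lemma ub_cont (δ : ℝ) (hδ : 0 < δ) {g : ℝ × ℝ → ℂ} (hg : Integrable g) :
    Continuous (UB δ 1 g) := MO_cont (ub_mult_int δ hδ) hg

lemma ft2_lim {g : ℝ × ℝ → ℂ} (hm : Measurable g) (hg : Integrable g) (ξ : ℝ × ℝ) :
    Tendsto (fun k => ft2 (tr g k) ξ) atTop (𝓝 (ft2 g ξ)) := by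
  unfold ft2
  refine tendsto_integral_of_dominated_convergence (fun z => ‖g z‖) ?_ hg.norm ?_ ?_
  · intro k
    exact (ft2_int (good_int (tr_good hm k)) ξ).aestronglyMeasurable
  · intro k
    refine Filter.Eventually.of_forall fun z => ?_
    rw [norm_mul, norm_e, one_mul]
    exact tr_le g k z
  · refine Filter.Eventually.of_forall fun z => ?_
    exact (tr_lim g z).const_mul _

lemma ub_lim (δ : ℝ) (hδ : 0 < δ) {g : ℝ × ℝ → ℂ} (hm : Measurable g) (hg : Integrable g)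
    (z : ℝ × ℝ) : Tendsto (fun k => UB δ 1 (tr g k) z) atTop (𝓝 (UB δ 1 g z)) := by
  have hI := ub_mult_int δ hδ
  unfold UB
  refine tendsto_integral_of_dominated_convergence
    (fun ξ => ‖(((max (1 - (ξ.1 ^ 2 + ξ.2 ^ 2)) 0) ^ δ : ℝ) : ℂ)‖ * ∫ y, ‖g y‖) ?_
    (hI.norm.mul_const _) ?_ ?_
  · intro k
    exact (MO_int hI (good_int (tr_good hm k)) z).aestronglyMeasurable
  · intro k
    refine Filter.Eventually.of_forall fun ξ => ?_
    rw [norm_mul, norm_e, one_mul, norm_mul]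
    refine mul_le_mul_of_nonneg_left ?_ (norm_nonneg _)
    refine (ft2_bdd _ ξ).trans ?_
    exact integral_mono (good_int (tr_good hm k)).norm hg.norm fun y => tr_le g k y
  · refine Filter.Eventually.of_forall fun ξ => ?_
    exact ((ft2_lim hm hg ξ).const_mul _).const_mul _

lemma meas_one (δ : ℝ) (hδ : 0 < δ) : ∃ C : ℝ, 0 < C ∧ ∀ g : ℝ × ℝ → ℂ, Measurable g →
    Integrable g →
    ∫⁻ z : ℝ × ℝ, ‖UB δ 1 g z‖ₑ ^ 4 ≤ ENNReal.ofReal C * ∫⁻ z : ℝ × ℝ, ‖g z‖ₑ ^ 4 := by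
  obtain ⟨C, hC, h⟩ := good_one δ hδ
  refine ⟨C ^ 4, by positivity, fun g hm hg => ?_⟩
  have h1 : ∀ z, ‖UB δ 1 g z‖ₑ ^ 4 = liminf (fun k => ‖UB δ 1 (tr g k) z‖ₑ ^ 4) atTop := by
    intro z
    refine (Tendsto.liminf_eq ?_).symm
    exact ((ENNReal.continuous_pow 4).tendsto _).comp
      ((continuous_enorm.tendsto _).comp (ub_lim δ hδ hm hg z))
  calc ∫⁻ z : ℝ × ℝ, ‖UB δ 1 g z‖ₑ ^ 4
      = ∫⁻ z : ℝ × ℝ, liminf (fun k => ‖UB δ 1 (tr g k) z‖ₑ ^ 4) atTop := lintegral_congr h1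
    _ ≤ liminf (fun k => ∫⁻ z : ℝ × ℝ, ‖UB δ 1 (tr g k) z‖ₑ ^ 4) atTop := by
        refine lintegral_liminf_le fun k => ?_
        exact (ub_cont δ hδ (good_int (tr_good hm k))).measurable.enorm.pow_const 4
    _ ≤ ENNReal.ofReal (C ^ 4) * ∫⁻ z : ℝ × ℝ, ‖g z‖ₑ ^ 4 := by
        refine liminf_le_of_le (by isBoundedDefault) ?_
        intro b hb
        obtain ⟨k, hk⟩ := hb.exists
        refine hk.trans ?_
        have h2 := h (tr g k) (tr_good hm k)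
        have h3 : eLpNorm (tr g k) 4 volume ≤ eLpNorm g 4 volume :=
          eLpNorm_mono fun z => tr_le g k z
        rw [← enorm4, ← enorm4, ENNReal.ofReal_pow hC.le, ← mul_pow]
        gcongr
        exact h2.trans (by gcongr)

lemma int_one (δ : ℝ) (hδ : 0 < δ) : ∃ C : ℝ, 0 < C ∧ ∀ g : ℝ × ℝ → ℂ, Integrable g →
    ∫⁻ z : ℝ × ℝ, ‖UB δ 1 g z‖ₑ ^ 4 ≤ ENNReal.ofReal C * ∫⁻ z : ℝ × ℝ, ‖g z‖ₑ ^ 4 := by
  obtain ⟨C, hC, h⟩ := meas_one δ hδ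
  refine ⟨C, hC, fun g hg => ?_⟩
  obtain ⟨g', hm, hae⟩ := hg.aestronglyMeasurable.aemeasurable
  have h1 := h g' hm (hg.congr hae)
  have h2 : UB δ 1 g = UB δ 1 g' := by
    funext z
    unfold UB
    rw [ft2_congr hae]
  rw [h2]
  refine h1.trans (le_of_eq ?_)
  congr 1
  refine lintegral_congr_ae ?_
  filter_upwards [hae] with z hz
  rw [hz]

/-! ### scaling -/

lemma lint_smul {r : ℝ} (hr : 0 < r) (f : ℝ × ℝ → ℝ≥0∞) :
    ∫⁻ z : ℝ × ℝ, f (r • z) = ENNReal.ofReal ((r ^ 2)⁻¹) * ∫⁻ z : ℝ × ℝ, f z := by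
  have h1 := Measure.map_addHaar_smul (volume : Measure (ℝ × ℝ)) hr.ne'
  have hfin : Module.finrank ℝ (ℝ × ℝ) = 2 := by simp
  rw [hfin, abs_of_pos (by positivity)] at h1
  have hemb : MeasurableEmbedding (fun z : ℝ × ℝ => r • z) :=
    (Homeomorph.smulOfNeZero r hr.ne').measurableEmbedding
  have h2 := hemb.lintegral_map f (μ := (volume : Measure (ℝ × ℝ)))
  have h3 : Measure.map (fun z : ℝ × ℝ => r • z) volume =
      ENNReal.ofReal ((r ^ 2)⁻¹) • (volume : Measure (ℝ × ℝ)) := h1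
  rw [h3, lintegral_smul_measure, smul_eq_mul] at h2
  exact h2.symm

lemma int_smul {r : ℝ} (hr : 0 < r) (f : ℝ × ℝ → ℂ) :
    ∫ z : ℝ × ℝ, f z = ((r ^ 2 : ℝ) : ℂ) * ∫ z : ℝ × ℝ, f (r • z) := by
  have h := Measure.integral_comp_smul_of_nonneg (volume : Measure (ℝ × ℝ)) f r (hR := hr.le)
  have hfin : Module.finrank ℝ (ℝ × ℝ) = 2 := by simp
  rw [hfin] at h
  rw [h, Complex.real_smul, ← mul_assoc, ← Complex.ofReal_mul, mul_inv_cancel₀ (by positivity)]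
  simp

lemma ft2_scale {r : ℝ} (hr : 0 < r) (g : ℝ × ℝ → ℂ) (ξ : ℝ × ℝ) :
    ft2 (fun z => g (r⁻¹ • z)) ξ = ((r ^ 2 : ℝ) : ℂ) * ft2 g (r • ξ) := by
  unfold ft2
  rw [int_smul hr]
  congr 1
  refine integral_congr_ae (Filter.Eventually.of_forall fun z => ?_)
  simp only
  rw [smul_smul, inv_mul_cancel₀ hr.ne', one_smul]
  congr 2
  simp only [Prod.smul_fst, Prod.smul_snd, smul_eq_mul]
  ring

lemma UB_scale (δ : ℝ) {r : ℝ} (hr : 0 < r) (g : ℝ × ℝ → ℂ) (z : ℝ × ℝ) :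
    UB δ (r ^ 2) g z = (((r ^ 2) ^ δ : ℝ) : ℂ) * UB δ 1 (fun z => g (r⁻¹ • z)) (r • z) := by
  unfold UB
  rw [int_smul hr, ← integral_const_mul, ← integral_const_mul]
  refine integral_congr_ae (Filter.Eventually.of_forall fun ξ => ?_)
  simp only
  rw [ft2_scale hr]
  simp only [Prod.smul_fst, Prod.smul_snd, smul_eq_mul]
  have h1 : max (r ^ 2 - ((r * ξ.1) ^ 2 + (r * ξ.2) ^ 2)) 0 =
      r ^ 2 * max (1 - (ξ.1 ^ 2 + ξ.2 ^ 2)) 0 := by
    rw [mul_max_of_nonneg _ _ (by positivity), mul_zero]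
    congr 1; ring
  rw [h1, Real.mul_rpow (by positivity) (le_max_right _ _)]
  have h2 : z.1 * (r * ξ.1) + z.2 * (r * ξ.2) = r * z.1 * ξ.1 + r * z.2 * ξ.2 := by ring
  rw [h2]
  push_cast
  ring

theorem pl_thm : S_PL := by
  intro δ hδ
  obtain ⟨C, hC, h⟩ := int_one δ hδ
  refine ⟨C, hC, fun v g hv hg => ?_⟩
  rcases le_or_gt v 0 with hv0 | hv0
  · have h0 : ∀ z, UB δ v g z = 0 := by
      intro z
      unfold UB
      have : ∀ ξ : ℝ × ℝ, e (z.1 * ξ.1 + z.2 * ξ.2) *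
          ((((max (v - (ξ.1 ^ 2 + ξ.2 ^ 2)) 0) ^ δ : ℝ) : ℂ) * ft2 g ξ) = 0 := by
        intro ξ
        rw [max_eq_right (by nlinarith [sq_nonneg ξ.1, sq_nonneg ξ.2]), Real.zero_rpow hδ.ne']
        simp
      simp only [this, integral_zero]
    simp only [h0]
    simp
  · set r := Real.sqrt v with hr
    have hr0 : 0 < r := Real.sqrt_pos.2 hv0
    have hrv : r ^ 2 = v := Real.sq_sqrt hv0.le
    have hvd : v ^ δ ≤ 1 := Real.rpow_le_one hv0.le hv hδ.le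
    have hvd0 : 0 ≤ v ^ δ := Real.rpow_nonneg hv0.le _
    have hgs : Integrable (fun z => g (r⁻¹ • z)) := hg.comp_smul (inv_ne_zero hr0.ne')
    have h1 : ∀ z, ‖UB δ v g z‖ₑ ^ 4 ≤ ‖UB δ 1 (fun z => g (r⁻¹ • z)) (r • z)‖ₑ ^ 4 := by
      intro z
      have h2 := UB_scale δ hr0 g z
      rw [hrv] at h2
      have h3 : ‖UB δ v g z‖ₑ ≤ ‖UB δ 1 (fun z => g (r⁻¹ • z)) (r • z)‖ₑ := by
        rw [h2]
        rw [← ofReal_norm, ← ofReal_norm]
        refine ENNReal.ofReal_le_ofReal ?_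
        rw [norm_mul, Complex.norm_real, Real.norm_of_nonneg hvd0]
        nlinarith [norm_nonneg (UB δ 1 (fun z => g (r⁻¹ • z)) (r • z))]
      gcongr
    calc ∫⁻ z : ℝ × ℝ, ‖UB δ v g z‖ₑ ^ 4
        ≤ ∫⁻ z : ℝ × ℝ, ‖UB δ 1 (fun z => g (r⁻¹ • z)) (r • z)‖ₑ ^ 4 := lintegral_mono h1
      _ = ENNReal.ofReal ((r ^ 2)⁻¹) *
            ∫⁻ z : ℝ × ℝ, ‖UB δ 1 (fun z => g (r⁻¹ • z)) z‖ₑ ^ 4 :=
          lint_smul hr0 (fun z => ‖UB δ 1 (fun z => g (r⁻¹ • z)) z‖ₑ ^ 4)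
      _ ≤ ENNReal.ofReal ((r ^ 2)⁻¹) *
            (ENNReal.ofReal C * ∫⁻ z : ℝ × ℝ, ‖g (r⁻¹ • z)‖ₑ ^ 4) := by
          gcongr
          exact h _ hgs
      _ = ENNReal.ofReal C * ∫⁻ z : ℝ × ℝ, ‖g z‖ₑ ^ 4 := by
          rw [lint_smul (inv_pos.2 hr0) (fun z => ‖g z‖ₑ ^ 4), ← mul_assoc, ← mul_assoc,
            mul_comm (ENNReal.ofReal ((r ^ 2)⁻¹)) (ENNReal.ofReal C), mul_assoc (ENNReal.ofReal C),
            ← ENNReal.ofReal_mul (by positivity)]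
          have : (r ^ 2)⁻¹ * ((r⁻¹) ^ 2)⁻¹ = 1 := by
            field_simp
          rw [this, ENNReal.ofReal_one, mul_one]

end Pool.Agent.TH81.PL
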