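import Pool.Agent.TH387.EI.Defs

/-!
# Approximate transitivity from Kaplansky density (EI-5a, helper81 for helper387)
-/

set_option autoImplicit false

open scoped ComplexOrder InnerProductSpace

noncomputable section

namespace Pool.Agent.TH387.EI

universe u

theorem kap_vec : KapVecP.{u} := by
  intro A _ H _ _ _ ρ hρ ξ hξ η hη τ hτ
  set T : H →L[ℂ] H := ContinuousLinearMap.smulRight (innerSL ℂ ξ) η with hT
  have hTξ : T ξ = η := by
    rw [hT, ContinuousLinearMap.smulRight_apply, innerSL_apply_apply, inner_self_eq_norm_sq_to_K,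
      hξ]
    simp
  have hTn : ‖T‖ ≤ 1 := by
    rw [hT, ContinuousLinearMap.norm_smulRight_apply, innerSL_apply_norm, hξ, one_mul]
    exact hη
  obtain ⟨a, _, ha, h1⟩ := hρ (realPart T : H →L[ℂ] H) (realPart T).2
    ((realPart.norm_le T).trans hTn) {ξ} τ hτ
  obtain ⟨b, _, hb, h2⟩ := hρ (imaginaryPart T : H →L[ℂ] H) (imaginaryPart T).2
    ((imaginaryPart.norm_le T).trans hTn) {ξ} τ hτ
  have h1' := h1 ξ (Finset.mem_singleton_self ξ)
  have h2' := h2 ξ (Finset.mem_singleton_self ξ)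
  refine ⟨(1 / 2 : ℂ) • (a + Complex.I • b), ?_, ?_⟩
  · rw [norm_smul]
    have h3 : ‖a + Complex.I • b‖ ≤ 2 := by
      refine (norm_add_le _ _).trans ?_
      rw [norm_smul, Complex.norm_I, one_mul]
      linarith
    have h4 : ‖(1 / 2 : ℂ)‖ = 1 / 2 := by norm_num
    rw [h4]
    linarith
  · have e1 : (realPart T : H →L[ℂ] H) ξ + Complex.I • (imaginaryPart T : H →L[ℂ] H) ξ = η := by
      have h5 := realPart_add_I_smul_imaginaryPart T
      have h6 := congrArg (fun S : H →L[ℂ] H => S ξ) h5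
      simp only [ContinuousLinearMap.add_apply, ContinuousLinearMap.smul_apply] at h6
      rw [h6, hTξ]
    have e2 : ρ ((1 / 2 : ℂ) • (a + Complex.I • b)) ξ - (1 / 2 : ℂ) • η =
        (1 / 2 : ℂ) • ((ρ a ξ - (realPart T : H →L[ℂ] H) ξ) +
          Complex.I • (ρ b ξ - (imaginaryPart T : H →L[ℂ] H) ξ)) := by
      rw [← e1, map_smul, map_add, map_smul]
      simp only [ContinuousLinearMap.add_apply, ContinuousLinearMap.smul_apply]
      module
    rw [e2, norm_smul]
    have h3 : ‖(ρ a ξ - (realPart T : H →L[ℂ] H) ξ) +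
          Complex.I • (ρ b ξ - (imaginaryPart T : H →L[ℂ] H) ξ)‖ ≤ 2 * τ := by
      refine (norm_add_le _ _).trans ?_
      rw [norm_smul, Complex.norm_I, one_mul]
      linarith
    have h4 : ‖(1 / 2 : ℂ)‖ = 1 / 2 := by norm_num
    rw [h4]
    linarith

end Pool.Agent.TH387.EI
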