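import Pool.Agent.TH694.GP.Defs

set_option autoImplicit false

/-!
# Globally rigid pinning, piece X2: validity after the exchange, if no body crosses (helper81)
-/

namespace Pool.Agent.TH81.GP

open Pool.Agent.TH694.GP
open Pool.Agent.H598R2.Cnt

variable {V : Type*} [DecidableEq V]

/-- the bodies which meet `X` -/
def Bin (𝓑 : Finset (Finset V)) (X : Finset V) : Finset (Finset V) :=
  𝓑.filter (fun B => (B ∩ X).Nonempty)

/-- the bodies which do not meet `X` -/
def Bout (𝓑 : Finset (Finset V)) (X : Finset V) : Finset (Finset V) :=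
  𝓑.filter (fun B => ¬ (B ∩ X).Nonempty)

theorem bb_split (𝓑 : Finset (Finset V)) (X Z : Finset V) :
    bb 𝓑 Z = bb (Bin 𝓑 X) Z + bb (Bout 𝓑 X) Z := by
  unfold bb Bin Bout
  rw [← Finset.sum_filter_add_sum_filter_not (𝓑.filter fun B => (B ∩ Z).Nonempty)
    (fun B => (B ∩ X).Nonempty)]
  rw [Finset.filter_filter, Finset.filter_filter, Finset.filter_filter, Finset.filter_filter]
  congr 1 <;> refine Finset.sum_congr (Finset.filter_congr fun B _ => ?_) fun _ _ => rfl <;> tauto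

theorem bb_le_sum (𝓑 : Finset (Finset V)) (Z : Finset V) : bb 𝓑 Z ≤ ∑ B ∈ 𝓑, (2 * B.card - 3) :=
  Finset.sum_le_sum_of_subset (Finset.filter_subset _ _)

/-- the total rank of the bodies which meet `X` -/
theorem sum_in {U : Finset V} {Γ 𝓑 : Finset (Finset V)} (hB : Bodies U Γ 𝓑) {X N : Finset V}
    (hX : X.Nonempty) (hN : N.card = 2) (hXV : Val 𝓑 X)
    (hin : ∀ B ∈ 𝓑, (B ∩ X).Nonempty → B ⊆ X ∪ N) :
    ∑ B ∈ Bin 𝓑 X, (2 * B.card - 3) = 2 * X.card + 1 := by
  have h1 : 2 * X.card + 1 ≤ ∑ B ∈ Bin 𝓑 X, (2 * B.card - 3) := hXV X subset_rfl hX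
  have hne : (Bin 𝓑 X).Nonempty := by
    rw [Finset.nonempty_iff_ne_empty]
    intro h
    rw [h, Finset.sum_empty] at h1
    omega
  have h2 := hB.cnt (Bin 𝓑 X) (Finset.filter_subset _ _) hne
  have h3 : (Bin 𝓑 X).biUnion id ⊆ X ∪ N := by
    rw [Finset.biUnion_subset]
    intro B hB'
    exact hin B (Finset.mem_filter.1 hB').1 (Finset.mem_filter.1 hB').2
  have h4 := (Finset.card_le_card h3).trans (Finset.card_union_le X N)
  omega

/-- the bodies which meet `T` -/
theorem in_ge {U : Finset V} {Γ 𝓑 : Finset (Finset V)} (hB : Bodies U Γ 𝓑) {X N : Finset V}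
    (hX : X.Nonempty) (hN : N.card = 2) (hXV : Val 𝓑 X)
    (hin : ∀ B ∈ 𝓑, (B ∩ X).Nonempty → B ⊆ X ∪ N) {T : Finset V} (hT : T ⊆ X ∪ N) :
    2 * X.card + 1 ≤ bb (Bin 𝓑 X) T ∨ 2 * T.card ≤ bb (Bin 𝓑 X) T := by
  have hs := sum_in hB hX hN hXV hin
  have h1 : bb (Bin 𝓑 X) T + ∑ B ∈ (Bin 𝓑 X).filter (fun B => ¬ (B ∩ T).Nonempty),
      (2 * B.card - 3) = ∑ B ∈ Bin 𝓑 X, (2 * B.card - 3) :=
    Finset.sum_filter_add_sum_filter_not _ _ _
  by_cases hne : ((Bin 𝓑 X).filter (fun B => ¬ (B ∩ T).Nonempty)).Nonempty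
  · right
    have h2 := hB.cnt ((Bin 𝓑 X).filter (fun B => ¬ (B ∩ T).Nonempty))
      ((Finset.filter_subset _ _).trans (Finset.filter_subset _ _)) hne
    have h3 : ((Bin 𝓑 X).filter (fun B => ¬ (B ∩ T).Nonempty)).biUnion id ⊆ (X ∪ N) \ T := by
      rw [Finset.biUnion_subset]
      intro B hB'
      obtain ⟨h4, h5⟩ := Finset.mem_filter.1 hB'
      have h6 := hin B (Finset.mem_filter.1 h4).1 (Finset.mem_filter.1 h4).2
      intro x hx
      rw [Finset.mem_sdiff]
      exact ⟨h6 hx, fun h7 => h5 ⟨x, Finset.mem_inter.2 ⟨hx, h7⟩⟩⟩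
    have h4 := Finset.card_le_card h3
    rw [Finset.card_sdiff_of_subset hT] at h4
    have h5 := Finset.card_union_le X N
    have h6 := Finset.card_le_card hT
    omega
  · left
    rw [Finset.not_nonempty_iff_eq_empty] at hne
    rw [hne, Finset.sum_empty] at h1
    omega

/-- validity after the exchange, if no body crosses -/
theorem val_caseA {U : Finset V} {Γ 𝓑 : Finset (Finset V)} (hB : Bodies U Γ 𝓑) {P P' X : Finset V}
    (hX : Sepd U Γ X) (h2 : (Nb U Γ X).card = 2) (hXV : Val 𝓑 X)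
    (hin : ∀ B ∈ 𝓑, (B ∩ X).Nonempty → B ⊆ X ∪ Nb U Γ X)
    (hPU : P ⊆ U) (hV : Val 𝓑 (U \ P)) (hPX : (P ∩ X).Nonempty) {r : V} (hr : r ∈ X)
    (hr' : r ∈ P') (hPP : P \ X ⊆ P')
    (hnd : ∀ s ∈ Nb U Γ X, s ∉ P' → ∃ w ∈ U \ (X ∪ Nb U Γ X), {s, w} ∈ Γ)
    (hone : (Nb U Γ X ∩ P').Nonempty ∨ (P ∩ X).card = 1) :
    Val 𝓑 (U \ P') := by
  obtain ⟨hXU, hXne, -, -⟩ := hX
  obtain ⟨N, hN⟩ : ∃ N, N = Nb U Γ X := ⟨_, rfl⟩
  have hNX : ∀ x ∈ N, x ∉ X := by
    intro x hx
    rw [hN, mem_Nb] at hx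
    exact hx.2.1
  rw [← hN] at h2 hin hnd hone
  have hs := sum_in hB hXne h2 hXV hin
  intro Z hZ hZne
  have hZU : ∀ x ∈ Z, x ∈ U ∧ x ∉ P' := fun x hx => Finset.mem_sdiff.1 (hZ hx)
  have hZP : ∀ x ∈ Z, x ∉ X → x ∉ P := fun x hx hxX hxP =>
    (hZU x hx).2 (hPP (Finset.mem_sdiff.2 ⟨hxP, hxX⟩))
  -- the three parts
  have hcard : Z.card = (Z ∩ X).card + (Z ∩ N).card + (Z \ (X ∪ N)).card := by
    have h3 := Finset.card_inter_add_card_sdiff Z (X ∪ N)
    have h4 : Z ∩ (X ∪ N) = (Z ∩ X) ∪ (Z ∩ N) := Finset.inter_union_distrib_left _ _ _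
    have h5 : Disjoint (Z ∩ X) (Z ∩ N) := by
      rw [Finset.disjoint_left]
      intro x hx hx'
      exact hNX x (Finset.mem_inter.1 hx').2 (Finset.mem_inter.1 hx).2
    rw [h4, Finset.card_union_of_disjoint h5] at h3
    omega
  have hY : (Z ∩ X).card + 1 ≤ X.card := by
    have h3 : Z ∩ X ⊆ X.erase r := by
      intro x hx
      rw [Finset.mem_inter] at hx
      rw [Finset.mem_erase]
      exact ⟨fun h => (hZU x hx.1).2 (h ▸ hr'), hx.2⟩
    have h4 := Finset.card_le_card h3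
    rw [Finset.card_erase_of_mem hr] at h4
    have h5 : 0 < X.card := Finset.card_pos.2 hXne
    omega
  have hWP : Z \ (X ∪ N) ⊆ U \ P := by
    intro x hx
    rw [Finset.mem_sdiff, Finset.mem_union] at hx
    push Not at hx
    exact Finset.mem_sdiff.2 ⟨(hZU x hx.1).1, hZP x hx.1 hx.2.1⟩
  have hsplit := bb_split 𝓑 X Z
  -- the outer part
  have hout : (Z \ (X ∪ N)).Nonempty → 2 * (Z \ (X ∪ N)).card + 1 ≤ bb (Bout 𝓑 X) Z := by
    intro hne
    have h3 := hV _ hWP hne
    refine h3.trans ?_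
    unfold bb
    apply Finset.sum_le_sum_of_subset
    intro B hB'
    rw [Finset.mem_filter] at hB' ⊢
    obtain ⟨h4, x, hx⟩ := hB'
    rw [Finset.mem_inter, Finset.mem_sdiff] at hx
    refine ⟨Finset.mem_filter.2 ⟨h4, fun h5 => ?_⟩, x, Finset.mem_inter.2 ⟨hx.1, hx.2.1⟩⟩
    exact hx.2.2 (hin B h4 h5 hx.1)
  -- the inner part
  have hYS : (Z ∩ X) ∪ (Z ∩ N) ⊆ X ∪ N :=
    Finset.union_subset_union Finset.inter_subset_right Finset.inter_subset_right
  have hYScard : ((Z ∩ X) ∪ (Z ∩ N)).card = (Z ∩ X).card + (Z ∩ N).card := by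
    rw [Finset.card_union_of_disjoint]
    rw [Finset.disjoint_left]
    intro x hx hx'
    exact hNX x (Finset.mem_inter.1 hx').2 (Finset.mem_inter.1 hx).2
  have hinn : 2 * X.card + 1 ≤ bb (Bin 𝓑 X) Z ∨
      2 * ((Z ∩ X).card + (Z ∩ N).card) ≤ bb (Bin 𝓑 X) Z := by
    have h3 := in_ge hB hXne h2 hXV hin hYS
    have h4 : bb (Bin 𝓑 X) ((Z ∩ X) ∪ (Z ∩ N)) ≤ bb (Bin 𝓑 X) Z :=
      bb_mono _ (Finset.union_subset Finset.inter_subset_left Finset.inter_subset_left)
    rw [hYScard] at h3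
    omega
  have hS2 : (Z ∩ N).card ≤ 2 := by
    have := Finset.card_le_card (Finset.inter_subset_right (s₁ := Z) (s₂ := N))
    omega
  rcases Nat.eq_zero_or_pos (Z ∩ N).card with hS | hS
  · -- no neighbour
    by_cases hW : (Z \ (X ∪ N)).Nonempty
    · have := hout hW
      omega
    · have h3 : Z ⊆ X := by
        intro x hx
        by_contra hxX
        by_cases hxN : x ∈ N
        · exact absurd (Finset.card_pos.2 ⟨x, Finset.mem_inter.2 ⟨hx, hxN⟩⟩) (by omega)
        · exact hW ⟨x, Finset.mem_sdiff.2 ⟨hx, by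
            rw [Finset.mem_union]; exact fun h => h.elim hxX hxN⟩⟩
      exact hXV Z h3 hZne
  · rcases Nat.lt_or_ge (Z ∩ N).card 2 with hS' | hS'
    · -- one neighbour
      have hS1 : (Z ∩ N).card = 1 := by omega
      by_cases hW : (Z \ (X ∪ N)).Nonempty
      · have := hout hW
        omega
      · have hW0 : (Z \ (X ∪ N)).card = 0 := by
          rw [Finset.card_eq_zero, ← Finset.not_nonempty_iff_eq_empty]
          exact hW
        obtain ⟨s, hs1⟩ := Finset.card_pos.1 hS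
        rw [Finset.mem_inter] at hs1
        obtain ⟨w, hw, hsw⟩ := hnd s hs1.2 (hZU s hs1.1).2
        rw [Finset.mem_sdiff] at hw
        obtain ⟨B, hB1, hB2⟩ := hB.cover _ hsw
        have hsB : s ∈ B := hB2 (Finset.mem_insert_self _ _)
        have hwB : w ∈ B := hB2 (Finset.mem_insert_of_mem (Finset.mem_singleton_self _))
        have h3 : B ∈ (Bout 𝓑 X).filter (fun B => (B ∩ Z).Nonempty) := by
          rw [Finset.mem_filter]
          exact ⟨Finset.mem_filter.2 ⟨hB1, fun h4 => hw.2 (hin B hB1 h4 hwB)⟩,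
            s, Finset.mem_inter.2 ⟨hsB, hs1.1⟩⟩
        have h4 : 2 * B.card - 3 ≤ bb (Bout 𝓑 X) Z :=
          Finset.single_le_sum (f := fun B : Finset V => 2 * B.card - 3)
            (fun _ _ => Nat.zero_le _) h3
        have h5 := hB.two B hB1
        omega
    · -- two neighbours
      have hSN : Z ∩ N = N := Finset.eq_of_subset_of_card_le Finset.inter_subset_right (by omega)
      have hNZ : N ⊆ Z := by
        rw [← hSN]
        exact Finset.inter_subset_left
      have hone' : (P ∩ X).card = 1 := by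
        rcases hone with ⟨x, hx⟩ | h
        · rw [Finset.mem_inter] at hx
          exact absurd hx.2 (hZU x (hNZ hx.1)).2
        · exact h
      have hZ'sub : (X \ P) ∪ (N ∪ (Z \ (X ∪ N))) ⊆ U \ P := by
        refine Finset.union_subset (Finset.sdiff_subset_sdiff hXU subset_rfl)
          (Finset.union_subset ?_ hWP)
        intro x hx
        exact Finset.mem_sdiff.2 ⟨(hZU x (hNZ hx)).1, hZP x (hNZ hx) (hNX x hx)⟩
      have hNne : N.Nonempty := Finset.card_pos.1 (by omega)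
      have h3 := hV _ hZ'sub (by
        obtain ⟨x, hx⟩ := hNne
        exact ⟨x, Finset.mem_union_right _ (Finset.mem_union_left _ hx)⟩)
      have h4 : ((X \ P) ∪ (N ∪ (Z \ (X ∪ N)))).card =
          (X \ P).card + (N.card + (Z \ (X ∪ N)).card) := by
        rw [Finset.card_union_of_disjoint, Finset.card_union_of_disjoint]
        · rw [Finset.disjoint_left]
          intro x hx hx'
          rw [Finset.mem_sdiff, Finset.mem_union] at hx'
          exact hx'.2 (Or.inr hx)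
        · rw [Finset.disjoint_left]
          intro x hx hx'
          rw [Finset.mem_sdiff] at hx
          rw [Finset.mem_union, Finset.mem_sdiff, Finset.mem_union] at hx'
          rcases hx' with h | h
          · exact hNX x h hx.1
          · exact h.2 (Or.inl hx.1)
      have h5 : (X \ P).card + 1 = X.card := by
        have := Finset.card_inter_add_card_sdiff X P
        rw [Finset.inter_comm] at this
        omega
      have h6 := bb_split 𝓑 X ((X \ P) ∪ (N ∪ (Z \ (X ∪ N))))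
      have h7 := bb_le_sum (Bin 𝓑 X) ((X \ P) ∪ (N ∪ (Z \ (X ∪ N))))
      have h8 : bb (Bout 𝓑 X) ((X \ P) ∪ (N ∪ (Z \ (X ∪ N)))) ≤ bb (Bout 𝓑 X) Z := by
        unfold bb
        apply Finset.sum_le_sum_of_subset
        intro B hB'
        rw [Finset.mem_filter] at hB' ⊢
        obtain ⟨h9, x, hx⟩ := hB'
        refine ⟨h9, x, ?_⟩
        rw [Finset.mem_inter, Finset.mem_union, Finset.mem_union] at hx
        obtain ⟨hxB, hx⟩ := hx
        have h10 := (Finset.mem_filter.1 h9).2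
        rcases hx with h | h | h
        · exact absurd ⟨x, Finset.mem_inter.2 ⟨hxB, (Finset.mem_sdiff.1 h).1⟩⟩ h10
        · exact Finset.mem_inter.2 ⟨hxB, hNZ h⟩
        · exact Finset.mem_inter.2 ⟨hxB, (Finset.mem_sdiff.1 h).1⟩
      omega

end Pool.Agent.TH81.GP
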