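import Pool.Agent.TH806.LS.Defs
import Pool.Agent.TH112.LK_U2
import Pool.Agent.TH328.LK_ALG

set_option autoImplicit false

/-! Job LS U13 (helper806): the first and the third upper bound, for the squares `NS` (port of
helper112, by helper81). -/

namespace Pool.Agent.TH81.LS_U13s

open Finset Filter Topology MeasureTheory Complex
open Pool.Agent.W184.NZ
open Pool.Agent.TH806
open Pool.Agent.TH806.LK
open Pool.Agent.TH806.LS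
open Pool.Agent.TH112.LKC
open Pool.Agent.TH112.LK_U13
open Pool.Agent.H306R2.SM (om cl Yf)
open Pool.Agent.H262R4.TM (Rng Ck)

noncomputable section

/-! ### conjugation and squares -/

lemma NS_conj (K : ℕ) (a : ℝ) (z : ℂ) : starRingEnd ℂ (NS K a z) = NS K a (starRingEnd ℂ z) := by
  unfold NS
  rw [map_pow, NC_conj]
  simp only [map_div₀, Complex.conj_ofReal, map_ofNat]

/-- the basic square identity -/
lemma sq_ids (J : ℕ) (K : ℕ → ℕ) (a u : ℝ) (h : ℝ → ℝ) (σ : ℝ) (hσ : ∀ θ, h (-θ) = σ * h θ)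
    (Q : ℕ → ℝ → ℂ → ℂ) (hQ : ∀ i θ z, starRingEnd ℂ (Q i θ z) = Q i (-θ) z) (z : ℕ → ℂ) (X : ℂ) :
    ((‖∏ i ∈ range J, NS (K i) a (z i)‖ ^ 2 * ‖FI h u (fun θ => ∏ i ∈ range J, Q i θ (z i))‖ ^ 2 : ℝ) : ℂ) * X =
      σ * ∫ θ₁ in (-1:ℝ)..1, ∫ θ₂ in (-1:ℝ)..1, ((h θ₁ * h θ₂ : ℝ) : ℂ) *
        (Complex.exp (-(((θ₁ + θ₂) * u : ℝ) : ℂ) * I) *
          ((∏ i ∈ range J, (NS (K i) a (z i) * NS (K i) a (starRingEnd ℂ (z i)) *
            (Q i θ₁ (z i) * Q i θ₂ (z i)))) * X)) := by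
  have e1 : ((‖∏ i ∈ range J, NS (K i) a (z i)‖ ^ 2 : ℝ) : ℂ) =
      ∏ i ∈ range J, (NS (K i) a (z i) * NS (K i) a (starRingEnd ℂ (z i))) := by
    rw [Complex.ofReal_pow, ← Complex.mul_conj', map_prod, ← prod_mul_distrib]
    refine prod_congr rfl fun i _ => ?_
    rw [NS_conj]
  have e2 : ((‖FI h u (fun θ => ∏ i ∈ range J, Q i θ (z i))‖ ^ 2 : ℝ) : ℂ) =
      σ * (FI h u (fun θ => ∏ i ∈ range J, Q i θ (z i)) * FI h u (fun θ => ∏ i ∈ range J, Q i θ (z i))) := by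
    rw [Complex.ofReal_pow, ← Complex.mul_conj', FI_conj h u _ _ σ hσ]
    · ring
    · intro θ
      rw [map_prod]
      exact prod_congr rfl fun i _ => hQ i θ _
  rw [Complex.ofReal_mul, e1, e2, FI_mul]
  set A := ∏ i ∈ range J, (NS (K i) a (z i) * NS (K i) a (starRingEnd ℂ (z i))) with hA
  rw [show ∀ y : ℂ, A * (σ * y) * X = σ * ((A * X) * y) by intro y; ring, ← intervalIntegral.integral_const_mul]
  congr 1
  refine intervalIntegral.integral_congr fun θ₁ _ => ?_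
  rw [← intervalIntegral.integral_const_mul]
  refine intervalIntegral.integral_congr fun θ₂ _ => ?_
  have e3 : ∏ i ∈ range J, (NS (K i) a (z i) * NS (K i) a (starRingEnd ℂ (z i)) * (Q i θ₁ (z i) * Q i θ₂ (z i))) =
      A * ((∏ i ∈ range J, Q i θ₁ (z i)) * ∏ i ∈ range J, Q i θ₂ (z i)) := by
    rw [hA, ← prod_mul_distrib, ← prod_mul_distrib]
  rw [e3]
  ring

/-! ### the factors -/

/-- the factors, with the special factor at `i₀` -/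
def GS (k : ℕ) (K R : ℕ → ℕ) (a : ℝ) (i₀ i : ℕ) (θ₁ θ₂ : ℝ) (z : ℂ) : ℂ :=
  if i = i₀ then (if k = 0 then BBs (K i) (R i) a θ₁ θ₂ z else BEs (K i) a θ₁ θ₂ z) else BFs (K i) a a θ₁ θ₂ z

lemma GS_cont (k : ℕ) (K R : ℕ → ℕ) (a : ℝ) (i₀ i : ℕ) :
    Continuous fun x : ℝ × ℝ × ℂ => GS k K R a i₀ i x.1 x.2.1 x.2.2 := by
  unfold GS
  split_ifs
  · unfold BBs BFs NS pf NC; fun_prop
  · unfold BEs NS TD NC; fun_prop
  · unfold BFs NS pf NC; fun_prop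

lemma GS_PB (hA : P_ALGs) {n : ℕ} (hn : 1 ≤ n) {Rs : ℕ} (hRs : 1 ≤ Rs) {a : ℝ} (ha : |a| ≤ n) (k i₀ i : ℕ)
    {θ₁ θ₂ : ℝ} (h₁ : θ₁ ∈ Set.Icc (-1:ℝ) 1) (h₂ : θ₂ ∈ Set.Icc (-1:ℝ) 1) :
    PB (5 * KK n Rs i) (GS k (KK n Rs) (RR Rs) a i₀ i θ₁ θ₂) ∧ Sym (GS k (KK n Rs) (RR Rs) a i₀ i θ₁ θ₂) := by
  obtain ⟨hA1, -, hA3, -⟩ := Pool.Agent.TH328.LK_ALG.t_ALG
  have hR : 2 ≤ RR Rs i := by unfold RR; omega
  have hK0 : n * RR Rs i * 20 = KK n Rs i := by unfold KK; ring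
  have hK1 : RR Rs i ≤ n * RR Rs i := Nat.le_mul_of_pos_left _ hn
  have hK2 : n * 2 ≤ n * RR Rs i := Nat.mul_le_mul_left _ hR
  have hnK : n + 1 ≤ KK n Rs i := by omega
  obtain ⟨g1, g2, g3, g4, g5, g6⟩ := hA n (KK n Rs i) (RR Rs i) a a θ₁ θ₂ hn hnK (by omega) ha ha
    (abs_le.mpr ⟨h₁.1, h₁.2⟩) (abs_le.mpr ⟨h₂.1, h₂.2⟩)
  unfold GS
  by_cases hi : i = i₀
  · by_cases hk : k = 0
    · simp only [hi, hk, if_true]
      rw [← hi]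
      exact ⟨hA3 _ _ _ (by omega) g2, g5⟩
    · simp only [hi, hk, if_true, if_false]
      rw [← hi]
      exact ⟨hA3 _ _ _ (by omega) g3, g6⟩
  · simp only [hi, if_false]
    refine ⟨hA3 (4 * KK n Rs i) _ _ (by omega) (hA1 _ ((n:ℝ) + 1) _ (by positivity) ?_ g1), g4⟩
    have : ((n + 1 : ℕ) : ℝ) ≤ ((KK n Rs i : ℕ) : ℝ) := by exact_mod_cast hnK
    push_cast at this ⊢
    linarith

lemma len_le {n Rs : ℕ} {y T : ℝ} (hy : 1 ≤ y) (J : ℕ)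
    (h : n * ((Rs:ℝ) + 1) * Real.log y ≤ 1 / 40000 * Real.log T) :
    ∑ i ∈ range J, ((5 * KK n Rs i : ℕ) : ℝ) * Real.log (bb y i) ≤ 1 / 100 * Real.log T := by
  have h1 : ∀ i ∈ range J, ((5 * KK n Rs i : ℕ) : ℝ) * Real.log (bb y i) =
      200 * n * Real.log y * (((Rs:ℝ) + i) * (1 / 4) ^ i) := by
    intro i _
    rw [log_bb]; unfold KK RR; push_cast; ring
  rw [sum_congr rfl h1, ← mul_sum]
  have h2 := geo_sum Rs J
  have h3 := Real.log_nonneg hy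
  calc 200 * n * Real.log y * ∑ i ∈ range J, ((Rs:ℝ) + i) * (1 / 4) ^ i ≤ 200 * n * Real.log y * (2 * ((Rs:ℝ) + 1)) :=
        mul_le_mul_of_nonneg_left h2 (by positivity)
    _ = 400 * (n * ((Rs:ℝ) + 1) * Real.log y) := by ring
    _ ≤ 400 * (1 / 40000 * Real.log T) := by linarith
    _ = _ := by ring

theorem core (hA : P_ALGs) (hL : P_LAW) (hP : P_PRDs) (hG : P_UPG) (n : ℕ) (c : ℝ) (hn : 1 ≤ n) (hc : 0 ≤ c) :
    ∃ (P₀ : ℕ) (C : ℝ), 0 < C ∧ ∀ Rs : ℕ, 1 ≤ Rs → ∀ᶠ T : ℝ in atTop, 0 < T ∧ ∀ κ : ℕ, Rng T κ →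
      0 < (κ:ℝ) / T ∧
      ∀ (y : ℝ) (J : ℕ) (I : ℕ → Finset ℕ), Cfg c 1 P₀ y J I →
        n * ((Rs:ℝ) + 1) * Real.log y ≤ 1 / 40000 * Real.log T → ∀ a u : ℝ, |a| ≤ n →
        ∀ h : ℝ → ℝ, Continuous h → (∀ θ ∈ Set.Icc (-1:ℝ) 1, |h θ| ≤ 1) → ∀ k : ℕ,
          ‖∫ t in Set.Ioi (0:ℝ), ((om κ (κ / T) t : ℝ) : ℂ) *
            DI J h u (GS k (KK n Rs) (RR Rs) a J) (zz I t)‖ ≤ C * WW (a ^ 2) (VV I J) ∧
          ∀ i₀ < J, ‖∫ t in Set.Ioi (0:ℝ), ((om κ (κ / T) t : ℝ) : ℂ) *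
            DI J h u (GS k (KK n Rs) (RR Rs) a i₀) (zz I t)‖ ≤
              C * Real.exp (-(RR Rs i₀ : ℝ)) * WW (a ^ 2) (VV I J) := by
  have hQ : (1:ℝ) ≤ 8 * n + 8 := by
    have : (0:ℝ) ≤ n := Nat.cast_nonneg n
    linarith
  obtain ⟨P₀, C, hP₀, hC1, hL⟩ := hL (8 * n + 8) hQ
  obtain ⟨C₃, hC₃, hP⟩ := hP n c C hn hc
  obtain ⟨C₀, hC₀, hG⟩ := hG
  refine ⟨P₀, C₀ * C₃ + 4, by positivity, fun Rs hRs => ?_⟩
  filter_upwards [hG, err_ev c hc Rs, eventually_gt_atTop (1:ℝ)] with T hG herr hT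
  refine ⟨by linarith, fun κ hκ => ?_⟩
  have hT0 : 0 < T := by linarith
  have hlog : 0 < Real.log T := Real.log_pos hT
  have hκ0 : (0:ℝ) < κ := lt_of_lt_of_le (by positivity) hκ.1
  refine ⟨by positivity, fun y J I hC hlen a u ha h hhc hh1 k => ?_⟩
  have hν : ∀ i, ∃ ν, LW w0 0 0 (8 * n + 8) C (I i) ν := fun i =>
    (hL (I i) fun p hp => ⟨(hC.rg.pr i p hp).1, hC.P i p hp⟩).1
  choose ν hν using hν
  have hy1 : 1 ≤ y := by linarith [hC.y1]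
  have hly0 : 0 ≤ Real.log y := Real.log_nonneg hy1
  have hn1 : (1:ℝ) ≤ n := by exact_mod_cast hn
  have hRs0 : (0:ℝ) ≤ Rs := Nat.cast_nonneg _
  have hly : Real.log y ≤ Real.log T := by
    have e1 : 1 * Real.log y ≤ n * ((Rs:ℝ) + 1) * Real.log y := by
      refine mul_le_mul_of_nonneg_right ?_ hly0
      nlinarith
    linarith
  obtain ⟨herr1, herr2⟩ := herr y J I 1 P₀ hC hly (a ^ 2) (sq_nonneg a)
  have main : ∀ (i₀ : ℕ) (M : ℝ), 0 ≤ M → (∀ θ₁ ∈ Set.Icc (-1:ℝ) 1, ∀ θ₂ ∈ Set.Icc (-1:ℝ) 1,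
      ∏ i ∈ range J, ‖∫ q, q.2 * GS k (KK n Rs) (RR Rs) a i₀ i θ₁ θ₂ q.1 ∂(ν i)‖ ≤
        M * Real.exp ((a ^ 2 - (θ₁ + θ₂) ^ 2 / 4) * VV I J)) →
      ‖∫ t in Set.Ioi (0:ℝ), ((om κ (κ / T) t : ℝ) : ℂ) *
            DI J h u (GS k (KK n Rs) (RR Rs) a i₀) (zz I t)‖ ≤
        C₀ * M * WW (a ^ 2) (VV I J) + 4 * T ^ (-(1 / 2) : ℝ) := by
    intro i₀ M hM hprod
    refine hG κ hκ c (8 * n + 8) C J I (bb y) (fun i => 5 * KK n Rs i)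
      (fun i => GS k (KK n Rs) (RR Rs) a i₀ i) ν h h u (a ^ 2) M hC.rg (fun i _ => hν i) (fun i _ => ?_)
      (fun i _ θ₁ h₁ θ₂ h₂ => GS_PB hA hn hRs ha k i₀ i h₁ h₂) (fun i _ => GS_cont _ _ _ _ _ _) hhc hhc
      (fun θ hθ => ⟨hh1 θ hθ, hh1 θ hθ⟩) hM (len_le hy1 J hlen) hprod
    have : 1 * 1 ≤ n * RR Rs i := Nat.mul_le_mul hn (by unfold RR; omega)
    unfold KK
    nlinarith
  have hP1 : ∀ θ₁ ∈ Set.Icc (-1:ℝ) 1, ∀ θ₂ ∈ Set.Icc (-1:ℝ) 1, _ := fun θ₁ h₁ θ₂ h₂ =>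
    hP J Rs I (bb y) ν hC.rg hRs w0 0 le_rfl zero_le_one (fun i _ => hν i) a θ₁ θ₂ ha
      (abs_le.mpr ⟨h₁.1, h₁.2⟩) (abs_le.mpr ⟨h₂.1, h₂.2⟩)
  simp only [mul_zero, zero_mul, zero_add] at hP1
  constructor
  · refine (main J C₃ hC₃.le ?_).trans ?_
    · intro θ₁ h₁ θ₂ h₂
      refine le_trans (le_of_eq ?_) (hP1 θ₁ h₁ θ₂ h₂).1
      refine prod_congr rfl fun i hi => ?_
      have hne : i ≠ J := (mem_range.mp hi).ne
      simp only [GS, hne, if_false]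
    · have hC₃0 := hC₃.le
      nlinarith
  · intro i₀ hi₀
    have hW0 : 0 ≤ WW (a ^ 2) (VV I J) := by
      unfold WW
      have := VV_nonneg I J
      positivity
    refine (main i₀ (C₃ * Real.exp (-(RR Rs i₀ : ℝ))) (by positivity) ?_).trans ?_
    · intro θ₁ h₁ θ₂ h₂
      obtain ⟨-, h4⟩ := hP1 θ₁ h₁ θ₂ h₂
      obtain ⟨-, h5, h6⟩ := h4 i₀ hi₀
      have e1 : ∏ i ∈ (range J).erase i₀, ‖∫ q, q.2 * GS k (KK n Rs) (RR Rs) a i₀ i θ₁ θ₂ q.1 ∂(ν i)‖ =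
          ∏ i ∈ (range J).erase i₀, ‖∫ q, q.2 * BFs (KK n Rs i) a a θ₁ θ₂ q.1 ∂(ν i)‖ := by
        refine prod_congr rfl fun i hi => ?_
        simp only [GS, (mem_erase.mp hi).1, if_false]
      rw [← mul_prod_erase (range J) _ (mem_range.mpr hi₀), e1]
      by_cases hk : k = 0
      · simp only [GS, hk, if_true]
        refine h5.trans (le_of_eq ?_)
        ring
      · simp only [GS, hk, if_true, if_false]
        refine h6.trans (le_of_eq ?_)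
        ring
    · have := herr2 i₀ hi₀
      nlinarith

lemma AQ_cont (n Rs J : ℕ) (a : ℝ) : Continuous fun z : ℕ → ℂ => AQ n Rs J a z := by
  unfold AQ NS NC; fun_prop

lemma AD_id (n Rs J : ℕ) (a u : ℝ) (z : ℕ → ℂ) :
    ((‖AQ n Rs J a z‖ ^ 2 * ‖DK n Rs J hh u z‖ ^ 2 : ℝ) : ℂ) =
      (1:ℝ) * DI J hh u (GS 0 (KK n Rs) (RR Rs) a J) z := by
  have h := sq_ids J (KK n Rs) a u hh 1 hh_even (fun i => pf (KK n Rs i)) (fun i θ z => pf_conj _ _ _) z 1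
  rw [mul_one] at h
  refine h.trans ?_
  congr 1
  unfold DI
  refine intervalIntegral.integral_congr fun θ₁ _ => ?_
  refine intervalIntegral.integral_congr fun θ₂ _ => ?_
  simp only [mul_one]
  congr 2
  refine prod_congr rfl fun i hi => ?_
  have hne : i ≠ J := (mem_range.mp hi).ne
  simp only [GS, hne, if_false, BFs]

lemma AD_id3 (n Rs J : ℕ) (a u : ℝ) (z : ℕ → ℂ) {i₀ : ℕ} (hi₀ : i₀ < J) :
    (((‖z i₀‖ / RR Rs i₀) ^ (2 * RR Rs i₀) * (‖AQ n Rs J a z‖ ^ 2 * ‖DK n Rs J hh u z‖ ^ 2) : ℝ) : ℂ) =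
      (1:ℝ) * DI J hh u (GS 0 (KK n Rs) (RR Rs) a i₀) z := by
  have h := sq_ids J (KK n Rs) a u hh 1 hh_even (fun i => pf (KK n Rs i)) (fun i θ z => pf_conj _ _ _) z
    (((‖z i₀‖ / RR Rs i₀) ^ (2 * RR Rs i₀) : ℝ) : ℂ)
  rw [Complex.ofReal_mul, mul_comm]
  refine h.trans ?_
  congr 1
  unfold DI
  refine intervalIntegral.integral_congr fun θ₁ _ => ?_
  refine intervalIntegral.integral_congr fun θ₂ _ => ?_
  congr 2
  rw [← mul_prod_erase (range J) _ (mem_range.mpr hi₀),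
    ← mul_prod_erase (range J) (fun i => GS 0 (KK n Rs) (RR Rs) a i₀ i θ₁ θ₂ (z i)) (mem_range.mpr hi₀)]
  have e1 : ∏ i ∈ (range J).erase i₀, GS 0 (KK n Rs) (RR Rs) a i₀ i θ₁ θ₂ (z i) =
      ∏ i ∈ (range J).erase i₀, (NS (KK n Rs i) a (z i) * NS (KK n Rs i) a (starRingEnd ℂ (z i)) *
        (pf (KK n Rs i) θ₁ (z i) * pf (KK n Rs i) θ₂ (z i))) := by
    refine prod_congr rfl fun i hi => ?_
    simp only [GS, (mem_erase.mp hi).1, if_false, BFs]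
  rw [e1]
  simp only [GS, if_true, BBs, BFs]
  ring

theorem t_U1 (hA : P_ALGs) (hL : P_LAW) (hP : P_PRDs) (hG : P_UPG) : P_U1s := by
  intro n c hn hc
  obtain ⟨P₀, C, hC, h⟩ := core hA hL hP hG n c hn hc
  refine ⟨P₀, C, 1 / 40000, hC, by norm_num, fun Rs hRs => ?_⟩
  filter_upwards [h Rs hRs] with T hT κ hκ y J I hCfg hlen a u ha
  obtain ⟨hT0, hT⟩ := hT
  have h1 := (((hT κ hκ).2 y J I hCfg hlen a u ha hh hh_cont hh_le 0).1)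
  exact real_bound (σ := 1) (by simp) (fun t => AD_id n Rs J a u (zz I t)) h1

theorem t_U3 (hA : P_ALGs) (hL : P_LAW) (hP : P_PRDs) (hG : P_UPG) : P_U3s := by
  intro n c hn hc
  obtain ⟨P₀, C, hC, h⟩ := core hA hL hP hG n c hn hc
  refine ⟨P₀, C, 1 / 40000, hC, by norm_num, fun Rs hRs => ?_⟩
  filter_upwards [h Rs hRs] with T hT κ hκ y J I hCfg hlen a u ha i hi
  obtain ⟨hT0, hT⟩ := hT
  have h1 := (((hT κ hκ).2 y J I hCfg hlen a u ha hh hh_cont hh_le 0).2 i hi)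
  exact real_bound (σ := 1) (by simp) (fun t => AD_id3 n Rs J a u (zz I t) hi) h1

theorem t_U13s (hA : P_ALGs) (hL : P_LAW) (hP : P_PRDs) (hG : P_UPG) : P_U1s ∧ P_U3s :=
  ⟨t_U1 hA hL hP hG, t_U3 hA hL hP hG⟩

end

end Pool.Agent.TH81.LS_U13s
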