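import Pool.Agent.TH614.HS.Defs3

/-! Job 3826 (helper81), project HS: if both roots are multiple then `l2` vanishes on the line. -/

set_option autoImplicit false

namespace Pool.Agent.TH81.J3826

open Pool.Agent.TH614.HS

theorem L2R : S_CH1 → S_L2R := by
  intro hCH L _ th x0 x1 x2 y0 y1 y2 s t mu eta mu2 eta2 h2 hth hPL hs ht hR hR2 hm hm2
    P0 P1 P2 Y hP
  by_contra hne
  obtain ⟨H, be, g, rho, hH, hbe, hg, -, hind, hrel⟩ := hCH L th x0 x1 x2 y0 y1 y2 s t mu eta
    mu2 eta2 h2 hth hPL hs ht hR hR2 ⟨P0, P1, P2, Y, hP, hne⟩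
  have hA := hind (-eta * (g + th) - be) (-eta * (rho + th) - 1 / be) (by
    intro Q0 Q1 Q2 Z hQ
    obtain ⟨r1, r2, r3, -⟩ := hrel Q0 Q1 Q2 Z hQ
    unfold l1 l2 at *
    linear_combination r1 + r2 + eta * r3 + eta * Z * hth - 2 * (s * Q0) * hm)
  have hB := hind (H * eta2 * (th - g) + be) (-(H * eta2) * (rho + th) - 1 / be) (by
    intro Q0 Q1 Q2 Z hQ
    obtain ⟨r1, r2, r3, -⟩ := hrel Q0 Q1 Q2 Z hQ
    unfold l1 l2 at *
    linear_combination r2 - r1 + H * eta2 * r3 + H * eta2 * Z * hth - 2 * H * (t * Q2) * hm2)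
  obtain ⟨a1, a2⟩ := hA
  obtain ⟨b1, b2⟩ := hB
  have hrt : rho + th ≠ 0 := by
    intro h
    rw [h, mul_zero, zero_sub, neg_eq_zero] at a2
    exact (one_div_ne_zero hbe) a2
  have he : eta = H * eta2 := by
    have h3 : (eta - H * eta2) * (rho + th) = 0 := by linear_combination b2 - a2
    exact sub_eq_zero.1 ((mul_eq_zero.1 h3).resolve_right hrt)
  rw [← he] at b1
  have h4 : 2 * g * eta = 0 := by linear_combination -(a1 + b1)
  have h5 : eta = 0 := (mul_eq_zero.1 h4).resolve_left (mul_ne_zero h2 hg)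
  rw [h5] at b1
  apply hbe
  linear_combination b1

end Pool.Agent.TH81.J3826
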