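import Pool.Agent.TH614.HS.Base

/-! # HS-PC: minors of two generators through a point -/

set_option autoImplicit false

namespace Pool.Agent.TH81.J3899

open Pool.Agent.TH614.HS

theorem minors {L : Type} [Field L] {a0 a1 a2 a3 a4 a5 b0 b1 b2 b3 b4 b5 c P0 P1 P2 R0 R1 R2 Y Z : L}
    (hY : Y ≠ 0) (ha : OnL a0 a1 a2 a3 a4 a5 P0 P1 P2 Y) (hb : OnL b0 b1 b2 b3 b4 b5 P0 P1 P2 Y)
    (hiso : Y * Z + (P0 * R0 + P1 * R1 + P2 * R2) = 0)
    (e1 : a1 * b2 - a2 * b1 = c * Y * R0) (e2 : a2 * b0 - a0 * b2 = c * Y * R1)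
    (e3 : a0 * b1 - a1 * b0 = c * Y * R2) :
    Mnr a0 a1 a2 a3 a4 a5 b0 b1 b2 b3 b4 b5 c P0 P1 P2 R0 R1 R2 Y Z := by
  obtain ⟨k0, k1, k2⟩ := ha
  obtain ⟨m0, m1, m2⟩ := hb
  refine ⟨e1, e2, e3, ?_, ?_, ?_, ?_, ?_, ?_, ?_, ?_, ?_, ?_, ?_, ?_⟩
  · apply mul_left_cancel₀ hY
    apply mul_left_cancel₀ hY
    linear_combination (-(Y * b5)) * k1 - (a2 * P0 - a0 * P2) * m2 + (Y * b4) * k2 + (a0 * P1 - a1 * P0) * m1
      + P0 * (P0 * e1 + P1 * e2 + P2 * e3) + P0 * c * Y * hiso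
  · apply mul_left_cancel₀ hY
    apply mul_left_cancel₀ hY
    linear_combination (-(Y * b3)) * k2 - (a0 * P1 - a1 * P0) * m0 + (Y * b5) * k0 + (a1 * P2 - a2 * P1) * m2
      + P1 * (P0 * e1 + P1 * e2 + P2 * e3) + P1 * c * Y * hiso
  · apply mul_left_cancel₀ hY
    apply mul_left_cancel₀ hY
    linear_combination (-(Y * b4)) * k0 - (a1 * P2 - a2 * P1) * m1 + (Y * b3) * k1 + (a2 * P0 - a0 * P2) * m0
      + P2 * (P0 * e1 + P1 * e2 + P2 * e3) + P2 * c * Y * hiso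
  · apply mul_left_cancel₀ hY
    linear_combination (-a0) * m0 + b0 * k0 + P1 * e2 + P2 * e3 + c * Y * hiso
  · apply mul_left_cancel₀ hY
    linear_combination (-a0) * m1 + b0 * k1 - P0 * e2
  · apply mul_left_cancel₀ hY
    linear_combination (-a0) * m2 + b0 * k2 - P0 * e3
  · apply mul_left_cancel₀ hY
    linear_combination (-a1) * m0 + b1 * k0 - P1 * e1
  · apply mul_left_cancel₀ hY
    linear_combination (-a1) * m1 + b1 * k1 + P0 * e1 + P2 * e3 + c * Y * hiso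
  · apply mul_left_cancel₀ hY
    linear_combination (-a1) * m2 + b1 * k2 - P1 * e3
  · apply mul_left_cancel₀ hY
    linear_combination (-a2) * m0 + b2 * k0 - P2 * e1
  · apply mul_left_cancel₀ hY
    linear_combination (-a2) * m1 + b2 * k1 - P2 * e2
  · apply mul_left_cancel₀ hY
    linear_combination (-a2) * m2 + b2 * k2 + P0 * e1 + P1 * e2 + c * Y * hiso

/-- if two generators are proportional then they are `k`-proportional -/
theorem prop_contra {L : Type} [Field L] (D : HD L) {a b : L}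
    (hind : ∀ u v, u ^ D.q = u → v ^ D.q = v → u * a + v * b = 0 → u = 0 ∧ v = 0)
    {be : L} (h0 : b = be * a) (hq : be ^ D.q = be) : False := by
  have h1 : (-1 : L) ^ D.q = -1 := by rw [D.neg_q, one_pow]
  have := (hind be (-1) hq h1 (by rw [h0]; ring)).2
  exact one_ne_zero (neg_eq_zero.1 this)

theorem PC : S_PC := by
  intro L _ D P Y a b hiso hP ha hb hma hmb hind
  obtain ⟨⟨hP6, hY2⟩, hi⟩ := hiso
  have oa := hma.onL ha
  have ob := hmb.onL hb
  have oa' := hma.onL' ha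
  have ob' := hmb.onL' hb
  have ha6 := ha.p6
  have hb6 := hb.p6
  have ha0 := ha.ne
  have ha1 : a ^ (D.q ^ 2) ≠ 0 := pow_ne_zero _ ha0
  have ha3 : a ^ (D.q ^ 3) ≠ 0 := pow_ne_zero _ ha0
  have hR0 : P ^ (D.q ^ 3) ≠ 0 := pow_ne_zero _ hP
  have hP1 : P ^ (D.q ^ 2) ≠ 0 := pow_ne_zero _ hP
  have hP2 : P ^ (D.q ^ 4) ≠ 0 := pow_ne_zero _ hP
  by_cases hY : Y = 0
  · -- a = al * P, b = be * P
    have hZ : Y ^ D.q = 0 := by rw [hY, zero_pow D.q_ne]
    obtain ⟨k0, k1, k2⟩ := oa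
    obtain ⟨m0, m1, m2⟩ := ob
    rw [hY, zero_mul] at k0 k1 k2 m0 m1 m2
    have key : ∀ x : L, x * P ^ (D.q ^ 2) - x ^ (D.q ^ 2) * P = 0 →
        (x / P) ^ (D.q ^ 2) = x / P := by
      intro x hx
      rw [div_pow, div_eq_div_iff hP1 hP]
      linear_combination -hx
    have hal := key a k2
    have hbe := key b m2
    have aP : a = a / P * P := by field_simp
    have bP : b = b / P * P := by field_simp
    generalize a / P = al at hal aP
    generalize b / P = be at hbe bP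
    have hal3 : al ^ (D.q ^ 3) = al ^ D.q := by rw [← D.pq _ 2, hal]
    have hbe3 : be ^ (D.q ^ 3) = be ^ D.q := by rw [← D.pq _ 2, hbe]
    have hal4 : al ^ (D.q ^ 4) = al := by rw [← D.pp _ 2 2, hal, hal]
    have hbe4 : be ^ (D.q ^ 4) = be := by rw [← D.pp _ 2 2, hbe, hbe]
    have hal5 : al ^ (D.q ^ 5) = al ^ D.q := by rw [← D.pq _ 4, hal4]
    have hbe5 : be ^ (D.q ^ 5) = be ^ D.q := by rw [← D.pq _ 4, hbe4]
    refine ⟨-(al * be ^ D.q - be * al ^ D.q), ?_, ?_, ?_⟩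
    · intro h0
      have hal0 : al ≠ 0 := by
        rintro rfl
        exact ha0 (by rw [aP, zero_mul])
      apply prop_contra D hind (be := be / al)
      · rw [bP, aP]; field_simp
      · rw [div_pow, div_eq_div_iff (pow_ne_zero _ hal0) hal0]
        linear_combination -h0
    · rw [D.neg_q, D.sub_q, mul_pow, mul_pow, D.qq, D.qq, hal, hbe]
      ring
    · rw [hZ, hY, aP, bP]
      simp only [mul_pow, hal, hbe, hal3, hbe3, hal4, hbe4, hal5, hbe5]
      refine ⟨?_, ?_, ?_, ?_, ?_, ?_, ?_, ?_, ?_, ?_, ?_, ?_, ?_, ?_, ?_⟩ <;> ring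
  · have hZ : Y ^ D.q ≠ 0 := pow_ne_zero _ hY
    have hRa : P ^ (D.q ^ 3) * a + P ^ (D.q ^ 5) * a ^ (D.q ^ 2) + P ^ D.q * a ^ (D.q ^ 4) = 0 := by
      obtain ⟨k0, k1, k2⟩ := oa'
      apply mul_left_cancel₀ hZ
      linear_combination (-P ^ (D.q ^ 3)) * k0 - P ^ (D.q ^ 5) * k1 - P ^ D.q * k2
    have hRb : P ^ (D.q ^ 3) * b + P ^ (D.q ^ 5) * b ^ (D.q ^ 2) + P ^ D.q * b ^ (D.q ^ 4) = 0 := by
      obtain ⟨k0, k1, k2⟩ := ob'
      apply mul_left_cancel₀ hZ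
      linear_combination (-P ^ (D.q ^ 3)) * k0 - P ^ (D.q ^ 5) * k1 - P ^ D.q * k2
    set c : L := (a ^ (D.q ^ 2) * b ^ (D.q ^ 4) - a ^ (D.q ^ 4) * b ^ (D.q ^ 2)) / (Y * P ^ (D.q ^ 3)) with hc
    have e1 : a ^ (D.q ^ 2) * b ^ (D.q ^ 4) - a ^ (D.q ^ 4) * b ^ (D.q ^ 2) = c * Y * P ^ (D.q ^ 3) := by
      rw [hc]; field_simp
    have e2 : a ^ (D.q ^ 4) * b - a * b ^ (D.q ^ 4) = c * Y * P ^ (D.q ^ 5) := by
      apply mul_left_cancel₀ hR0
      linear_combination P ^ (D.q ^ 5) * e1 + a ^ (D.q ^ 4) * hRb - b ^ (D.q ^ 4) * hRa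
    have e3 : a * b ^ (D.q ^ 2) - a ^ (D.q ^ 2) * b = c * Y * P ^ D.q := by
      apply mul_left_cancel₀ hR0
      linear_combination P ^ D.q * e1 - a ^ (D.q ^ 2) * hRb + b ^ (D.q ^ 2) * hRa
    have M := minors hY oa ob hi e1 e2 e3
    refine ⟨c, ?_, ?_, M⟩
    · intro hc0
      rw [hc0] at M e3
      have be1 : b = b / a * a := by field_simp
      have hb2 : b ^ (D.q ^ 2) = b / a * a ^ (D.q ^ 2) := by
        field_simp
        linear_combination e3
      have hb3 : b ^ (D.q ^ 3) = b / a * a ^ (D.q ^ 3) := by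
        have := M.2.2.2.2.2.2.1
        field_simp
        linear_combination this
      generalize b / a = be at be1 hb2 hb3
      have g2 : be ^ (D.q ^ 2) = be := by
        apply mul_right_cancel₀ ha1
        rw [← mul_pow, ← be1, hb2]
      have g3 : be ^ (D.q ^ 3) = be := by
        apply mul_right_cancel₀ ha3
        rw [← mul_pow, ← be1, hb3]
      refine prop_contra D hind be1 ?_
      rw [← D.pq _ 2, g2] at g3
      exact g3
    · have h1 : (a ^ (D.q ^ 2) * b ^ (D.q ^ 4) - a ^ (D.q ^ 4) * b ^ (D.q ^ 2)) ^ D.q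
          = (c * Y * P ^ (D.q ^ 3)) ^ D.q := by rw [e1]
      rw [D.sub_q, mul_pow, mul_pow, mul_pow, mul_pow, D.pq, D.pq, D.pq, D.pq, D.pq] at h1
      have h2 := M.2.2.2.2.2.1
      apply mul_right_cancel₀ (mul_ne_zero hZ hP2)
      linear_combination h2 - h1

end Pool.Agent.TH81.J3899
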