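import Pool.Agent.TH948.HT.Defs

/-! # HT-3: consequences of a good level -/

set_option autoImplicit false
set_option linter.unusedSectionVars false

namespace Pool.Agent.TH948.HT

open Finset
open scoped Classical
open Pool.Agent.TH965.Spread Pool.Agent.TH948.KK Pool.Agent.TH948.BD

namespace J3930

theorem geo1 (T : ℕ) : ∑ t ∈ range T, (3 / 4 : ℝ) ^ t ≤ 4 := by
  have h : ∑ t ∈ range T, (3 / 4 : ℝ) ^ t = 4 - 4 * (3 / 4 : ℝ) ^ T := by
    induction T with
    | zero => simp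
    | succ n ih => rw [sum_range_succ, ih, pow_succ]; ring
  have h2 : (0 : ℝ) ≤ (3 / 4 : ℝ) ^ T := by positivity
  rw [h]; linarith

theorem geo2 (T : ℕ) : ∑ t ∈ range T, ((t : ℝ) + 1) * (3 / 4 : ℝ) ^ t ≤ 16 := by
  have h : ∑ t ∈ range T, ((t : ℝ) + 1) * (3 / 4 : ℝ) ^ t = 16 - (16 + 4 * T) * (3 / 4 : ℝ) ^ T := by
    induction T with
    | zero => simp
    | succ n ih => rw [sum_range_succ, ih, pow_succ]; push_cast; ring
  have h2 : (0 : ℝ) ≤ (16 + 4 * T) * (3 / 4 : ℝ) ^ T := by positivity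
  rw [h]; linarith

/-- the level of a value, counted from `j - g` -/
noncomputable def lv (y : ℝ) (m : ℤ) : ℕ := (Int.log 2 |y| - m).toNat

theorem lv_spec {y : ℝ} {m : ℤ} (h : (2 : ℝ) ^ m ≤ |y|) :
    (2 : ℝ) ^ (m + (lv y m : ℤ)) ≤ |y| ∧ |y| < (2 : ℝ) ^ (m + (lv y m : ℤ) + 1) := by
  have hpos : 0 < |y| := lt_of_lt_of_le (zpow_pos two_pos m) h
  have h1 : ((2 : ℕ) : ℝ) ^ Int.log 2 |y| ≤ |y| := Int.zpow_log_le_self (by norm_num) hpos
  have h2 : |y| < ((2 : ℕ) : ℝ) ^ (Int.log 2 |y| + 1) := Int.lt_zpow_succ_log_self (by norm_num) _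
  push_cast at h1 h2
  have h3 : m < Int.log 2 |y| + 1 := by
    have := lt_of_le_of_lt h h2
    exact (zpow_lt_zpow_iff_right₀ (by norm_num : (1 : ℝ) < 2)).1 this
  have h4 : m + (lv y m : ℤ) = Int.log 2 |y| := by
    unfold lv
    rw [Int.toNat_of_nonneg (by omega)]
    ring
  rw [h4]
  exact ⟨h1, h2⟩

/-- the sizes of the levels above `j - g` decay geometrically -/
theorem lev_le {X : Type} {F : Finset X} {y : X → ℝ} {j : ℤ} (g t : ℕ) (h : GoodLev F y j) :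
    (lev F y (j - g + t) : ℝ) ≤ 4 ^ g * (3 / 4 : ℝ) ^ t * lev F y j := by
  have h1 := h.2 (j - g + t)
  have hs : (0 : ℝ) ≤ lev F y j := Nat.cast_nonneg _
  have e1 : (2 : ℝ) ^ (j - g + t) = 2 ^ j * 2 ^ t / 2 ^ g := by
    rw [show j - (g : ℤ) + t = j + t - g by ring, zpow_sub₀ two_ne_zero, zpow_add₀ two_ne_zero,
      zpow_natCast, zpow_natCast]
  rw [e1] at h1
  have hj : (0 : ℝ) < 2 ^ j := zpow_pos two_pos j
  have h2 : (2 : ℝ) ^ t * lev F y (j - g + t) ≤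
      (3 / 2 : ℝ) ^ (j - g + t - j).natAbs * 2 ^ g * lev F y j := by
    have h3 : 2 ^ j * 2 ^ t / 2 ^ g * (lev F y (j - g + t) : ℝ) =
      (2 ^ j / 2 ^ g) * (2 ^ t * lev F y (j - g + t)) := by ring
    have h4 : (3 / 2 : ℝ) ^ (j - g + t - j).natAbs * (2 ^ j * lev F y j) =
      (2 ^ j / 2 ^ g) * ((3 / 2 : ℝ) ^ (j - g + t - j).natAbs * 2 ^ g * lev F y j) := by
      field_simp
    rw [h3, h4] at h1
    exact le_of_mul_le_mul_left h1 (by positivity)
  rcases le_total t g with htg | htg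
  · have h5 : (j - (g : ℤ) + t - j).natAbs = g - t := by omega
    rw [h5] at h2
    obtain ⟨a, rfl⟩ := Nat.exists_eq_add_of_le htg
    rw [Nat.add_sub_cancel_left] at h2
    have h6 : (3 / 2 : ℝ) ^ a * 2 ^ (t + a) = 2 ^ t * 3 ^ a := by
      rw [pow_add, ← mul_assoc, mul_right_comm, mul_comm ((3 / 2 : ℝ) ^ a * 2 ^ a), ← mul_pow]
      norm_num
    rw [h6, mul_assoc] at h2
    have h7 := le_of_mul_le_mul_left h2 (by positivity)
    refine h7.trans ?_
    have h8 : (3 : ℝ) ^ a ≤ 4 ^ (t + a) * (3 / 4 : ℝ) ^ t := by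
      have : (4 : ℝ) ^ (t + a) * (3 / 4 : ℝ) ^ t = 3 ^ t * 4 ^ a := by
        rw [pow_add, mul_right_comm, ← mul_pow]
        norm_num
      rw [this]
      calc (3 : ℝ) ^ a ≤ 4 ^ a := by gcongr; norm_num
        _ = 1 * 4 ^ a := (one_mul _).symm
        _ ≤ 3 ^ t * 4 ^ a := by gcongr; exact one_le_pow₀ (by norm_num)
    gcongr
  · have h5 : (j - (g : ℤ) + t - j).natAbs = t - g := by omega
    rw [h5] at h2
    obtain ⟨a, rfl⟩ := Nat.exists_eq_add_of_le htg
    rw [Nat.add_sub_cancel_left] at h2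
    have h6 : (3 / 2 : ℝ) ^ a * 2 ^ g = 2 ^ (g + a) * (3 / 4 : ℝ) ^ a := by
      have : (3 / 2 : ℝ) ^ a = 2 ^ a * (3 / 4 : ℝ) ^ a := by rw [← mul_pow]; norm_num
      rw [this, pow_add]
      ring
    rw [h6, mul_assoc] at h2
    have h7 := le_of_mul_le_mul_left h2 (by positivity)
    refine h7.trans ?_
    have h8 : (3 / 4 : ℝ) ^ a ≤ 4 ^ g * (3 / 4 : ℝ) ^ (g + a) := by
      have : (4 : ℝ) ^ g * (3 / 4 : ℝ) ^ (g + a) = 3 ^ g * (3 / 4 : ℝ) ^ a := by
        rw [pow_add, ← mul_assoc, ← mul_pow]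
        norm_num
      rw [this]
      calc (3 / 4 : ℝ) ^ a = 1 * (3 / 4 : ℝ) ^ a := (one_mul _).symm
        _ ≤ 3 ^ g * (3 / 4 : ℝ) ^ a := by gcongr; exact one_le_pow₀ (by norm_num)
    gcongr

/-- summation over the levels -/
theorem sum_lv {X : Type} {F : Finset X} {y : X → ℝ} {j : ℤ} (g : ℕ) (h : GoodLev F y j)
    (φ : ℕ → ℝ) (hφ : ∀ t, 0 ≤ φ t) (C : ℝ)
    (hC : ∀ T : ℕ, ∑ t ∈ range T, φ t * (3 / 4 : ℝ) ^ t ≤ C) :
    ∑ f ∈ F.filter (fun f => (2 : ℝ) ^ (j - g) ≤ |y f|), φ (lv (y f) (j - g)) ≤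
      4 ^ g * C * lev F y j := by
  set A := F.filter (fun f => (2 : ℝ) ^ (j - g) ≤ |y f|) with hA
  set T := A.sup (fun f => lv (y f) (j - g)) + 1 with hT
  have hmaps : ∀ f ∈ A, lv (y f) (j - g) ∈ range T := by
    intro f hf
    rw [mem_range, hT, Nat.lt_succ_iff]
    exact Finset.le_sup (f := fun f => lv (y f) (j - g)) hf
  have hs : (0 : ℝ) ≤ lev F y j := Nat.cast_nonneg _
  rw [← sum_fiberwise_of_maps_to hmaps]
  calc ∑ t ∈ range T, ∑ f ∈ A.filter (fun f => lv (y f) (j - g) = t), φ (lv (y f) (j - g))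
      ≤ ∑ t ∈ range T, (4 ^ g * (3 / 4 : ℝ) ^ t * lev F y j) * φ t := by
        apply sum_le_sum
        intro t _
        have h1 : ∑ f ∈ A.filter (fun f => lv (y f) (j - g) = t), φ (lv (y f) (j - g)) =
            ((A.filter (fun f => lv (y f) (j - g) = t)).card : ℝ) * φ t := by
          rw [← nsmul_eq_mul, ← sum_const]
          apply sum_congr rfl
          intro f hf
          rw [(mem_filter.1 hf).2]
        rw [h1]
        apply mul_le_mul_of_nonneg_right _ (hφ t)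
        refine le_trans ?_ (lev_le g t h)
        unfold lev
        exact_mod_cast card_le_card (fun f hf => by
          rw [mem_filter, hA, mem_filter] at hf
          obtain ⟨⟨hfF, hf1⟩, hf2⟩ := hf
          have := lv_spec hf1
          rw [hf2] at this
          rw [mem_filter]
          exact ⟨hfF, this⟩)
    _ = 4 ^ g * (∑ t ∈ range T, φ t * (3 / 4 : ℝ) ^ t) * lev F y j := by
        rw [mul_sum, sum_mul]
        apply sum_congr rfl
        intro t _
        ring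
    _ ≤ 4 ^ g * C * lev F y j := by
        gcongr
        exact hC T

end J3930

open J3930 in
theorem good_bounds (g : ℕ) : ∃ K B : ℕ, ∀ {X : Type} (F : Finset X) (y : X → ℝ) (j : ℤ),
    GoodLev F y j →
      (F.filter (fun f => (2 : ℝ) ^ (j - g) ≤ |y f|)).card ≤ K * lev F y j ∧
      ∀ z : X → ℤ, (∀ f ∈ F, |(z f : ℝ)| ≤ |y f| / (2 : ℝ) ^ (j - g)) →
        ∏ f ∈ F, (1 + |z f|) ≤ (B : ℤ) ^ (lev F y j) := by
  refine ⟨4 ^ g * 4, 2 ^ (4 ^ g * 16), fun {X} F y j h => ⟨?_, fun z hz => ?_⟩⟩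
  · have h1 := sum_lv g h (fun _ => 1) (fun _ => zero_le_one) 4 (fun T => by
      simpa using geo1 T)
    rw [sum_const, nsmul_eq_mul, mul_one] at h1
    exact_mod_cast h1
  · set A := F.filter (fun f => (2 : ℝ) ^ (j - g) ≤ |y f|) with hA
    have hpos : (0 : ℝ) < 2 ^ (j - g : ℤ) := zpow_pos two_pos _
    -- outside `A` the factors are one
    have h0 : ∏ f ∈ F, (1 + |z f|) = ∏ f ∈ A, (1 + |z f|) := by
      rw [hA, prod_filter]
      apply prod_congr rfl
      intro f hf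
      split_ifs with hc
      · rfl
      · have h1 := hz f hf
        rw [le_div_iff₀ hpos] at h1
        have h2 : |(z f : ℝ)| < 1 := by
          by_contra h3
          rw [not_lt] at h3
          have : (2 : ℝ) ^ (j - g : ℤ) ≤ |(z f : ℝ)| * 2 ^ (j - g : ℤ) := le_mul_of_one_le_left hpos.le h3
          exact hc (this.trans h1)
        have h3 : |z f| < 1 := by exact_mod_cast h2
        have h4 : z f = 0 := Int.abs_lt_one_iff.1 h3
        rw [h4]; simp
    -- on `A`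
    have h1 : ∀ f ∈ A, 1 + |z f| ≤ (2 : ℤ) ^ (lv (y f) (j - g) + 1) := by
      intro f hf
      rw [hA, mem_filter] at hf
      have h2 := (lv_spec hf.2).2
      have h3 := hz f hf.1
      rw [le_div_iff₀ hpos] at h3
      have h4 : |(z f : ℝ)| * 2 ^ (j - g : ℤ) < 2 ^ (lv (y f) (j - g) + 1) * 2 ^ (j - g : ℤ) := by
        refine lt_of_le_of_lt h3 (lt_of_lt_of_eq h2 ?_)
        rw [show j - (g : ℤ) + (lv (y f) (j - g) : ℤ) + 1 = ((lv (y f) (j - g) + 1 : ℕ) : ℤ) + (j - g) by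
          push_cast; ring, zpow_add₀ two_ne_zero, zpow_natCast]
      have h5 := lt_of_mul_lt_mul_right h4 hpos.le
      have h6 : |z f| < (2 : ℤ) ^ (lv (y f) (j - g) + 1) := by exact_mod_cast h5
      omega
    have h2 : ∑ f ∈ A, (lv (y f) (j - g) + 1) ≤ 4 ^ g * 16 * lev F y j := by
      have h3 := sum_lv g h (fun t => (t : ℝ) + 1) (fun t => by positivity) 16 geo2
      exact_mod_cast h3
    rw [h0]
    calc ∏ f ∈ A, (1 + |z f|) ≤ ∏ f ∈ A, (2 : ℤ) ^ (lv (y f) (j - g) + 1) :=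
          prod_le_prod (fun f _ => by positivity) h1
      _ = 2 ^ (∑ f ∈ A, (lv (y f) (j - g) + 1)) := prod_pow_eq_pow_sum _ _ _
      _ ≤ 2 ^ (4 ^ g * 16 * lev F y j) := pow_le_pow_right₀ (by norm_num) h2
      _ = ((2 ^ (4 ^ g * 16) : ℕ) : ℤ) ^ (lev F y j) := by
          rw [pow_mul]; norm_cast

end Pool.Agent.TH948.HT
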