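import Mathlib
import Pool.Agent.TH949.TX.EDefs
import Pool.Agent.TH949.TX.SDefs

/-! # TXE-PI: lower bound for the number of primes -/

set_option autoImplicit false

open Complex MeasureTheory Set Filter Topology
open Pool.Agent.W189.TP (DS)
open Pool.Agent.TH949.TX

namespace Pool.Agent.TH81.J4043

theorem t_pi (ε : ℝ) (hε : 0 < ε) : ∀ᶠ x : ℝ in atTop, x ^ (1 - ε) ≤ (Nat.primeCounting ⌊x⌋₊ : ℝ) := by
  have h1 := (isLittleO_log_rpow_atTop hε).bound (c := 1 / 8) (by norm_num)
  have h2 := (isLittleO_log_rpow_atTop (one_pos)).bound (c := 1 / 16) (by norm_num)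
  filter_upwards [h1, h2, eventually_ge_atTop 16] with x hx1 hx2 hx
  have hx0 : 0 < x := by linarith
  have hlog : 0 < Real.log x := Real.log_pos (by linarith)
  rw [Real.norm_of_nonneg hlog.le, Real.norm_of_nonneg (Real.rpow_nonneg hx0.le _)] at hx1 hx2
  rw [Real.rpow_one] at hx2
  have hpsi := Chebyshev.psi_ge' hx0.le
  have hpi := Chebyshev.psi_le_primeCounting_mul_log' x
  have h3 : Real.log (x + 2) ≤ 2 * Real.log x := by
    have h4 : 2 * Real.log x = Real.log (x ^ 2) := by
      rw [Real.log_pow]; norm_num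
    rw [h4]
    exact Real.log_le_log (by linarith) (by nlinarith)
  have h5 : (1 : ℝ) / 2 ≤ Real.log 2 := by
    have := Real.log_two_gt_d9
    linarith
  have h6 : x / 8 ≤ (Nat.primeCounting ⌊x⌋₊ : ℝ) * Real.log x := by
    nlinarith
  have h7 : x ^ (1 - ε) * Real.log x ≤ x / 8 := by
    have h8 : x ^ (1 - ε) * x ^ ε = x := by
      rw [← Real.rpow_add hx0]
      norm_num
    calc x ^ (1 - ε) * Real.log x ≤ x ^ (1 - ε) * (1 / 8 * x ^ ε) := by
          gcongr
      _ = x / 8 := by
          rw [mul_left_comm, h8]; ring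
  exact le_of_mul_le_mul_right (h7.trans h6) hlog

end Pool.Agent.TH81.J4043
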